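import Pool.Agent.NUN.Fin

/-!
# Chain F of board NUL, final form

For every set of lines: `ZV n' z0 L1 L2` is the limit (over `m`) of the partition functions of the nested polygons in
the parallelogram `Om (|L1| + |L2|) m` around the face with `|L1|` rows below it, every polygon with the weight
`n' * xc ^ length`; for `0 ≤ n'` the sequence increases, in particular
`NF n' (PP T M) f0 ≤ ZV n' z0 L1 L2` if `|L1| = |L2| = T`.
-/

set_option autoImplicit false

namespace Pool.Agent.NUN

open Pool.Agent.NUF Pool.Agent.NUF.LPat HexObs HexObs.LP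
open Filter Topology

theorem Zc_tendsto (n' : ℂ) (a b : ℕ) (h : 1 ≤ a + b) :
    Tendsto (fun m => NF (xc : ℂ) (n' / 2) (fc a) (Om (a + b) m)) atTop
      (𝓝 (Zc n' (List.replicate a (Real.pi / 16 : ℂ)) (List.replicate b (Real.pi / 16 : ℂ)))) := by
  have hl : (List.replicate a (Real.pi / 16 : ℂ) ++ List.replicate b (Real.pi / 16 : ℂ)).length =
      a + b := by simp
  have e : Zc n' (List.replicate a (Real.pi / 16 : ℂ)) (List.replicate b (Real.pi / 16 : ℂ)) =
      ZV n' NUG.z0 (La (a + b) a) (Lb' (a + b) a) := by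
    rw [Zc_cast hl, List.length_replicate]
    have e1 : (Sum.elim (fun x : Fin (a + b) × Bool =>
        (List.replicate a (Real.pi / 16 : ℂ) ++ List.replicate b (Real.pi / 16 : ℂ)).get
          (Fin.cast hl.symm x.1)) (fun _ => (Real.pi / 16 : ℂ)) : NUF.St (a + b) → ℂ) = NUG.z0 := by
      funext x
      rcases x with x | x
      · show (List.replicate a (Real.pi / 16 : ℂ) ++ List.replicate b (Real.pi / 16 : ℂ)).get
          (Fin.cast hl.symm x.1) = Real.pi / 16
        have h1 : (List.replicate a (Real.pi / 16 : ℂ) ++ List.replicate b (Real.pi / 16 : ℂ)).get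
            (Fin.cast hl.symm x.1) ∈ List.replicate a (Real.pi / 16 : ℂ) ++
              List.replicate b (Real.pi / 16 : ℂ) := List.get_mem _ _
        rcases List.mem_append.1 h1 with h2 | h2
        · exact List.eq_of_mem_replicate h2
        · exact List.eq_of_mem_replicate h2
      · rfl
    rw [e1]
    rfl
  rw [e]
  exact ZV_tendsto n' h

section lines

variable {ι : Type*} [DecidableEq ι] [Finite ι] {L1 L2 : List (ι × ι)} {s : Fin 4 → ι}

/-- **The lattice meaning of the partition function of the strip.** -/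
theorem ZV_strip (hG : Gd (L1 ++ L2)) (hi : Function.Injective s)
    (h : ∀ k, ∀ t ∈ L1 ++ L2, s k ≠ t.1 ∧ s k ≠ t.2) (hN : 1 ≤ L1.length + L2.length) (n' : ℂ) :
    Tendsto (fun m => NF (xc : ℂ) (n' / 2) (fc L1.length) (Om (L1.length + L2.length) m)) atTop
      (𝓝 (ZV n' NUG.z0 L1 L2)) := by
  have h1 : ∀ k, s k ∉ (L1 ++ L2).map Prod.snd := by
    intro k hk
    obtain ⟨t, ht, he⟩ := List.mem_map.1 hk
    exact (h k t ht).2 he.symm
  have hnr := List.nodup_reverse.2 hG.snd
  have hR' : Reg (fun j => -(NUG.z0 (ι := ι)) j) ((L1 ++ L2).map Prod.snd) := by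
    have h2 := Reg.rev (z := NUG.z0 (ι := ι)) hnr (c := s 0) (d := s 1)
      (fun e => absurd (hi e) (by decide)) (fun e => h1 0 (List.mem_reverse.1 e))
      (fun e => h1 1 (List.mem_reverse.1 e)) (reg_hex hnr fun _ _ => rfl)
    rwa [List.reverse_reverse] at h2
  have e := ZV_eq_Zc (n' := n') (z := NUG.z0 (ι := ι)) hG (fun _ _ => rfl) hi h
    (reg_hex hG.fst fun _ _ => rfl) hR'
  have e1 : ∀ L : List (ι × ι), (L.map fun t => NUG.z0 (ι := ι) t.1) =
      List.replicate L.length (Real.pi / 16 : ℂ) := by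
    intro L
    rw [List.eq_replicate_iff]
    refine ⟨by simp, fun x hx => ?_⟩
    obtain ⟨t, -, rfl⟩ := List.mem_map.1 hx
    rfl
  rw [e, e1, e1]
  exact Zc_tendsto n' _ _ hN

theorem NF_cast (n' : ℝ) (f : Pt) (Ω : Finset Pt) :
    NF (xc : ℂ) ((n' : ℂ) / 2) f Ω = ((LP.NF n' Ω f : ℝ) : ℂ) := by
  rw [NF_eq_NUN]
  induction hn : Ω.card using Nat.strong_induction_on generalizing Ω with
  | _ n ih =>
    rw [NF_eq, NF_eq]
    push_cast
    congr 1
    refine Finset.sum_congr rfl fun E hE => ?_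
    rw [ih _ (hn ▸ pf_inn_card hE) _ rfl]

/-- **The nested polygons of the parallelogram are dominated by the partition function of the strip.** -/
theorem NF_Om_le (hG : Gd (L1 ++ L2)) (hi : Function.Injective s)
    (h : ∀ k, ∀ t ∈ L1 ++ L2, s k ≠ t.1 ∧ s k ≠ t.2) (hN : 1 ≤ L1.length + L2.length) {n' : ℝ}
    (hn' : 0 ≤ n') (m : ℕ) :
    LP.NF n' (Om (L1.length + L2.length) m) (fc L1.length) ≤ (ZV n' NUG.z0 L1 L2).re := by
  have h1 := (Complex.continuous_re.tendsto _).comp (ZV_strip hG hi h hN (n' : ℂ))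
  refine ge_of_tendsto h1 ?_
  filter_upwards [eventually_ge_atTop m] with k hk
  show _ ≤ (NF (xc : ℂ) ((n' : ℂ) / 2) (fc L1.length) (Om (L1.length + L2.length) k)).re
  rw [NF_cast, Complex.ofReal_re]
  exact NF_mono hn' _ (Om_mono' _ hk)

/-- every parallelogram around the central face. -/
theorem NF_PP_le_ZV (hG : Gd (L1 ++ L2)) (hi : Function.Injective s)
    (h : ∀ k, ∀ t ∈ L1 ++ L2, s k ≠ t.1 ∧ s k ≠ t.2) {T : ℕ} (hT : 1 ≤ T) (h1 : L1.length = T)
    (h2 : L2.length = T) {n' : ℝ} (hn' : 0 ≤ n') (M : ℕ) :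
    LP.NF n' (PP T M) f0 ≤ (ZV n' NUG.z0 L1 L2).re := by
  refine le_trans ?_ (NF_Om_le hG hi h (by omega) hn' (M + 2))
  have h3 := NF_PP_le (y := n' / 2) (by positivity) T M (Ω := Om (L1.length + L2.length) (M + 2))
    (fun k i a1 a2 a3 a4 => ⟨A_mem_Om (by push_cast; exact a1) (by push_cast; exact a2) a3
      (by rw [h1, h2]; push_cast; linarith), B_mem_Om (by push_cast; exact a1)
        (by push_cast; exact a2) a3 (by rw [h1, h2]; push_cast; linarith)⟩)
  rw [NF_eq_NUN, NF_eq_NUN, h1]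
  rw [h1] at h3
  exact h3

end lines

end Pool.Agent.NUN
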