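import Pool.Agent.NUN.LMain
import Pool.Agent.EXL.NetTot

/-!
# The labelled network of a parallelogram in column order (chain F of board NUL, module F3a)

The columns on the right of the gluing line from the right to the line, the columns on the left of it from the left
to the line, the edges that cross the line last.
-/

set_option autoImplicit false

namespace Pool.Agent.NUN

open Pool.Agent.NUF Pool.Agent.NUF.LPat Pool.Agent.EXL.Net HexObs HexObs.LP

variable {Γ K : Type*} [AddCommGroup Γ] [CommRing K]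

/-- the factors of the network: vertex, contraction. -/
inductive At
  | v (p : Pt)
  | c (h : Pt × Pt)

/-- the operator of a factor. -/
noncomputable def Lb.op (D : Lb Γ K) (x : K) : At → LOp Γ K
  | At.v p => lCrv Γ x p
  | At.c h => D.cS (ed h)

/-- one cell of the right part. -/
def rcell (k i : ℤ) : List At :=
  [At.v (_root_.EXL.A k i), At.v (_root_.EXL.B k i), At.c (_root_.EXL.A k i, (0, -1)),
    At.c (_root_.EXL.A (k + 1) i, (-1, 1)), At.c (_root_.EXL.A k i, (1, 0))]

/-- one column of the right part. -/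
def rcol (N : ℕ) (k : ℤ) : List At :=
  ((List.range N).flatMap fun i : ℕ => rcell k i) ++ [At.c (_root_.EXL.A k N, (0, -1))]

/-- one cell of the left part. -/
def lcell (k i : ℤ) : List At :=
  [At.v (_root_.EXL.B k i), At.v (_root_.EXL.A k i), At.c (_root_.EXL.B k i, (0, 1)),
    At.c (_root_.EXL.A k i, (-1, 1)), At.c (_root_.EXL.B k i, (-1, 0))]

/-- one column of the left part. -/
def lcol (N : ℕ) (k : ℤ) : List At :=
  ((List.range N).reverse.flatMap fun i : ℕ => lcell k i) ++ [At.c (_root_.EXL.A k 0, (0, -1))]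

/-- the edges that cross the line. -/
def glu (N : ℕ) : List At := (List.range N).map fun i : ℕ => At.c (_root_.EXL.A 0 i, (-1, 1))

/-- the right part. -/
def rtot (N : ℕ) : ℕ → List At
  | 0 => []
  | m + 1 => rcol N m ++ rtot N m

/-- the left part. -/
def ltot (N : ℕ) : ℕ → List At
  | 0 => []
  | m + 1 => lcol N (-(m : ℤ) - 1) ++ ltot N m

/-- all factors. -/
def totl (N m : ℕ) : List At := rtot N m ++ ltot N m ++ glu N

/-- the parallelogram. -/
noncomputable def Om (N m : ℕ) : Finset Pt := by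
  classical
  exact ((Finset.Ico (-(m : ℤ)) m ×ˢ Finset.Ico (0 : ℤ) N).image fun p => _root_.EXL.A p.1 p.2) ∪
    ((Finset.Ico (-(m : ℤ)) m ×ˢ Finset.Ico (0 : ℤ) N).image fun p => _root_.EXL.B p.1 p.2)

theorem mem_Om {N m : ℕ} {v : Pt} : v ∈ Om N m ↔ ∃ k i : ℤ, (-(m : ℤ) ≤ k ∧ k < m) ∧ (0 ≤ i ∧ i < N) ∧
    (v = _root_.EXL.A k i ∨ v = _root_.EXL.B k i) := by
  classical
  unfold Om
  rw [Finset.mem_union, Finset.mem_image, Finset.mem_image]
  constructor
  · rintro (⟨p, hp, rfl⟩ | ⟨p, hp, rfl⟩)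
    · rw [Finset.mem_product, Finset.mem_Ico, Finset.mem_Ico] at hp
      exact ⟨p.1, p.2, hp.1, hp.2, Or.inl rfl⟩
    · rw [Finset.mem_product, Finset.mem_Ico, Finset.mem_Ico] at hp
      exact ⟨p.1, p.2, hp.1, hp.2, Or.inr rfl⟩
  · rintro ⟨k, i, h1, h2, h | h⟩
    · exact Or.inl ⟨(k, i), Finset.mem_product.2 ⟨Finset.mem_Ico.2 h1, Finset.mem_Ico.2 h2⟩, h.symm⟩
    · exact Or.inr ⟨(k, i), Finset.mem_product.2 ⟨Finset.mem_Ico.2 h1, Finset.mem_Ico.2 h2⟩, h.symm⟩

theorem A_mem_Om {N m : ℕ} {k i : ℤ} (h1 : -(m : ℤ) ≤ k) (h2 : k < m) (h3 : 0 ≤ i) (h4 : i < N) :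
    _root_.EXL.A k i ∈ Om N m := mem_Om.2 ⟨k, i, ⟨h1, h2⟩, ⟨h3, h4⟩, Or.inl rfl⟩

theorem B_mem_Om {N m : ℕ} {k i : ℤ} (h1 : -(m : ℤ) ≤ k) (h2 : k < m) (h3 : 0 ≤ i) (h4 : i < N) :
    _root_.EXL.B k i ∈ Om N m := mem_Om.2 ⟨k, i, ⟨h1, h2⟩, ⟨h3, h4⟩, Or.inr rfl⟩

theorem Vt_A (k i : ℤ) : Vt (_root_.EXL.A k i) := by
  unfold Vt
  rw [cl_A]
  decide

theorem Vt_B (k i : ℤ) : Vt (_root_.EXL.B k i) := by
  unfold Vt
  rw [cl_B]
  decide

theorem Om_vt {N m : ℕ} {v : Pt} (h : v ∈ Om N m) : Vt v := by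
  obtain ⟨k, i, -, -, rfl | rfl⟩ := mem_Om.1 h
  · exact Vt_A k i
  · exact Vt_B k i

theorem Om_mono (N m : ℕ) : Om N m ⊆ Om N (m + 1) := by
  intro v h
  obtain ⟨k, i, h1, h2, h3⟩ := mem_Om.1 h
  exact mem_Om.2 ⟨k, i, ⟨by push_cast; omega, by push_cast; omega⟩, h2, h3⟩

theorem Om_mono' (N : ℕ) {m m' : ℕ} (hm : m ≤ m') : Om N m ⊆ Om N m' := by
  intro v h
  obtain ⟨k, i, h1, h2, h3⟩ := mem_Om.1 h
  exact mem_Om.2 ⟨k, i, ⟨by omega, by omega⟩, h2, h3⟩

/-- the parallelograms exhaust the strip. -/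
theorem mem_Om_large {N : ℕ} {v : Pt} {k i : ℤ} (h1 : 0 ≤ i) (h2 : i < N)
    (h : v = _root_.EXL.A k i ∨ v = _root_.EXL.B k i) {m : ℕ} (hm : k.natAbs < m) : v ∈ Om N m :=
  mem_Om.2 ⟨k, i, ⟨by omega, by omega⟩, ⟨h1, h2⟩, h⟩

theorem Om_exhaust {N : ℕ} {Ω : Finset Pt}
    (h : ∀ v ∈ Ω, ∃ k i : ℤ, 0 ≤ i ∧ i < N ∧ (v = _root_.EXL.A k i ∨ v = _root_.EXL.B k i)) :
    ∃ m0 : ℕ, ∀ m ≥ m0, Ω ⊆ Om N m := by
  classical
  choose! k i h1 h2 h3 using h
  refine ⟨Ω.sup (fun v => (k v).natAbs) + 1, fun m hm v hv => ?_⟩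
  refine mem_Om_large (h1 v hv) (h2 v hv) (h3 v hv) ?_
  have := Finset.le_sup (f := fun v => (k v).natAbs) hv
  omega

theorem incl (Ω : Finset Pt) : Incl Ω (edg Ω) := fun w hw d hd => mem_edg.2 ⟨(w, d), hw, hd, rfl⟩

/-! ### sorting -/

/-- the factor a may stand in front of the factor b. -/
def Ok : At → At → Prop
  | At.v p, At.v q => p ≠ q
  | At.v _, At.c _ => True
  | At.c h, At.v p => h.1 ≠ p ∧ h.1 + h.2 ≠ p
  | At.c h, At.c h' => ed h ≠ ed h'

/-- the vertices. -/
def gv : At → Option Pt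
  | At.v p => some p
  | _ => none

/-- the contractions. -/
def gc : At → Option (Pt × Pt)
  | At.c h => some h
  | _ => none

theorem mem_gv {L : List At} {p : Pt} : p ∈ L.filterMap gv ↔ At.v p ∈ L := by
  rw [List.mem_filterMap]
  constructor
  · rintro ⟨b, hb, hb'⟩
    cases b with
    | v q => simp only [gv, Option.some.injEq] at hb'; exact hb' ▸ hb
    | c h => simp [gv] at hb'
  · exact fun h => ⟨_, h, rfl⟩

theorem mem_gc {L : List At} {h : Pt × Pt} : h ∈ L.filterMap gc ↔ At.c h ∈ L := by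
  rw [List.mem_filterMap]
  constructor
  · rintro ⟨b', hb, hb'⟩
    cases b' with
    | v q => simp [gc] at hb'
    | c h => simp only [gc, Option.some.injEq] at hb'; exact hb' ▸ hb
  · exact fun h' => ⟨_, h', rfl⟩

theorem Lb.com_cv (D : Lb Γ K) (x : K) {h : Pt × Pt} {p : Pt} (h1 : h.1 ≠ p) (h2 : h.1 + h.2 ≠ p) :
    Commute (D.cS (ed h) : LOp Γ K) (lCrv Γ x p) := by
  rw [D.cS_ed]
  exact (lCrv_lCo_comm x D.nu (D.lab h) h1 h2).symm

/-- sorting of the factors. -/
theorem Lb.sort (D : Lb Γ K) (x : K) (L : List At) (hL : L.Pairwise Ok) :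
    (L.map (D.op x)).prod = ((L.filterMap gv).map (lCrv Γ x)).prod *
      ((L.filterMap gc).map (fun h => (D.cS (ed h) : LOp Γ K))).prod := by
  induction L with
  | nil => simp
  | cons a L ih =>
    rw [List.pairwise_cons] at hL
    obtain ⟨ha, hL'⟩ := hL
    have ih' := ih hL'
    rw [List.map_cons, List.prod_cons, ih']
    set V := ((L.filterMap gv).map (lCrv Γ x : Pt → LOp Γ K)).prod with hV
    set C := ((L.filterMap gc).map (fun h => (D.cS (ed h) : LOp Γ K))).prod with hC
    have comV : ∀ X : LOp Γ K, (∀ p, At.v p ∈ L → Commute X (lCrv Γ x p)) → Commute X V := by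
      intro X hX
      apply Commute.list_prod_right
      intro y hy
      rw [List.mem_map] at hy
      obtain ⟨p, hp, rfl⟩ := hy
      exact hX p (mem_gv.1 hp)
    cases a with
    | v p =>
      have f1 : (At.v p :: L).filterMap gv = p :: L.filterMap gv := rfl
      have f4 : (At.v p :: L).filterMap gc = L.filterMap gc := rfl
      rw [f1, f4, List.map_cons, List.prod_cons, ← hV, ← hC]
      simp only [Lb.op, mul_assoc]
    | c h =>
      have c1 : Commute (D.cS (ed h) : LOp Γ K) V := comV _ fun p hp => D.com_cv x (ha _ hp).1 (ha _ hp).2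
      have f1 : (At.c h :: L).filterMap gv = L.filterMap gv := rfl
      have f4 : (At.c h :: L).filterMap gc = h :: L.filterMap gc := rfl
      rw [f1, f4, List.map_cons, List.prod_cons, ← hV, ← hC]
      calc _ = (D.cS (ed h) * V) * C := by simp only [Lb.op, mul_assoc]
        _ = _ := by
          rw [c1.eq]
          simp only [mul_assoc]

/-! ### members -/

theorem mem_rcell {k i : ℤ} {a : At} (h : a ∈ rcell k i) : a = At.v (_root_.EXL.A k i) ∨
    a = At.v (_root_.EXL.B k i) ∨ a = At.c (_root_.EXL.A k i, (0, -1)) ∨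
    a = At.c (_root_.EXL.A (k + 1) i, (-1, 1)) ∨ a = At.c (_root_.EXL.A k i, (1, 0)) := by
  simpa [rcell] using h

theorem mem_lcell {k i : ℤ} {a : At} (h : a ∈ lcell k i) : a = At.v (_root_.EXL.B k i) ∨
    a = At.v (_root_.EXL.A k i) ∨ a = At.c (_root_.EXL.B k i, (0, 1)) ∨
    a = At.c (_root_.EXL.A k i, (-1, 1)) ∨ a = At.c (_root_.EXL.B k i, (-1, 0)) := by
  simpa [lcell] using h

theorem mem_rcol {N : ℕ} {k : ℤ} {a : At} : a ∈ rcol N k ↔
    (∃ i : ℕ, i < N ∧ (a = At.v (_root_.EXL.A k i) ∨ a = At.v (_root_.EXL.B k i) ∨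
      a = At.c (_root_.EXL.A k i, (0, -1)) ∨ a = At.c (_root_.EXL.A (k + 1) i, (-1, 1)) ∨
      a = At.c (_root_.EXL.A k i, (1, 0)))) ∨
    a = At.c (_root_.EXL.A k N, (0, -1)) := by
  unfold rcol rcell
  simp [List.mem_flatMap]

theorem mem_lcol {N : ℕ} {k : ℤ} {a : At} : a ∈ lcol N k ↔
    (∃ i : ℕ, i < N ∧ (a = At.v (_root_.EXL.B k i) ∨ a = At.v (_root_.EXL.A k i) ∨
      a = At.c (_root_.EXL.B k i, (0, 1)) ∨ a = At.c (_root_.EXL.A k i, (-1, 1)) ∨
      a = At.c (_root_.EXL.B k i, (-1, 0)))) ∨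
    a = At.c (_root_.EXL.A k 0, (0, -1)) := by
  unfold lcol lcell
  simp [List.mem_flatMap]

theorem mem_glu {N : ℕ} {a : At} : a ∈ glu N ↔ ∃ i : ℕ, i < N ∧ a = At.c (_root_.EXL.A 0 i, (-1, 1)) := by
  unfold glu
  simp [eq_comm]

theorem mem_rtot {N m : ℕ} {a : At} : a ∈ rtot N m ↔ ∃ k : ℕ, k < m ∧ a ∈ rcol N k := by
  induction m with
  | zero =>
    show a ∈ [] ↔ _
    simp
  | succ m ih =>
    show a ∈ rcol N m ++ rtot N m ↔ _
    rw [List.mem_append, ih]
    constructor
    · rintro (h | ⟨k, hk, h⟩)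
      · exact ⟨m, by omega, h⟩
      · exact ⟨k, by omega, h⟩
    · rintro ⟨k, hk, h⟩
      by_cases hkm : k = m
      · exact Or.inl (hkm ▸ h)
      · exact Or.inr ⟨k, by omega, h⟩

theorem mem_ltot {N m : ℕ} {a : At} : a ∈ ltot N m ↔ ∃ k : ℕ, k < m ∧ a ∈ lcol N (-(k : ℤ) - 1) := by
  induction m with
  | zero =>
    show a ∈ [] ↔ _
    simp
  | succ m ih =>
    show a ∈ lcol N (-(m : ℤ) - 1) ++ ltot N m ↔ _
    rw [List.mem_append, ih]
    constructor
    · rintro (h | ⟨k, hk, h⟩)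
      · exact ⟨m, by omega, h⟩
      · exact ⟨k, by omega, h⟩
    · rintro ⟨k, hk, h⟩
      by_cases hkm : k = m
      · exact Or.inl (hkm ▸ h)
      · exact Or.inr ⟨k, by omega, h⟩

/-! ### the order of the factors -/

theorem ok_rcell (k i : ℤ) : (rcell k i).Pairwise Ok := by
  unfold rcell
  simp only [List.pairwise_cons, List.mem_cons, List.not_mem_nil, or_false, forall_eq_or_imp, forall_eq,
    List.Pairwise.nil, Ok, and_true, ne_eq, ed_eq, rv, Prod.ext_iff, _root_.EXL.A, _root_.EXL.B, Prod.fst_add,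
    Prod.snd_add, Prod.fst_neg, Prod.snd_neg, false_imp_iff, implies_true, true_and]
  omega

theorem ok_lcell (k i : ℤ) : (lcell k i).Pairwise Ok := by
  unfold lcell
  simp only [List.pairwise_cons, List.mem_cons, List.not_mem_nil, or_false, forall_eq_or_imp, forall_eq,
    List.Pairwise.nil, Ok, and_true, ne_eq, ed_eq, rv, Prod.ext_iff, _root_.EXL.A, _root_.EXL.B, Prod.fst_add,
    Prod.snd_add, Prod.fst_neg, Prod.snd_neg, false_imp_iff, implies_true, true_and]
  omega

theorem ok_rcells {k i i' : ℤ} (h : i < i') {a b : At} (ha : a ∈ rcell k i) (hb : b ∈ rcell k i') : Ok a b := by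
  rcases mem_rcell ha with rfl | rfl | rfl | rfl | rfl <;> rcases mem_rcell hb with rfl | rfl | rfl | rfl | rfl <;>
    (simp only [Ok, ne_eq, ed_eq, rv, Prod.ext_iff, _root_.EXL.A, _root_.EXL.B, Prod.fst_add, Prod.snd_add,
      Prod.fst_neg, Prod.snd_neg] <;> omega)

theorem ok_lcells {k i i' : ℤ} (h : i' < i) {a b : At} (ha : a ∈ lcell k i) (hb : b ∈ lcell k i') : Ok a b := by
  rcases mem_lcell ha with rfl | rfl | rfl | rfl | rfl <;> rcases mem_lcell hb with rfl | rfl | rfl | rfl | rfl <;>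
    (simp only [Ok, ne_eq, ed_eq, rv, Prod.ext_iff, _root_.EXL.A, _root_.EXL.B, Prod.fst_add, Prod.snd_add,
      Prod.fst_neg, Prod.snd_neg] <;> omega)

theorem ok_rcol (N : ℕ) (k : ℤ) : (rcol N k).Pairwise Ok := by
  unfold rcol
  rw [List.pairwise_append]
  refine ⟨?_, ?_, ?_⟩
  · rw [List.pairwise_flatMap]
    refine ⟨fun i _ => ok_rcell k i, ?_⟩
    exact List.pairwise_lt_range.imp fun {a b} hab x hx y hy => ok_rcells (by exact_mod_cast hab) hx hy
  · simp
  · intro a ha b hb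
    rw [List.mem_flatMap] at ha
    obtain ⟨i, hi, ha⟩ := ha
    rw [List.mem_range] at hi
    simp only [List.mem_cons, List.not_mem_nil, or_false] at hb
    rcases hb with rfl
    rcases mem_rcell ha with rfl | rfl | rfl | rfl | rfl <;>
    (simp only [Ok, ne_eq, ed_eq, rv, Prod.ext_iff, _root_.EXL.A, _root_.EXL.B, Prod.fst_add, Prod.snd_add,
      Prod.fst_neg, Prod.snd_neg] <;> omega)

theorem ok_lcol (N : ℕ) (k : ℤ) : (lcol N k).Pairwise Ok := by
  unfold lcol
  rw [List.pairwise_append]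
  refine ⟨?_, ?_, ?_⟩
  · rw [List.pairwise_flatMap]
    refine ⟨fun i _ => ok_lcell k i, ?_⟩
    rw [List.pairwise_reverse]
    exact List.pairwise_lt_range.imp fun {a b} hab x hx y hy => ok_lcells (by exact_mod_cast hab) hx hy
  · simp
  · intro a ha b hb
    rw [List.mem_flatMap] at ha
    obtain ⟨i, hi, ha⟩ := ha
    rw [List.mem_reverse, List.mem_range] at hi
    simp only [List.mem_cons, List.not_mem_nil, or_false] at hb
    rcases hb with rfl
    rcases mem_lcell ha with rfl | rfl | rfl | rfl | rfl <;>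
    (simp only [Ok, ne_eq, ed_eq, rv, Prod.ext_iff, _root_.EXL.A, _root_.EXL.B, Prod.fst_add, Prod.snd_add,
      Prod.fst_neg, Prod.snd_neg] <;> omega)

theorem ok_glu (N : ℕ) : (glu N).Pairwise Ok := by
  unfold glu
  rw [List.pairwise_map]
  refine List.pairwise_lt_range.imp fun {a b} hab => ?_
  simp only [Ok, ne_eq, ed_eq, rv, Prod.ext_iff, _root_.EXL.A, _root_.EXL.B, Prod.fst_add, Prod.snd_add,
    Prod.fst_neg, Prod.snd_neg] <;> omega

theorem ok_rcol_rcol {N : ℕ} {k k' : ℤ} (h : k' < k) {a b : At} (ha : a ∈ rcol N k) (hb : b ∈ rcol N k') :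
    Ok a b := by
  rw [mem_rcol] at ha hb
  rcases ha with ⟨i, hi, rfl | rfl | rfl | rfl | rfl⟩ | rfl <;>
    rcases hb with ⟨i', hi', rfl | rfl | rfl | rfl | rfl⟩ | rfl <;>
    (simp only [Ok, ne_eq, ed_eq, rv, Prod.ext_iff, _root_.EXL.A, _root_.EXL.B, Prod.fst_add, Prod.snd_add,
      Prod.fst_neg, Prod.snd_neg] <;> omega)

theorem ok_lcol_lcol {N : ℕ} {k k' : ℤ} (h : k < k') {a b : At} (ha : a ∈ lcol N k) (hb : b ∈ lcol N k') :
    Ok a b := by
  rw [mem_lcol] at ha hb
  rcases ha with ⟨i, hi, rfl | rfl | rfl | rfl | rfl⟩ | rfl <;>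
    rcases hb with ⟨i', hi', rfl | rfl | rfl | rfl | rfl⟩ | rfl <;>
    (simp only [Ok, ne_eq, ed_eq, rv, Prod.ext_iff, _root_.EXL.A, _root_.EXL.B, Prod.fst_add, Prod.snd_add,
      Prod.fst_neg, Prod.snd_neg] <;> omega)

theorem ok_rcol_lcol {N : ℕ} {k k' : ℤ} (h : 0 ≤ k) (h' : k' < 0) {a b : At} (ha : a ∈ rcol N k)
    (hb : b ∈ lcol N k') : Ok a b := by
  rw [mem_rcol] at ha
  rw [mem_lcol] at hb
  rcases ha with ⟨i, hi, rfl | rfl | rfl | rfl | rfl⟩ | rfl <;>
    rcases hb with ⟨i', hi', rfl | rfl | rfl | rfl | rfl⟩ | rfl <;>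
    (simp only [Ok, ne_eq, ed_eq, rv, Prod.ext_iff, _root_.EXL.A, _root_.EXL.B, Prod.fst_add, Prod.snd_add,
      Prod.fst_neg, Prod.snd_neg] <;> omega)

theorem ok_rcol_glu {N : ℕ} {k : ℤ} (h : 0 ≤ k) {a b : At} (ha : a ∈ rcol N k) (hb : b ∈ glu N) : Ok a b := by
  rw [mem_rcol] at ha
  rw [mem_glu] at hb
  obtain ⟨i', hi', rfl⟩ := hb
  rcases ha with ⟨i, hi, rfl | rfl | rfl | rfl | rfl⟩ | rfl <;>
    (simp only [Ok, ne_eq, ed_eq, rv, Prod.ext_iff, _root_.EXL.A, _root_.EXL.B, Prod.fst_add, Prod.snd_add,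
      Prod.fst_neg, Prod.snd_neg] <;> omega)

theorem ok_lcol_glu {N : ℕ} {k : ℤ} (h : k < 0) {a b : At} (ha : a ∈ lcol N k) (hb : b ∈ glu N) : Ok a b := by
  rw [mem_lcol] at ha
  rw [mem_glu] at hb
  obtain ⟨i', hi', rfl⟩ := hb
  rcases ha with ⟨i, hi, rfl | rfl | rfl | rfl | rfl⟩ | rfl <;>
    (simp only [Ok, ne_eq, ed_eq, rv, Prod.ext_iff, _root_.EXL.A, _root_.EXL.B, Prod.fst_add, Prod.snd_add,
      Prod.fst_neg, Prod.snd_neg] <;> omega)

theorem ok_rtot (N m : ℕ) : (rtot N m).Pairwise Ok := by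
  induction m with
  | zero => exact List.Pairwise.nil
  | succ m ih =>
    show (rcol N m ++ rtot N m).Pairwise Ok
    rw [List.pairwise_append]
    refine ⟨ok_rcol N m, ih, fun a ha b hb => ?_⟩
    rw [mem_rtot] at hb
    obtain ⟨k, hk, hb⟩ := hb
    exact ok_rcol_rcol (by exact_mod_cast hk) ha hb

theorem ok_ltot (N m : ℕ) : (ltot N m).Pairwise Ok := by
  induction m with
  | zero => exact List.Pairwise.nil
  | succ m ih =>
    show (lcol N (-(m : ℤ) - 1) ++ ltot N m).Pairwise Ok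
    rw [List.pairwise_append]
    refine ⟨ok_lcol N _, ih, fun a ha b hb => ?_⟩
    rw [mem_ltot] at hb
    obtain ⟨k, hk, hb⟩ := hb
    exact ok_lcol_lcol (by omega) ha hb

theorem ok_totl (N m : ℕ) : (totl N m).Pairwise Ok := by
  unfold totl
  rw [List.pairwise_append, List.pairwise_append]
  refine ⟨⟨ok_rtot N m, ok_ltot N m, fun a ha b hb => ?_⟩, ok_glu N, fun a ha b hb => ?_⟩
  · obtain ⟨k, hk, ha⟩ := mem_rtot.1 ha
    obtain ⟨k', hk', hb⟩ := mem_ltot.1 hb
    exact ok_rcol_lcol (by positivity) (by omega) ha hb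
  · rcases List.mem_append.1 ha with ha | ha
    · obtain ⟨k, hk, ha⟩ := mem_rtot.1 ha
      exact ok_rcol_glu (by positivity) ha hb
    · obtain ⟨k, hk, ha⟩ := mem_ltot.1 ha
      exact ok_lcol_glu (by omega) ha hb

theorem nodup_gv {L : List At} (hL : L.Pairwise Ok) : (L.filterMap gv).Nodup := by
  refine List.Pairwise.filterMap (S := fun a b => a ≠ b) gv ?_ hL
  intro a a' hab p hp p' hp'
  cases a <;> cases a' <;> simp [gv] at hp hp'
  subst hp hp'
  exact hab

theorem nodup_gc {L : List At} (hL : L.Pairwise Ok) : ((L.filterMap gc).map ed).Nodup := by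
  unfold List.Nodup
  rw [List.pairwise_map]
  refine List.Pairwise.filterMap (S := fun a b => ed a ≠ ed b) gc ?_ hL
  intro a a' hab p hp p' hp'
  cases a <;> cases a' <;> simp [gc] at hp hp'
  subst hp hp'
  exact hab

theorem lCR_list (x : K) {l : List Pt} (hl : l.Nodup) {Ω : Finset Pt} (h : l.toFinset = Ω) :
    (lCR Γ x Ω : LOp Γ K) = (l.map (lCrv Γ x)).prod := by
  subst h
  exact Finset.noncommProd_toFinset l _ _ hl

theorem Lb.cO_list (D : Lb Γ K) {l : List (Pt × Pt)} (hl : (l.map ed).Nodup) {E : Finset (Sym2 Lab)} (hE : Edg E)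
    (h : (l.map ed).toFinset = E) : D.cO E hE = (l.map (fun h => (D.cS (ed h) : LOp Γ K))).prod := by
  subst h
  unfold Lb.cO
  rw [Finset.noncommProd_toFinset _ _ _ hl, List.map_map]
  rfl

/-- **The network of the parallelogram in column order.** -/
theorem totl_eq {K : Type} [CommRing K] (D : Lb Γ K) (x : K) {N m : ℕ} (hN : 1 ≤ N) (hm : 1 ≤ m) :
    ((totl N m).map (D.op x)).prod = D.Nt x (Om N m) (edg (Om N m)) (edg_Edg _) := by
  have hok := ok_totl N m
  rw [D.sort x _ hok]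
  unfold Lb.Nt
  congr 1
  · symm
    refine lCR_list x (nodup_gv hok) ?_
    ext p
    rw [List.mem_toFinset, mem_gv, mem_Om]
    unfold totl
    rw [List.mem_append, List.mem_append, mem_rtot, mem_ltot, mem_glu]
    constructor
    · rintro ((⟨k, hk, h⟩ | ⟨k, hk, h⟩) | ⟨i, hi, h⟩)
      · rw [mem_rcol] at h
        simp only [reduceCtorEq, At.v.injEq, or_false] at h
        obtain ⟨i, hi, h⟩ := h
        exact ⟨k, i, ⟨by omega, by omega⟩, ⟨by omega, by omega⟩, h⟩
      · rw [mem_lcol] at h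
        simp only [reduceCtorEq, At.v.injEq, or_false] at h
        obtain ⟨i, hi, h⟩ := h
        exact ⟨-(k : ℤ) - 1, i, ⟨by omega, by omega⟩, ⟨by omega, by omega⟩, h.symm⟩
      · simp at h
    · rintro ⟨k, i, ⟨h1, h2⟩, ⟨h3, h4⟩, h⟩
      obtain ⟨i, rfl⟩ := Int.eq_ofNat_of_zero_le h3
      left
      by_cases hk : 0 ≤ k
      · obtain ⟨k, rfl⟩ := Int.eq_ofNat_of_zero_le hk
        refine Or.inl ⟨k, by omega, mem_rcol.2 (Or.inl ⟨i, by omega, ?_⟩)⟩
        rcases h with rfl | rfl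
        · exact Or.inl rfl
        · exact Or.inr (Or.inl rfl)
      · obtain ⟨j, hj⟩ := Int.eq_ofNat_of_zero_le (show 0 ≤ -k - 1 by omega)
        have e : k = -(j : ℤ) - 1 := by omega
        subst e
        refine Or.inr ⟨j, by omega, mem_lcol.2 (Or.inl ⟨i, by omega, ?_⟩)⟩
        rcases h with rfl | rfl
        · exact Or.inr (Or.inl rfl)
        · exact Or.inl rfl
  · symm
    refine D.cO_list (nodup_gc hok) _ ?_
    ext e
    rw [List.mem_toFinset, List.mem_map, mem_edg]
    constructor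
    · rintro ⟨h, hh, rfl⟩
      rw [mem_gc] at hh
      unfold totl at hh
      rw [List.mem_append, List.mem_append, mem_rtot, mem_ltot, mem_glu] at hh
      rcases hh with (⟨k, hk, hh⟩ | ⟨k, hk, hh⟩) | ⟨i, hi, hh⟩
      · rw [mem_rcol] at hh
        simp only [reduceCtorEq, At.c.injEq, false_or] at hh
        rcases hh with ⟨i, hi, rfl | rfl | rfl⟩ | rfl
        · exact ⟨_, A_mem_Om (by omega) (by omega) (by omega) (by omega), (Tot.De_A' k i).1, rfl⟩
        · refine ⟨rv (_root_.EXL.A (k + 1) i, (-1, 1)), ?_, Tot.De_rv' (Tot.De_A' (k + 1) i).2.1, ed_rv _⟩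
          show _root_.EXL.A (k + 1) i + (-1, 1) ∈ _
          rw [_root_.EXL.A_left, add_sub_cancel_right]
          exact B_mem_Om (by omega) (by omega) (by omega) (by omega)
        · exact ⟨_, A_mem_Om (by omega) (by omega) (by omega) (by omega), (Tot.De_A' k i).2.2, rfl⟩
        · refine ⟨rv (_root_.EXL.A k N, (0, -1)), ?_, Tot.De_rv' (Tot.De_A' k N).1, ed_rv _⟩
          show _root_.EXL.A k N + (0, -1) ∈ _
          rw [_root_.EXL.A_down]
          exact B_mem_Om (by omega) (by omega) (by omega) (by omega)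
      · rw [mem_lcol] at hh
        simp only [reduceCtorEq, At.c.injEq, false_or] at hh
        set k' : ℤ := -(k : ℤ) - 1 with hk'
        rcases hh with ⟨i, hi, rfl | rfl | rfl⟩ | rfl
        · refine ⟨_, B_mem_Om (by omega) (by omega) (by omega) (by omega), ?_, rfl⟩
          have h1 := Tot.De_rv' (Tot.De_A' k' ((i : ℤ) + 1)).1
          unfold rv at h1
          simp only [_root_.EXL.A_down, add_sub_cancel_right] at h1
          exact h1
        · exact ⟨_, A_mem_Om (by omega) (by omega) (by omega) (by omega), (Tot.De_A' k' i).2.1, rfl⟩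
        · refine ⟨_, B_mem_Om (by omega) (by omega) (by omega) (by omega), ?_, rfl⟩
          have h1 := Tot.De_rv' (Tot.De_A' k' i).2.2
          unfold rv at h1
          simp only [_root_.EXL.A_right] at h1
          exact h1
        · exact ⟨_, A_mem_Om (by omega) (by omega) (by omega) (by omega), (Tot.De_A' k' 0).1, rfl⟩
      · rw [At.c.injEq] at hh
        subst hh
        exact ⟨_, A_mem_Om (by omega) (by omega) (by omega) (by omega), (Tot.De_A' 0 i).2.1, rfl⟩
    · rintro ⟨⟨p, d⟩, hp, hd, rfl⟩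
      obtain ⟨k, i, ⟨h1, h2⟩, ⟨h3, h4⟩, h⟩ := mem_Om.1 hp
      obtain ⟨i, rfl⟩ := Int.eq_ofNat_of_zero_le h3
      have hi : i < N := by exact_mod_cast h4
      have key : ∀ h h' : Pt × Pt, At.c h ∈ totl N m → ed h = ed h' →
          ∃ a ∈ List.filterMap gc (totl N m), ed a = ed h' :=
        fun h h' hh e => ⟨h, mem_gc.2 hh, e⟩
      have keyr : ∀ (j : ℕ) (a : At), j < m → a ∈ rcol N j → a ∈ totl N m := by
        intro j a hj ha
        unfold totl
        exact List.mem_append.2 (Or.inl (List.mem_append.2 (Or.inl (mem_rtot.2 ⟨j, hj, ha⟩))))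
      have keyl : ∀ (j : ℤ) (a : At), -(m : ℤ) ≤ j → j < 0 → a ∈ lcol N j → a ∈ totl N m := by
        intro j a hj hj0 ha
        obtain ⟨l, hl⟩ := Int.eq_ofNat_of_zero_le (show 0 ≤ -j - 1 by omega)
        have e : j = -(l : ℤ) - 1 := by omega
        rw [e] at ha
        unfold totl
        exact List.mem_append.2 (Or.inl (List.mem_append.2 (Or.inr (mem_ltot.2 ⟨l, by omega, ha⟩))))
      have keyg : ∀ a : At, a ∈ glu N → a ∈ totl N m := by
        intro a ha
        unfold totl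
        exact List.mem_append.2 (Or.inr ha)
      by_cases hk : 0 ≤ k
      · obtain ⟨k, rfl⟩ := Int.eq_ofNat_of_zero_le hk
        have hk : k < m := by exact_mod_cast h2
        rcases h with h | h
        · simp only at h
          subst h
          rcases Tot.De_A hd with rfl | rfl | rfl
          · exact key _ _ (keyr k _ hk (mem_rcol.2 (Or.inl ⟨i, hi, by simp⟩))) rfl
          · by_cases hk0 : k = 0
            · subst hk0
              exact key _ _ (keyg _ (mem_glu.2 ⟨i, hi, rfl⟩)) rfl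
            · obtain ⟨k', rfl⟩ : ∃ k', k = k' + 1 := ⟨k - 1, by omega⟩
              refine key (_root_.EXL.A ((k' : ℤ) + 1) i, (-1, 1)) _ (keyr k' _ (by omega)
                (mem_rcol.2 (Or.inl ⟨i, hi, by simp⟩))) ?_
              push_cast
              rfl
          · exact key _ _ (keyr k _ hk (mem_rcol.2 (Or.inl ⟨i, hi, by simp⟩))) rfl
        · simp only at h
          subst h
          rcases Tot.De_B hd with rfl | rfl | rfl
          · have e1 : ed (_root_.EXL.B (k : ℤ) i, (0, 1)) = ed (_root_.EXL.A (k : ℤ) ((i : ℤ) + 1), (0, -1)) := by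
              rw [← ed_rv]
              unfold rv
              simp only [_root_.EXL.B_up]
              rfl
            rw [e1]
            by_cases hiN : i + 1 = N
            · refine key (_root_.EXL.A (k : ℤ) N, (0, -1)) _ (keyr k _ hk (mem_rcol.2 (Or.inr rfl))) ?_
              rw [← hiN]
              push_cast
              rfl
            · refine key (_root_.EXL.A (k : ℤ) ((i + 1 : ℕ) : ℤ), (0, -1)) _ (keyr k _ hk
                (mem_rcol.2 (Or.inl ⟨i + 1, by omega, by simp⟩))) ?_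
              push_cast
              rfl
          · have e1 : ed (_root_.EXL.B (k : ℤ) i, (1, -1)) = ed (_root_.EXL.A ((k : ℤ) + 1) i, (-1, 1)) := by
              rw [← ed_rv]
              unfold rv
              simp only [_root_.EXL.B_right]
              rfl
            rw [e1]
            exact key _ _ (keyr k _ hk (mem_rcol.2 (Or.inl ⟨i, hi, by simp⟩))) rfl
          · have e1 : ed (_root_.EXL.B (k : ℤ) i, (-1, 0)) = ed (_root_.EXL.A (k : ℤ) i, (1, 0)) := by
              rw [← ed_rv]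
              unfold rv
              simp only [_root_.EXL.B_left]
              rfl
            rw [e1]
            exact key _ _ (keyr k _ hk (mem_rcol.2 (Or.inl ⟨i, hi, by simp⟩))) rfl
      · have hk : k < 0 := by omega
        rcases h with h | h
        · simp only at h
          subst h
          rcases Tot.De_A hd with rfl | rfl | rfl
          · by_cases hi0 : i = 0
            · subst hi0
              exact key _ _ (keyl k _ h1 hk (mem_lcol.2 (Or.inr rfl))) rfl
            · obtain ⟨i', rfl⟩ : ∃ i', i = i' + 1 := ⟨i - 1, by omega⟩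
              have e1 : ed (_root_.EXL.A k ((i' + 1 : ℕ) : ℤ), (0, -1)) = ed (_root_.EXL.B k (i' : ℤ), (0, 1)) := by
                rw [← ed_rv]
                unfold rv
                simp only [_root_.EXL.A_down]
                push_cast
                rw [add_sub_cancel_right]
                rfl
              rw [e1]
              exact key _ _ (keyl k _ h1 hk (mem_lcol.2 (Or.inl ⟨i', by omega, by simp⟩))) rfl
          · exact key _ _ (keyl k _ h1 hk (mem_lcol.2 (Or.inl ⟨i, hi, by simp⟩))) rfl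
          · have e1 : ed (_root_.EXL.A k (i : ℤ), (1, 0)) = ed (_root_.EXL.B k (i : ℤ), (-1, 0)) := by
              rw [← ed_rv]
              unfold rv
              simp only [_root_.EXL.A_right]
              rfl
            rw [e1]
            exact key _ _ (keyl k _ h1 hk (mem_lcol.2 (Or.inl ⟨i, hi, by simp⟩))) rfl
        · simp only at h
          subst h
          rcases Tot.De_B hd with rfl | rfl | rfl
          · exact key _ _ (keyl k _ h1 hk (mem_lcol.2 (Or.inl ⟨i, hi, by simp⟩))) rfl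
          · have e1 : ed (_root_.EXL.B k (i : ℤ), (1, -1)) = ed (_root_.EXL.A (k + 1) i, (-1, 1)) := by
              rw [← ed_rv]
              unfold rv
              simp only [_root_.EXL.B_right]
              rfl
            rw [e1]
            by_cases hk1 : k = -1
            · subst hk1
              exact key (_root_.EXL.A 0 i, (-1, 1)) _ (keyg _ (mem_glu.2 ⟨i, hi, rfl⟩)) rfl
            · exact key _ _ (keyl (k + 1) _ (by omega) (by omega) (mem_lcol.2 (Or.inl ⟨i, hi, by simp⟩))) rfl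
          · exact key _ _ (keyl k _ h1 hk (mem_lcol.2 (Or.inl ⟨i, hi, by simp⟩))) rfl

end Pool.Agent.NUN
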