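import Pool.Agent.NUF.NFLink
import Pool.Agent.EXL.Par

/-!
# Chain F, module F3d: the centred parallelogram inside the strip of the column network

The parallelogram `PP T M` around `f0` is moved by `(T - 2, T + 1)` into the strip of the rows `0 ≤ i < 2 T` of the
cells `EXL.A k i`, `EXL.B k i`; the face is `(T - 1, T + 1)`, with `T` rows below it and `T` rows above it.
-/

set_option autoImplicit false

namespace Pool.Agent.NUN

open HexObs HexObs.LP Finset

private lemma f3d_vt (v : Pt) : Vt v ↔ (v.1 - v.2) % 3 ≠ 1 := by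
  unfold Vt cl
  rw [Ne, show ((v.1 - v.2 : ℤ) : ZMod 3) = 1 ↔ ((v.1 - v.2 : ℤ) : ZMod 3) = ((1 : ℤ) : ZMod 3) by
    rw [Int.cast_one], ZMod.intCast_eq_intCast_iff]
  unfold Int.ModEq
  push_cast
  omega

/-- every vertex of the strip is in a cell. -/
theorem exists_cell {v : Pt} (hv : Vt v) : ∃ k i : ℤ, v = EXL.A k i ∨ v = EXL.B k i := by
  rw [f3d_vt] at hv
  obtain ⟨x, y⟩ := v
  simp only at hv
  rcases (by omega : (x - y) % 3 = 2 ∨ (x - y) % 3 = 0) with h | h
  · refine ⟨(x - y + 1) / 3, (x + 2 * y - 2) / 3, Or.inl ?_⟩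
    unfold EXL.A
    ext <;> simp only <;> omega
  · refine ⟨(x - y) / 3, (x + 2 * y - 3) / 3, Or.inr ?_⟩
    unfold EXL.B
    ext <;> simp only <;> omega

/-- **F3d**: the parallelogram around the central face in a strip of `2 T` rows. -/
theorem NF_PP_le {y : ℝ} (hy : 0 ≤ y) (T M : ℕ) {Ω : Finset Pt}
    (h : ∀ k i : ℤ, -(M + 2 : ℤ) ≤ k → k < M + 2 → 0 ≤ i → i < 2 * T → EXL.A k i ∈ Ω ∧ EXL.B k i ∈ Ω) :
    NF xc y f0 (PP T M) ≤ NF xc y ((T : ℤ) - 1, (T : ℤ) + 1) Ω := by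
  have e1 := NF_eq_NUN (2 * y) f0 (PP T M)
  have e2 := NF_eq_NUN (2 * y) ((T : ℤ) - 1, (T : ℤ) + 1) Ω
  rw [mul_div_cancel_left₀ y (two_ne_zero' ℝ)] at e1 e2
  rw [← e1, ← e2]
  set z : Pt := ((T : ℤ) - 2, (T : ℤ) + 1) with hz
  have hz0 : cl z = 0 := by
    unfold cl
    rw [hz]
    have : ((T : ℤ) - 2 - ((T : ℤ) + 1) : ℤ) = ((-3 : ℤ)) := by ring
    simp only
    rw [this]
    decide
  have hf : f0 + z = ((T : ℤ) - 1, (T : ℤ) + 1) := by
    rw [hz]
    unfold f0
    ext <;> simp only [Prod.fst_add, Prod.snd_add] <;> ring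
  rw [← NF_tr (2 * y) hz0 (PP T M) f0, hf]
  apply NF_mono (by positivity)
  intro w hw
  rw [mem_Ti, mem_PP, abs_lt, abs_lt] at hw
  obtain ⟨h1, ⟨h2, h3⟩, h4, h5⟩ := hw
  obtain ⟨k, i, hk⟩ := exists_cell h1
  have hw' : w = EXL.A (k - 1) (i + T) ∨ w = EXL.B (k - 1) (i + T) := by
    rcases hk with hk | hk
    · left
      have : w = EXL.A k i + z := by rw [← hk]; abel
      rw [this, hz]
      unfold EXL.A
      ext <;> simp only [Prod.fst_add, Prod.snd_add] <;> ring
    · right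
      have : w = EXL.B k i + z := by rw [← hk]; abel
      rw [this, hz]
      unfold EXL.B
      ext <;> simp only [Prod.fst_add, Prod.snd_add] <;> ring
  have hb : -(T : ℤ) ≤ i ∧ i < T ∧ -(M : ℤ) ≤ k ∧ k ≤ M := by
    rcases hk with hk | hk
    · rw [hk] at h2 h3 h4 h5
      unfold EXL.A lv nn at *
      simp only at h2 h3 h4 h5
      omega
    · rw [hk] at h2 h3 h4 h5
      unfold EXL.B lv nn at *
      simp only at h2 h3 h4 h5
      omega
  have h6 := h (k - 1) (i + T) (by omega) (by omega) (by omega) (by omega)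
  rcases hw' with h7 | h7
  · rw [h7]
    exact h6.1
  · rw [h7]
    exact h6.2

end Pool.Agent.NUN
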