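import Pool.Agent.NUN.Lft
import Pool.Agent.EXL.NetEval
import Pool.Agent.NUF.PDef

/-!
# Evaluation of the columns of the network on fronts (chain F of board NUL, module F3b)

The sites `St N` are identified with the half edges of a front: the right halves of the lines are the half edges
`lW (ka i) i`, the left halves the half edges `lE (kb i) i`, the auxiliary site is a vertical half edge.
-/

set_option autoImplicit false

namespace Pool.Agent.NUN

open Pool.Agent.EXL Pool.Agent.EXL.Pat Pool.Agent.EXL.Net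

variable {K : Type*} [CommRing K]

/-! ### one rhombus -/

theorem rho_gen (x : K) {ι : Type*} [DecidableEq ι] {κ κ' : ι → Lab} (hκ : Function.Injective κ)
    (hκ' : Function.Injective κ') {c j : ι} {s e aS aW am bm bE bN : Lab} (h1 : κ c = s)
    (h2 : κ j = e) (h3 : κ' c = bN) (h4 : κ' j = aW) (h5 : ∀ b, b ≠ c → b ≠ j → κ' b = κ b)
    (hd : [e, s, aS, aW, am, bm, bE, bN].Nodup)
    (hout : ∀ y ∈ [aS, aW, am, bm, bE, bN], ∀ b, κ b ≠ y) (G : Pat Lab → K) (q : Pat ι) :
    (Cr x aS am aW * Cr x bE bN bm * (Co s aS * Co e bE * Co am bm) : Op Lab K) G (lft κ hκ q) =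
      R (hexW x) c j (fun q => G (lft κ' hκ' q)) q := by
  have f : ∀ y ∈ [aS, aW, am, bm, bE, bN], ∀ q : Pat ι, lft κ hκ q y = y := by
    intro y hy q
    apply lft_of_notMem
    rintro ⟨b, hb⟩
    exact hout y hy b hb
  have hl := rho_local x hd G (f aS (by simp) q) (f aW (by simp) q) (f am (by simp) q)
    (f bm (by simp) q) (f bE (by simp) q) (f bN (by simp) q)
  have hd' := hd
  simp only [List.nodup_cons, List.mem_cons, not_or, List.not_mem_nil, not_false_eq_true,
    and_true, List.nodup_nil] at hd'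
  obtain ⟨⟨a1, a2, a3, a4, a5, a6, a7⟩, ⟨b1, b2, b3, b4, b5, b6⟩, ⟨c1, c2, c3, c4, c5⟩,
    ⟨d1, d2, d3, d4⟩, ⟨e1, e2, e3⟩, ⟨f1, f2⟩, g1⟩ := hd'
  rw [hl]
  have h6 := R_lft (hexW x) κ hκ c j (ren e aW (ren s bN G)) q
  rw [h1, h2] at h6
  rw [h6]
  congr 1
  funext q
  unfold ren
  rw [if_pos (f aW (by simp) q)]
  rw [swap_lft, swap_lft]
  have hk : (fun b => Equiv.swap s bN (Equiv.swap e aW (κ b))) = κ' := by
    funext b
    by_cases hb : b = c
    · subst hb
      rw [h1, h3, Equiv.swap_apply_of_ne_of_ne (Ne.symm a1) b2, Equiv.swap_apply_left]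
    · by_cases hb' : b = j
      · subst hb'
        rw [h2, h4, Equiv.swap_apply_left, Equiv.swap_apply_of_ne_of_ne (Ne.symm b2) d4]
      · rw [h5 b hb hb', Equiv.swap_apply_of_ne_of_ne (fun e => hb' (hκ (e.trans h2.symm)))
          (hout aW (by simp) b), Equiv.swap_apply_of_ne_of_ne (fun e => hb (hκ (e.trans h1.symm)))
          (hout bN (by simp) b)]
  rw [if_pos]
  · congr 1
    exact lft_congr _ _ (fun b _ => congrFun hk b)
  · rw [lft_of_notMem]
    rintro ⟨b, hb⟩
    refine hout bN (by simp) b ?_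
    have h7 := congrArg (Equiv.swap e aW) hb
    beta_reduce at h7
    rwa [Equiv.swap_apply_self, Equiv.swap_apply_of_ne_of_ne (Ne.symm a7) (Ne.symm d4)] at h7

/-! ### fronts -/

variable {N : ℕ}

/-- The front: rows `i` end at the column `ka i` (right part) and `kb i` (left part). -/
def fr (N : ℕ) (ka kb : ℕ → ℤ) (o : Bool) (k j : ℤ) : NUF.St N → Lab
  | Sum.inl (i, false) => lW (ka (i : ℕ)) ((i : ℕ) : ℤ)
  | Sum.inl (i, true) => lE (kb (i : ℕ)) ((i : ℕ) : ℤ)
  | Sum.inr l => if l = 0 then (if o then lS k j else lN k j) else lX (l : ℕ)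

theorem fr_inj (ka kb : ℕ → ℤ) (o : Bool) (k j : ℤ) : Function.Injective (fr N ka kb o k j) := by
  intro a b h
  rcases a with ⟨i, _ | _⟩ | l <;> rcases b with ⟨i', _ | _⟩ | l' <;> simp only [fr] at h
  · rw [lW_inj] at h
    rw [Fin.ext (by exact_mod_cast h.2 : (i : ℕ) = (i' : ℕ))]
  · simp at h
  · cases o <;> split_ifs at h <;> simp at h
  · simp at h
  · rw [lE_inj] at h
    rw [Fin.ext (by exact_mod_cast h.2 : (i : ℕ) = (i' : ℕ))]
  · cases o <;> split_ifs at h <;> simp at h
  · cases o <;> split_ifs at h <;> simp at h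
  · cases o <;> split_ifs at h <;> simp at h
  · congr 1
    have hX : ∀ l l' : ℕ, lX l = lX l' → l = l' := by
      intro l l' h
      simp only [lX, Sum.inl.injEq, Prod.mk.injEq] at h
      omega
    by_cases c1 : l = 0
    · by_cases c2 : l' = 0
      · rw [c1, c2]
      · rw [if_pos c1, if_neg c2] at h
        cases o <;> simp at h
    · by_cases c2 : l' = 0
      · rw [if_neg c1, if_pos c2] at h
        cases o <;> simp at h
      · rw [if_neg c1, if_neg c2] at h
        exact Fin.ext (hX _ _ h)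

/-- the state on a front. -/
noncomputable def Fr (ka kb : ℕ → ℤ) (o : Bool) (k j : ℤ) (q : Pat (NUF.St N)) : Pat Lab :=
  lft (fr N ka kb o k j) (fr_inj ka kb o k j) q

/-- the auxiliary site. -/
abbrev cc : NUF.St N := Sum.inr 0

/-- the position of the auxiliary site does not matter if it is empty. -/
theorem Fr_move {ka kb ka' kb' : ℕ → ℤ} {o o' : Bool} {k j k' j' : ℤ} {q : Pat (NUF.St N)}
    (h : q cc = cc) (ha : ∀ i, i < N → ka i = ka' i) (hb : ∀ i, i < N → kb i = kb' i) :
    Fr ka kb o k j q = Fr ka' kb' o' k' j' q := by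
  apply lft_congr
  intro b hq
  rcases b with ⟨i, _ | _⟩ | l
  · simp only [fr, ha i i.2]
  · simp only [fr, hb i i.2]
  · simp only [fr]
    by_cases c : l = 0
    · subst c
      exact absurd h hq
    · rw [if_neg c, if_neg c]

theorem Fr_empty (ka kb : ℕ → ℤ) (o : Bool) (k j : ℤ) :
    Fr ka kb o k j (Pat.empty : Pat (NUF.St N)) = Pat.empty := by
  apply Pat.ext
  funext x
  show Fr ka kb o k j (Pat.empty : Pat (NUF.St N)) x = x
  unfold Fr
  by_cases hx : ∃ b, fr N ka kb o k j b = x
  · obtain ⟨b, rfl⟩ := hx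
    rw [lft_apply]
    rfl
  · exact lft_of_notMem _ _ _ hx

/-! ### the operators -/

/-- the vertices and edges of a cell of the left part (the column is processed from the top to the bottom). -/
noncomputable def lRho (x : K) (k i : ℤ) : Op Lab K :=
  Crv x (_root_.EXL.B k i) * Crv x (_root_.EXL.A k i) *
    (Co (lS k (i + 1)) (lN k i) * Co (lE (k - 1) i) (lW k i) * Co (rM k i) (lM k i))

/-- a column of the right part. -/
noncomputable def rCol (x : K) (N : ℕ) (k : ℤ) : Op Lab K :=
  ((List.range N).map (fun i : ℕ => Rho x k (i : ℤ))).prod * Co (lN k ((N : ℤ) - 1)) (lS k N)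

/-- a column of the left part. -/
noncomputable def lCol (x : K) (N : ℕ) (k : ℤ) : Op Lab K :=
  ((List.range N).reverse.map (fun i : ℕ => lRho x k (i : ℤ))).prod * Co (lS k 0) (lN k (-1))

/-- the right halves of the lines. -/
def Xr (i : Fin N) : NUF.St N := Sum.inl (i, false)

/-- the left halves of the lines. -/
def Xl (i : Fin N) : NUF.St N := Sum.inl (i, true)

theorem rho_right (x : K) (k : ℤ) (i : Fin N) (kb : ℕ → ℤ) (hkb : ∀ i, i < N → kb i ≠ k)
    (G : Pat Lab → K) (q : Pat (NUF.St N)) :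
    Rho x k ((i : ℕ) : ℤ) G (Fr (fun n => if n < (i : ℕ) then k else k + 1) kb false k
        (((i : ℕ) : ℤ) - 1) q) =
      R (hexW x) cc (Xr i) (fun q => G (Fr (fun n => if n < (i : ℕ) + 1 then k else k + 1) kb false k
        ((i : ℕ) : ℤ) q)) q := by
  set j : ℤ := ((i : ℕ) : ℤ) with hj
  have h2 : (Rho x k j : Op Lab K) = Cr x (lS k j) (lM k j) (lW k j) *
      Cr x (lE k j) (lN k j) (rM k j) * (Co (lN k (j - 1)) (lS k j) *
        Co (lW (k + 1) j) (lE k j) * Co (lM k j) (rM k j)) := by
    unfold Rho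
    rw [Crv_A, Crv_B]
  rw [h2]
  refine rho_gen x _ _ (c := cc) (j := Xr i) (s := lN k (j - 1)) (e := lW (k + 1) j)
    (bN := lN k j) (aW := lW k j) ?_ ?_ ?_ ?_ ?_ ?_ ?_ G q
  · simp [fr]
  · simp [fr, Xr, hj]
  · simp [fr]
  · simp [fr, Xr, hj]
  · intro b hb hb'
    rcases b with ⟨i', _ | _⟩ | l
    · have h3 : (i' : ℕ) ≠ (i : ℕ) := fun e => hb' (by rw [Xr, Fin.ext e])
      simp only [fr]
      congr 1
      by_cases c : (i' : ℕ) < (i : ℕ)
      · rw [if_pos c, if_pos (by omega)]
      · rw [if_neg c, if_neg (by omega)]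
    · rfl
    · have h3 : l ≠ 0 := fun e => hb (by rw [e])
      simp [fr, h3]
  · simp only [List.nodup_cons, List.mem_cons, not_or, List.not_mem_nil, not_false_eq_true,
      and_true, List.nodup_nil]
    refine ⟨⟨?_, ?_, ?_, ?_, ?_, ?_, ?_⟩, ⟨?_, ?_, ?_, ?_, ?_, ?_⟩, ⟨?_, ?_, ?_, ?_, ?_⟩,
      ⟨?_, ?_, ?_, ?_⟩, ⟨?_, ?_, ?_⟩, ⟨?_, ?_⟩, ?_⟩ <;> simp
  · intro y hy b
    simp only [List.mem_cons, List.not_mem_nil, or_false] at hy
    have h0 : ∀ i' : Fin N, ((i' : ℕ) : ℤ) = j → (i' : ℕ) = (i : ℕ) := by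
      intro i' h
      rw [hj] at h
      exact_mod_cast h
    rcases b with ⟨i', _ | _⟩ | l
    · rcases hy with rfl | rfl | rfl | rfl | rfl | rfl
      · simp [fr]
      · simp only [fr, Ne, lW_inj, not_and]
        intro h1 h2
        have h3 := h0 i' h2
        rw [if_neg (by omega)] at h1
        omega
      · simp [fr]
      · simp [fr]
      · simp [fr]
      · simp [fr]
    · rcases hy with rfl | rfl | rfl | rfl | rfl | rfl
      · simp [fr]
      · simp [fr]
      · simp [fr]
      · simp [fr]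
      · simp only [fr, Ne, lE_inj, not_and]
        intro h1
        exact absurd h1 (hkb i' i'.2)
      · simp [fr]
    · rcases hy with rfl | rfl | rfl | rfl | rfl | rfl <;> simp only [fr] <;> split_ifs <;> simp

theorem rho_left (x : K) (k : ℤ) (i : Fin N) (ka : ℕ → ℤ) (hka : ∀ i, i < N → ka i ≠ k)
    (G : Pat Lab → K) (q : Pat (NUF.St N)) :
    lRho x k ((i : ℕ) : ℤ) G (Fr ka (fun n => if n < (i : ℕ) + 1 then k - 1 else k) true k
        (((i : ℕ) : ℤ) + 1) q) =
      R (hexW x) cc (Xl i) (fun q => G (Fr ka (fun n => if n < (i : ℕ) then k - 1 else k) true k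
        ((i : ℕ) : ℤ) q)) q := by
  set j : ℤ := ((i : ℕ) : ℤ) with hj
  have h2 : (lRho x k j : Op Lab K) = Cr x (lN k j) (rM k j) (lE k j) *
      Cr x (lW k j) (lS k j) (lM k j) * (Co (lS k (j + 1)) (lN k j) *
        Co (lE (k - 1) j) (lW k j) * Co (rM k j) (lM k j)) := by
    unfold lRho
    rw [Crv_A, Crv_B, Cr_rot x (lE k j) (lN k j) (rM k j), Cr_rot x (lS k j) (lM k j) (lW k j),
      Cr_rot x (lM k j) (lW k j) (lS k j)]
  rw [h2]
  refine rho_gen x _ _ (c := cc) (j := Xl i) (s := lS k (j + 1)) (e := lE (k - 1) j)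
    (bN := lS k j) (aW := lE k j) ?_ ?_ ?_ ?_ ?_ ?_ ?_ G q
  · simp [fr]
  · simp [fr, Xl, hj]
  · simp [fr]
  · simp [fr, Xl, hj]
  · intro b hb hb'
    rcases b with ⟨i', _ | _⟩ | l
    · rfl
    · have h3 : (i' : ℕ) ≠ (i : ℕ) := fun e => hb' (by rw [Xl, Fin.ext e])
      simp only [fr]
      congr 1
      by_cases c : (i' : ℕ) < (i : ℕ)
      · rw [if_pos c, if_pos (by omega)]
      · rw [if_neg c, if_neg (by omega)]
    · have h3 : l ≠ 0 := fun e => hb (by rw [e])
      simp [fr, h3]
  · simp only [List.nodup_cons, List.mem_cons, not_or, List.not_mem_nil, not_false_eq_true,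
      and_true, List.nodup_nil]
    refine ⟨⟨?_, ?_, ?_, ?_, ?_, ?_, ?_⟩, ⟨?_, ?_, ?_, ?_, ?_, ?_⟩, ⟨?_, ?_, ?_, ?_, ?_⟩,
      ⟨?_, ?_, ?_, ?_⟩, ⟨?_, ?_, ?_⟩, ⟨?_, ?_⟩, ?_⟩ <;> simp
  · intro y hy b
    simp only [List.mem_cons, List.not_mem_nil, or_false] at hy
    have h0 : ∀ i' : Fin N, ((i' : ℕ) : ℤ) = j → (i' : ℕ) = (i : ℕ) := by
      intro i' h
      rw [hj] at h
      exact_mod_cast h
    rcases b with ⟨i', _ | _⟩ | l
    · rcases hy with rfl | rfl | rfl | rfl | rfl | rfl
      · simp [fr]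
      · simp [fr]
      · simp [fr]
      · simp [fr]
      · simp only [fr, Ne, lW_inj, not_and]
        intro h1
        exact absurd h1 (hka i' i'.2)
      · simp [fr]
    · rcases hy with rfl | rfl | rfl | rfl | rfl | rfl
      · simp [fr]
      · simp only [fr, Ne, lE_inj, not_and]
        intro h1 h2
        have h3 := h0 i' h2
        rw [if_pos (by omega)] at h1
        omega
      · simp [fr]
      · simp [fr]
      · simp [fr]
      · simp [fr]
    · rcases hy with rfl | rfl | rfl | rfl | rfl | rfl <;> simp only [fr] <;> split_ifs <;> simp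

/-! ### columns -/

theorem rows_right (x : K) (k : ℤ) (kb : ℕ → ℤ) (hkb : ∀ i, i < N → kb i ≠ k) (G : Pat Lab → K) :
    ∀ (n j : ℕ), j + n = N → ∀ q : Pat (NUF.St N),
    (((List.range N).drop j).map (fun i : ℕ => Rho x k (i : ℤ))).prod G
        (Fr (fun n => if n < j then k else k + 1) kb false k ((j : ℤ) - 1) q) =
      M (fun _ => hexW x) cc (((List.finRange N).drop j).map Xr)
        (fun q => G (Fr (fun n => if n < N then k else k + 1) kb false k ((N : ℤ) - 1) q)) q
  | 0, j, h, q => by
    have h1 : (List.finRange N).drop j = [] := by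
      apply List.drop_eq_nil_of_le
      rw [List.length_finRange]
      omega
    have h2 : (List.range N).drop j = [] := by
      apply List.drop_eq_nil_of_le
      rw [List.length_range]
      omega
    rw [h1, h2]
    have : j = N := by omega
    subst this
    rfl
  | n + 1, j, h, q => by
    have hj : j < N := by omega
    have h1 : (List.finRange N).drop j = ⟨j, hj⟩ :: (List.finRange N).drop (j + 1) := by
      rw [List.drop_eq_getElem_cons (by rw [List.length_finRange]; exact hj)]
      simp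
    have h2 : (List.range N).drop j = j :: (List.range N).drop (j + 1) := by
      rw [List.drop_eq_getElem_cons (by rw [List.length_range]; exact hj)]
      simp
    rw [h1, h2, List.map_cons, List.prod_cons, List.map_cons, M_cons, Module.End.mul_apply]
    have h3 := rho_right x k ⟨j, hj⟩ kb hkb
      ((((List.range N).drop (j + 1)).map (fun i : ℕ => Rho x k (i : ℤ))).prod G) q
    refine h3.trans ?_
    congr 1
    funext q'
    have h4 := rows_right x k kb hkb G n (j + 1) (by omega) q'
    have e : (((j + 1 : ℕ) : ℤ) - 1) = (j : ℤ) := by push_cast; ring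
    rw [e] at h4
    exact h4

theorem rows_left (x : K) (k : ℤ) (ka : ℕ → ℤ) (hka : ∀ i, i < N → ka i ≠ k) (G : Pat Lab → K)
    (j : ℕ) : j ≤ N → ∀ q : Pat (NUF.St N),
    ((List.range j).reverse.map (fun i : ℕ => lRho x k (i : ℤ))).prod G
        (Fr ka (fun n => if n < j then k - 1 else k) true k (j : ℤ) q) =
      M (fun _ => hexW x) cc ((((List.finRange N).take j).map Xl).reverse)
        (fun q => G (Fr ka (fun n => if n < 0 then k - 1 else k) true k 0 q)) q := by
  induction j with
  | zero => intro _ q; rfl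
  | succ j ih =>
    intro h q
    have hj : j < N := by omega
    have h1 : (List.finRange N).take (j + 1) = (List.finRange N).take j ++ [⟨j, hj⟩] := by
      rw [List.take_succ_eq_append_getElem (by rw [List.length_finRange]; exact hj)]
      simp
    have h2 : (((List.finRange N).take (j + 1)).map Xl).reverse =
        Xl ⟨j, hj⟩ :: (((List.finRange N).take j).map Xl).reverse := by
      rw [h1, List.map_append, List.reverse_append]
      rfl
    have h2' : (List.range (j + 1)).reverse = j :: (List.range j).reverse := by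
      rw [List.range_succ, List.reverse_append]
      rfl
    rw [h2, h2', List.map_cons, List.prod_cons, M_cons, Module.End.mul_apply]
    have ih' := ih (by omega)
    generalize ((List.range j).reverse.map (fun i : ℕ => lRho x k (i : ℤ))).prod G = P at ih' ⊢
    rw [← funext ih']
    have h3 := rho_left x k ⟨j, hj⟩ ka hka P q
    have hv : ((⟨j, hj⟩ : Fin N) : ℕ) = j := rfl
    rw [hv] at h3
    have e : ((j + 1 : ℕ) : ℤ) = (j : ℤ) + 1 := by push_cast; ring
    rw [e, h3]

theorem emp_congr {α : Type*} [DecidableEq α] {c : α} {F F' : Pat α → K}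
    (h : ∀ q : Pat α, q c = c → F q = F' q) : emp c F = emp c F' := by
  funext p
  unfold emp
  split_ifs with h1
  · exact h p h1
  · rfl

/-- a column of the right part. -/
theorem rCol_eq (x : K) (k : ℤ) (kb : ℕ → ℤ) (hkb : ∀ i, i < N → kb i ≠ k) (G : Pat Lab → K)
    {q : Pat (NUF.St N)} (hq : q cc = cc) :
    rCol x N k G (Fr (fun _ => k + 1) kb false 0 0 q) =
      NUF.colF (fun _ => hexW x) cc ((List.finRange N).map Xr)
        (fun q => G (Fr (fun _ => k) kb false 0 0 q)) q := by
  unfold rCol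
  rw [Module.End.mul_apply]
  have h0 : Fr (fun _ => k + 1) kb false 0 0 q =
      Fr (fun n => if n < 0 then k else k + 1) kb false k (((0 : ℕ) : ℤ) - 1) q :=
    Fr_move hq (fun i _ => by simp) (fun _ _ => rfl)
  rw [h0]
  have h1 := rows_right x k kb hkb (Co (lN k ((N : ℤ) - 1)) (lS k N) G) N 0 (by omega) q
  rw [List.drop_zero, List.drop_zero] at h1
  rw [h1]
  unfold NUF.colF
  have h2 : ∀ H : Pat (NUF.St N) → K, emp cc H q = H q := by
    intro H
    unfold emp
    rw [if_pos hq]
  rw [h2]
  congr 1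
  funext q'
  have f1 : Fr (fun n => if n < N then k else k + 1) kb false k ((N : ℤ) - 1) q' (lS k N) =
      lS k N := by
    apply lft_of_notMem
    rintro ⟨b, hb⟩
    rcases b with ⟨i', _ | _⟩ | l
    · simp [fr] at hb
    · simp [fr] at hb
    · simp only [fr] at hb
      split_ifs at hb <;> simp at hb
  have f2 : Fr (fun n => if n < N then k else k + 1) kb false k ((N : ℤ) - 1) q'
      (lN k ((N : ℤ) - 1)) = fr N (fun n => if n < N then k else k + 1) kb false k
        ((N : ℤ) - 1) (q' cc) := by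
    have e : lN k ((N : ℤ) - 1) = fr N (fun n => if n < N then k else k + 1) kb false k
        ((N : ℤ) - 1) cc := by simp [fr]
    rw [e]
    exact lft_apply _ _ _ _
  have f3 : lN k ((N : ℤ) - 1) = fr N (fun n => if n < N then k else k + 1) kb false k
        ((N : ℤ) - 1) cc := by simp [fr]
  rw [Co_apply]
  unfold emp
  by_cases c : q' cc = cc
  · rw [if_pos c, if_pos ⟨by rw [f2, c, ← f3], f1⟩]
    congr 1
    exact Fr_move c (fun i hi => by simp [hi]) (fun _ _ => rfl)
  · rw [if_neg c, if_neg, if_pos (Or.inr (Or.inl f1))]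
    rintro ⟨h3, -⟩
    rw [f2] at h3
    exact c (fr_inj _ _ _ _ _ (h3.trans f3))

/-- a column of the left part. -/
theorem lCol_eq (x : K) (k : ℤ) (ka : ℕ → ℤ) (hka : ∀ i, i < N → ka i ≠ k) (G : Pat Lab → K)
    {q : Pat (NUF.St N)} (hq : q cc = cc) :
    lCol x N k G (Fr ka (fun _ => k - 1) false 0 0 q) =
      NUF.colF (fun _ => hexW x) cc (((List.finRange N).map Xl).reverse)
        (fun q => G (Fr ka (fun _ => k) false 0 0 q)) q := by
  unfold lCol
  rw [Module.End.mul_apply]
  have h0 : Fr ka (fun _ => k - 1) false 0 0 q =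
      Fr ka (fun n => if n < N then k - 1 else k) true k (N : ℤ) q :=
    Fr_move hq (fun _ _ => rfl) (fun i hi => by simp [hi])
  rw [h0]
  have h1 := rows_left x k ka hka (Co (lS k 0) (lN k (-1)) G) N le_rfl q
  have h3 : (List.finRange N).take N = List.finRange N := by
    apply List.take_of_length_le
    rw [List.length_finRange]
  rw [h3] at h1
  rw [h1]
  unfold NUF.colF
  have h2 : ∀ H : Pat (NUF.St N) → K, emp cc H q = H q := by
    intro H
    unfold emp
    rw [if_pos hq]
  rw [h2]
  congr 1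
  funext q'
  have f1 : Fr ka (fun n => if n < 0 then k - 1 else k) true k 0 q' (lN k (-1)) =
      lN k (-1) := by
    apply lft_of_notMem
    rintro ⟨b, hb⟩
    rcases b with ⟨i', _ | _⟩ | l
    · simp [fr] at hb
    · simp [fr] at hb
    · simp only [fr] at hb
      split_ifs at hb <;> simp at hb
  have f3 : lS k 0 = fr N ka (fun n => if n < 0 then k - 1 else k) true k 0 cc := by simp [fr]
  have f2 : Fr ka (fun n => if n < 0 then k - 1 else k) true k 0 q' (lS k 0) =
      fr N ka (fun n => if n < 0 then k - 1 else k) true k 0 (q' cc) := by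
    rw [f3]
    exact lft_apply _ _ _ _
  rw [Co_apply]
  unfold emp
  by_cases c : q' cc = cc
  · rw [if_pos c, if_pos ⟨by rw [f2, c, ← f3], f1⟩]
    congr 1
    exact Fr_move c (fun _ _ => rfl) (fun i hi => by simp)
  · rw [if_neg c, if_neg, if_pos (Or.inr (Or.inl f1))]
    rintro ⟨h3, -⟩
    rw [f2] at h3
    exact c (fr_inj _ _ _ _ _ (h3.trans f3))

/-! ### all columns -/

/-- the right part: the columns `m - 1, .., 0`. -/
noncomputable def rTot (x : K) (N : ℕ) : ℕ → Op Lab K
  | 0 => 1
  | m + 1 => rCol x N m * rTot x N m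

/-- the left part: the columns `-m, .., -1`. -/
noncomputable def lTot (x : K) (N : ℕ) : ℕ → Op Lab K
  | 0 => 1
  | m + 1 => lCol x N (-(m : ℤ) - 1) * lTot x N m

theorem colF_congr {α : Type*} [DecidableEq α] {w : α → Wt K} {c : α} {X : List α}
    {F F' : Pat α → K} (h : ∀ q : Pat α, q c = c → F q = F' q) :
    NUF.colF w c X F = NUF.colF w c X F' := by
  unfold NUF.colF
  rw [emp_congr h]

theorem iter_congr {α : Type*} [DecidableEq α] {w : α → Wt K} {c : α} {X : List α}
    {F F' : Pat α → K} (h : ∀ q : Pat α, q c = c → F q = F' q) (m : ℕ) :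
    ∀ q : Pat α, q c = c → (NUF.colF w c X)^[m] F q = (NUF.colF w c X)^[m] F' q := by
  induction m with
  | zero => exact h
  | succ m ih =>
    intro q _
    rw [Function.iterate_succ_apply', Function.iterate_succ_apply', colF_congr ih]

theorem rTot_eq (x : K) (m : ℕ) (kb : ℕ → ℤ) (hkb : ∀ i, kb i < 0) (G : Pat Lab → K) :
    ∀ q : Pat (NUF.St N), q cc = cc → rTot x N m G (Fr (fun _ => (m : ℤ)) kb false 0 0 q) =
      (NUF.colF (fun _ => hexW x) cc ((List.finRange N).map Xr))^[m]
        (fun q => G (Fr (fun _ => 0) kb false 0 0 q)) q := by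
  induction m with
  | zero => intro q _; rfl
  | succ m ih =>
    intro q hq
    have e : (fun _ : ℕ => ((m + 1 : ℕ) : ℤ)) = fun _ => (m : ℤ) + 1 := by
      funext _
      push_cast
      rfl
    have e2 : rTot x N (m + 1) = rCol x N m * rTot x N m := rfl
    rw [e, e2, Module.End.mul_apply, rCol_eq x (m : ℤ) kb (fun i _ => by
      have := hkb i
      omega) _ hq, Function.iterate_succ_apply']
    exact congrFun (colF_congr ih) q

theorem lTot_eq (x : K) (m : ℕ) (G : Pat Lab → K) :
    ∀ q : Pat (NUF.St N), q cc = cc →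
      lTot x N m G (Fr (fun _ => 0) (fun _ => -(m : ℤ) - 1) false 0 0 q) =
      (NUF.colF (fun _ => hexW x) cc (((List.finRange N).map Xl).reverse))^[m]
        (fun q => G (Fr (fun _ => 0) (fun _ => -1) false 0 0 q)) q := by
  induction m with
  | zero => intro q _; rfl
  | succ m ih =>
    intro q hq
    have e : (fun _ : ℕ => -((m + 1 : ℕ) : ℤ) - 1) = fun _ => (-(m : ℤ) - 1) - 1 := by
      funext _
      push_cast
      ring
    have e2 : lTot x N (m + 1) = lCol x N (-(m : ℤ) - 1) * lTot x N m := rfl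
    rw [e, e2, Module.End.mul_apply, lCol_eq x (-(m : ℤ) - 1) (fun _ => 0) (fun i _ => by omega) _
      hq, Function.iterate_succ_apply']
    exact congrFun (colF_congr ih) q

/-- **The network in column order.** -/
theorem tot_eq (x : K) (N m : ℕ) (G : Pat Lab → K) :
    (rTot x N m * lTot x N m) G Pat.empty =
      (NUF.colF (fun _ => hexW x) cc ((List.finRange N).map Xr))^[m]
        ((NUF.colF (fun _ => hexW x) cc (((List.finRange N).map Xl).reverse))^[m]
          (fun q => G (Fr (fun _ => 0) (fun _ => -1) false 0 0 q))) Pat.empty := by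
  have e0 : (Pat.empty : Pat (NUF.St N)) cc = cc := rfl
  rw [Module.End.mul_apply, ← Fr_empty (N := N) (fun _ => (m : ℤ)) (fun _ => -(m : ℤ) - 1) false 0 0,
    rTot_eq x m (fun _ => -(m : ℤ) - 1) (fun i => by omega) _ _ e0]
  exact iter_congr (lTot_eq x m G) m _ e0

end Pool.Agent.NUN
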