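import Pool.Agent.NUN.NF

/-!
# Nested polygons around a face: removal of a vertex
-/

set_option autoImplicit false

namespace Pool.Agent.NUN

open HexObs HexObs.LP Finset

variable {K : Type*} [CommRing K]

private lemma inn_erase (Ω : Finset Pt) (v : Pt) (E : Finset (Pt × Pt)) :
    inn (Ω.erase v) E = (inn Ω E).erase v := by
  ext w
  simp only [mem_inn, Finset.mem_erase]
  tauto

private lemma pf_erase (f : Pt) (Ω : Finset Pt) (v : Pt) :
    pf f (Ω.erase v) = (pf f Ω).filter (fun E => v ∉ VE E) := by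
  classical
  ext E
  rw [Finset.mem_filter, mem_pf, mem_pf]
  constructor
  · rintro ⟨h1, h2, h3⟩
    exact ⟨⟨h1, fun w hw => Finset.mem_of_mem_erase (h2 hw), h3⟩,
      fun hv => (Finset.mem_erase.1 (h2 hv)).1 rfl⟩
  · rintro ⟨⟨h1, h2, h3⟩, h4⟩
    refine ⟨h1, fun w hw => Finset.mem_erase.2 ⟨?_, h2 hw⟩, h3⟩
    rintro rfl
    exact h4 hw

open Classical in
/-- the polygons disjoint from `E` and inside `E`. -/
private lemma pf_sdiff_in {f : Pt} {Ω : Finset Pt} {E : Finset (Pt × Pt)} :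
    (pf f (Ω \ VE E)).filter (fun E' => ∀ w ∈ VE E', Ins E w) = pf f (inn Ω E) := by
  ext E'
  rw [Finset.mem_filter, mem_pf, mem_pf]
  constructor
  · rintro ⟨⟨h1, h2, h3⟩, h4⟩
    exact ⟨h1, fun w hw => mem_inn.2 ⟨(Finset.mem_sdiff.1 (h2 hw)).1, h4 w hw⟩, h3⟩
  · rintro ⟨h1, h2, h3⟩
    refine ⟨⟨h1, fun w hw => Finset.mem_sdiff.2 ⟨(mem_inn.1 (h2 hw)).1, (mem_inn.1 (h2 hw)).2.2.1⟩, h3⟩,
      fun w hw => (mem_inn.1 (h2 hw)).2⟩

private lemma inn_sdiff_in {f : Pt} {Ω : Finset Pt} {E E' : Finset (Pt × Pt)} (hE : E ∈ pf f Ω)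
    (hE' : E' ∈ pf f (inn Ω E)) : inn (Ω \ VE E) E' = inn (inn Ω E) E' := by
  obtain ⟨h1, h2, h3⟩ := mem_pf.1 hE
  obtain ⟨h4, h5, h6⟩ := mem_pf.1 hE'
  ext w
  simp only [mem_inn, Finset.mem_sdiff]
  constructor
  · rintro ⟨⟨a, b⟩, c⟩
    exact ⟨⟨a, nested h1 h4 (fun w hw => (mem_inn.1 (h5 hw)).2) c⟩, c⟩
  · rintro ⟨⟨a, b⟩, c⟩
    exact ⟨⟨a, b.2.1⟩, c⟩

private lemma inn_sdiff (Ω : Finset Pt) (E E' : Finset (Pt × Pt)) :
    inn (Ω \ VE E) E' = inn Ω E' \ VE E := by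
  ext w
  simp only [mem_inn, Finset.mem_sdiff]
  tauto

private lemma not_both {E E' : Finset (Pt × Pt)} (hE : IsPoly E) (hE' : IsPoly E')
    (h1 : ∀ w ∈ VE E', Ins E w) (h2 : ∀ w ∈ VE E, Ins E' w) : False := by
  obtain ⟨w, hw⟩ := VE_nonempty hE'
  exact (nested hE' hE h2 (h1 w hw)).2.1 hw

open Classical in
/-- the pairs of disjoint polygons, the first one through `v` and inside the second one. -/
private lemma pairs {f : Pt} (hf : Fc f) {Ω : Finset Pt} {v : Pt} (E E' : Finset (Pt × Pt)) :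
    (E ∈ (pf f Ω).filter (fun E => v ∈ VE E) ∧
      E' ∈ (pf f (Ω \ VE E)).filter (fun E' => ¬ ∀ w ∈ VE E', Ins E w)) ↔
    (E ∈ (pf f (inn Ω E')).filter (fun E => v ∈ VE E) ∧
      E' ∈ (pf f Ω).filter (fun E' => v ∉ VE E')) := by
  simp only [Finset.mem_filter, mem_pf]
  constructor
  · rintro ⟨⟨⟨h1, h2, h3⟩, hv⟩, ⟨h4, h5, h6⟩, h7⟩
    have hdis : ∀ w ∈ VE E, w ∉ VE E' := fun w hw hw' => (Finset.mem_sdiff.1 (h5 hw')).2 hw
    have hin : ∀ w ∈ VE E, Ins E' w := (nested_or h1 h4 hdis hf h3 h6).resolve_left h7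
    exact ⟨⟨⟨h1, fun w hw => mem_inn.2 ⟨h2 hw, hin w hw⟩, h3⟩, hv⟩,
      ⟨h4, fun w hw => (Finset.mem_sdiff.1 (h5 hw)).1, h6⟩, hdis v hv⟩
  · rintro ⟨⟨⟨h1, h2, h3⟩, hv⟩, ⟨h4, h5, h6⟩, h7⟩
    have hin : ∀ w ∈ VE E, Ins E' w := fun w hw => (mem_inn.1 (h2 hw)).2
    refine ⟨⟨⟨h1, fun w hw => (mem_inn.1 (h2 hw)).1, h3⟩, hv⟩,
      ⟨h4, fun w hw => Finset.mem_sdiff.2 ⟨h5 hw, fun hw' => (hin w hw').2.1 hw⟩, h6⟩, ?_⟩
    intro h8
    exact not_both h1 h4 h8 hin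

/-- **Removal of a vertex** (true for `v ∉ Ω` too). -/
theorem NF_vertex' (x y : K) {f : Pt} (hf : Fc f) (Ω : Finset Pt) (v : Pt) :
    NF x y f Ω = NF x y f (Ω.erase v) +
      ∑ E ∈ (pf f Ω).filter (fun E => v ∈ VE E), y * x ^ E.card * NF x y f (Ω \ VE E) := by
  classical
  suffices H : ∀ n : ℕ, ∀ Ω : Finset Pt, Ω.card < n →
      NF x y f Ω = NF x y f (Ω.erase v) +
        ∑ E ∈ (pf f Ω).filter (fun E => v ∈ VE E), y * x ^ E.card * NF x y f (Ω \ VE E) from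
    H _ Ω (Nat.lt_succ_self _)
  intro n
  induction n with
  | zero => intro Ω h; exact absurd h (Nat.not_lt_zero _)
  | succ n ih =>
    intro Ω hn
    -- right-hand side
    have hR : ∀ E ∈ (pf f Ω).filter (fun E => v ∈ VE E), y * x ^ E.card * NF x y f (Ω \ VE E) =
        y * x ^ E.card * NF x y f (inn Ω E) +
          ∑ E' ∈ (pf f (Ω \ VE E)).filter (fun E' => ¬ ∀ w ∈ VE E', Ins E w),
            (y * x ^ E.card) * ((y * x ^ E'.card) * NF x y f (inn Ω E' \ VE E)) := by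
      intro E hE
      have hE1 := (Finset.mem_filter.1 hE).1
      have e1 : ∑ E' ∈ (pf f (Ω \ VE E)).filter (fun E' => ∀ w ∈ VE E', Ins E w),
          y * x ^ E'.card * NF x y f (inn (Ω \ VE E) E') =
          ∑ E' ∈ pf f (inn Ω E), y * x ^ E'.card * NF x y f (inn (inn Ω E) E') := by
        rw [pf_sdiff_in]
        exact Finset.sum_congr rfl (fun E' hE' => by rw [inn_sdiff_in hE1 hE'])
      have e2 : ∑ E' ∈ (pf f (Ω \ VE E)).filter (fun E' => ¬ ∀ w ∈ VE E', Ins E w),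
          y * x ^ E'.card * NF x y f (inn (Ω \ VE E) E') =
          ∑ E' ∈ (pf f (Ω \ VE E)).filter (fun E' => ¬ ∀ w ∈ VE E', Ins E w),
            (y * x ^ E'.card) * NF x y f (inn Ω E' \ VE E) :=
        Finset.sum_congr rfl (fun E' _ => by rw [inn_sdiff Ω E E'])
      rw [NF_eq x y f (Ω \ VE E), ← Finset.sum_filter_add_sum_filter_not _ (fun E' => ∀ w ∈ VE E', Ins E w),
        e1, e2, NF_eq x y f (inn Ω E), ← Finset.mul_sum]
      ring
    -- left-hand side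
    have hL : ∀ E' ∈ (pf f Ω).filter (fun E' => v ∉ VE E'), y * x ^ E'.card * NF x y f (inn Ω E') =
        y * x ^ E'.card * NF x y f (inn (Ω.erase v) E') +
          ∑ E ∈ (pf f (inn Ω E')).filter (fun E => v ∈ VE E),
            (y * x ^ E.card) * ((y * x ^ E'.card) * NF x y f (inn Ω E' \ VE E)) := by
      intro E' hE'
      have h1 := pf_inn_card (Finset.mem_filter.1 hE').1
      rw [ih (inn Ω E') (by omega), inn_erase, mul_add, Finset.mul_sum]
      congr 1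
      exact Finset.sum_congr rfl (fun E _ => by ring)
    rw [NF_eq x y f Ω, NF_eq x y f (Ω.erase v), pf_erase,
      ← Finset.sum_filter_add_sum_filter_not (pf f Ω) (fun E => v ∈ VE E), Finset.sum_congr rfl hL,
      Finset.sum_congr rfl hR, Finset.sum_add_distrib, Finset.sum_add_distrib,
      Finset.sum_comm' (fun E E' => pairs hf E E')]
    ring

/-- **Removal of a vertex.** -/
theorem NF_vertex (x y : K) {f : Pt} (hf : Fc f) (Ω : Finset Pt) {v : Pt} (_hv : v ∈ Ω) :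
    NF x y f Ω = NF x y f (Ω.erase v) +
      ∑ E ∈ (pf f Ω).filter (fun E => v ∈ VE E), y * x ^ E.card * NF x y f (Ω \ VE E) :=
  NF_vertex' x y hf Ω v

end Pool.Agent.NUN
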