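import Pool.Agent.NUN.Sort
import Pool.Agent.NUN.Front
import Pool.Agent.NUN.NFV
import Pool.Agent.NUN.F3d
import Pool.Agent.NUG.ZVun
import Pool.Agent.NUF.PCan

/-!
# The lattice meaning of the partition function of the strip (chain F of board NUL, assembly)

`ZV n' z0 L1 L2` = the limit of the partition functions of the nested polygons around the face with `|L1|` rows
below it and `|L2|` rows above it, each polygon with the weight `n' * xc ^ length`.
-/

set_option autoImplicit false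

namespace Pool.Agent.NUN

open Pool.Agent.NUF Pool.Agent.NUF.LPat Pool.Agent.EXL.Net HexObs HexObs.LP
open Filter Topology

/-! ### the labels -/

/-- the labels mod 2 of the face `f`. -/
noncomputable def DF (n' : ℂ) (f : Pt) : Lb (ZMod 2) ℂ where
  nu := nu2 n'
  even := nu2_neg n'
  lab h := ((cr f h : ℤ) : ZMod 2)
  anti h := by
    rw [w_cr_rv]
    push_cast
    rfl

theorem lE_DF (n' : ℂ) (f : Pt) (E : Finset (Pt × Pt)) : (DF n' f).lE E = ((Nw E f : ℤ) : ZMod 2) := by
  unfold Lb.lE Nw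
  push_cast
  rfl

theorem nu_poly (n' : ℂ) {f : Pt} (hf : Fc f) {E : Finset (Pt × Pt)} (hE : IsPoly E) :
    (DF n' f).nu ((DF n' f).lE E) = if Nw E f ≠ 0 then n' else 0 := by
  rw [lE_DF]
  show nu2 n' _ = _
  unfold nu2
  rcases Nw_cases hE hf with h | h
  · rw [h]
    simp
  · have h2 : Nw E f ≠ 0 := by
      rw [h]
      rcases sg_cases E with h3 | h3 <;> rw [h3] <;> decide
    rw [if_pos h2, if_neg]
    rw [h]
    rcases sg_cases E with h3 | h3 <;> rw [h3] <;> decide

theorem NF_nil {K : Type*} [CommRing K] (x y : K) (f : Pt) : NF x y f ∅ = 1 := by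
  rw [NF_eq]
  have h : pf f ∅ = ∅ := by
    rw [Finset.eq_empty_iff_forall_notMem]
    intro E hE
    obtain ⟨h1, h2, -⟩ := mem_pf.1 hE
    obtain ⟨v, hv⟩ := VE_nonempty h1
    exact absurd (h2 hv) (Finset.notMem_empty v)
  rw [h, Finset.sum_empty, add_zero]

/-- **the nested polygons satisfy the recursion of the loop gas.** -/
theorem gas_NF (n' : ℂ) {f : Pt} (hf : Fc f) (x : ℂ) :
    (DF n' f).Gas x (fun A => NF x (n' / 2) f A) where
  emp := NF_nil x (n' / 2) f
  step A v _ hv := by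
    classical
    have h1 := NF_vertex x (n' / 2) hf A hv
    rw [h1, mul_add]
    congr 1
    have h2 : (polys A).filter (fun E => v ∈ VE E ∧ Nw E f ≠ 0) =
        (pf f A).filter (fun E => v ∈ VE E) := by
      ext E
      rw [Finset.mem_filter, Finset.mem_filter, mem_pf, mem_polys]
      tauto
    rw [Finset.mul_sum, ← h2, ← Finset.filter_filter, Finset.sum_filter (fun E => Nw E f ≠ 0)]
    refine Finset.sum_congr rfl fun E hE => ?_
    rw [nu_poly n' hf (mem_polys.1 (Finset.mem_filter.1 hE).1).1]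
    split_ifs
    · ring
    · ring

/-! ### from the labelled to the unlabelled network -/

/-- the unlabelled operator of a factor. -/
noncomputable def op0 {K : Type*} [CommRing K] (x : K) : At → Op Lab K
  | At.v p => Crv x p
  | At.c h => CoS (ed h)

section unl

variable {Γ : Type*} {K : Type} [AddCommGroup Γ] [CommRing K] (D : Lb Γ K)

theorem op_ofP (h0 : D.nu 0 = 0) (x : K) (a : At) (ha : ∀ h, a = At.c h → D.lab h = 0 ∧ h.2 ≠ 0)
    (F : LPat Γ Lab → K) (p : EXL.Pat Lab) :
    D.op x a F (ofP Γ p) = op0 x a (fun q => F (ofP Γ q)) p := by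
  cases a with
  | v w =>
    show lCrv Γ x w F (ofP Γ p) = Crv x w (fun q => F (ofP Γ q)) p
    unfold lCrv Crv
    exact lCr_ofP x _ _ _ F p
  | c h =>
    obtain ⟨h1, h2⟩ := ha h rfl
    show D.cS (ed h) F (ofP Γ p) = CoS (ed h) (fun q => F (ofP Γ q)) p
    rw [D.cS_ed, h1, CoS_ed]
    refine lCo_ofP h0 ?_ F p
    intro e
    have e1 : h.2 = -h.2 := congrArg Prod.snd (Sum.inl_injective e)
    apply h2
    have e2 := congrArg Prod.fst e1
    have e3 := congrArg Prod.snd e1
    simp only [Prod.fst_neg, Prod.snd_neg] at e2 e3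
    ext
    · show h.2.1 = 0
      omega
    · show h.2.2 = 0
      omega

theorem prod_ofP (h0 : D.nu 0 = 0) (x : K) (l : List At)
    (hl : ∀ h, At.c h ∈ l → D.lab h = 0 ∧ h.2 ≠ 0) (F : LPat Γ Lab → K) (p : EXL.Pat Lab) :
    (l.map (D.op x)).prod F (ofP Γ p) = (l.map (op0 x)).prod (fun q => F (ofP Γ q)) p := by
  induction l generalizing p with
  | nil => rfl
  | cons a l ih =>
    rw [List.map_cons, List.prod_cons, List.map_cons, List.prod_cons, Module.End.mul_apply,
      Module.End.mul_apply, op_ofP D h0 x a (fun h e => hl h (by rw [e]; exact List.mem_cons_self))]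
    exact congrFun (congrArg (op0 x a)
      (funext (ih (fun h hh => hl h (List.mem_cons_of_mem _ hh))))) p

end unl

section cols

variable {K : Type*} [CommRing K]

theorem op0_c (x : K) (h : Pt × Pt) {a b : Lab} (e : ed h = s(a, b)) :
    (op0 x (At.c h) : Op Lab K) = Co a b := by
  show CoS (ed h) = _
  rw [e]
  rfl

theorem ed_up (k i : ℤ) : ed (_root_.EXL.B k i, (0, 1)) = s(lS k (i + 1), lN k i) := by
  unfold ed lN lS rv
  rw [Sym2.eq_swap]
  simp only [_root_.EXL.B_up]
  rfl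

theorem ed_left (k i : ℤ) : ed (_root_.EXL.B k i, (-1, 0)) = s(rM k i, lM k i) := by
  unfold ed lM rM rv
  simp only [_root_.EXL.B_left]
  rfl

theorem ed_W' (k i : ℤ) : ed (_root_.EXL.A k i, (-1, 1)) = s(lE (k - 1) i, lW k i) := by
  unfold ed lW EXL.Net.lE rv
  rw [Sym2.eq_swap]
  simp only [_root_.EXL.A_left]
  rfl

theorem prod_rcell (x : K) (k i : ℤ) : ((rcell k i).map (op0 x)).prod = Rho x k i := by
  unfold rcell Rho
  rw [List.map_cons, List.map_cons, List.map_cons, List.map_cons, List.map_cons, List.map_nil,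
    List.prod_cons, List.prod_cons, List.prod_cons, List.prod_cons, List.prod_cons, List.prod_nil,
    op0_c x _ (Tot.ed_S k i), op0_c x _ (Tot.ed_W k i), op0_c x _ (Tot.ed_M k i), mul_one]
  simp only [mul_assoc]
  rfl

theorem prod_lcell (x : K) (k i : ℤ) : ((lcell k i).map (op0 x)).prod = lRho x k i := by
  unfold lcell lRho
  rw [List.map_cons, List.map_cons, List.map_cons, List.map_cons, List.map_cons, List.map_nil,
    List.prod_cons, List.prod_cons, List.prod_cons, List.prod_cons, List.prod_cons, List.prod_nil,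
    op0_c x _ (ed_up k i), op0_c x _ (ed_W' k i), op0_c x _ (ed_left k i), mul_one]
  simp only [mul_assoc]
  rfl

theorem prod_rcol (x : K) (N : ℕ) (k : ℤ) : ((rcol N k).map (op0 x)).prod = rCol x N k := by
  unfold rcol rCol
  rw [List.map_append, List.prod_append, Tot.prod_flat]
  simp only [prod_rcell, List.map_cons, List.map_nil, List.prod_cons, List.prod_nil, mul_one]
  rw [op0_c x _ (Tot.ed_S k N)]

theorem prod_lcol (x : K) (N : ℕ) (k : ℤ) : ((lcol N k).map (op0 x)).prod = lCol x N k := by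
  unfold lcol lCol
  rw [List.map_append, List.prod_append, Tot.prod_flat]
  simp only [prod_lcell, List.map_cons, List.map_nil, List.prod_cons, List.prod_nil, mul_one]
  rw [op0_c x _ (Tot.ed_S k 0), Co_symm]
  rfl

theorem prod_rtot (x : K) (N m : ℕ) : ((rtot N m).map (op0 x)).prod = rTot x N m := by
  induction m with
  | zero => rfl
  | succ m ih =>
    show ((rcol N m ++ rtot N m).map (op0 x)).prod = rCol x N m * rTot x N m
    rw [List.map_append, List.prod_append, ih, prod_rcol]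

theorem prod_ltot (x : K) (N m : ℕ) : ((ltot N m).map (op0 x)).prod = lTot x N m := by
  induction m with
  | zero => rfl
  | succ m ih =>
    show ((lcol N (-(m : ℤ) - 1) ++ ltot N m).map (op0 x)).prod =
      lCol x N (-(m : ℤ) - 1) * lTot x N m
    rw [List.map_append, List.prod_append, ih, prod_lcol]

end cols

/-! ### the face -/

/-- the face with `r` rows below it. -/
def fc (r : ℕ) : Pt := ((r : ℤ) - 1, (r : ℤ) + 1)

theorem Fc_fc (r : ℕ) : Fc (fc r) := by
  unfold Fc cl fc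
  have : ((r : ℤ) - 1 - ((r : ℤ) + 1) : ℤ) = -2 := by ring
  simp only
  rw [this]
  decide

theorem cr_A (r : ℕ) (k i : ℤ) :
    cr (fc r) (_root_.EXL.A k i, (-1, 1)) = if k = 0 ∧ i < r then -1 else 0 := by
  unfold cr
  rw [if_neg (by
    rintro ⟨h, -⟩
    have := congrArg Prod.fst h
    simp at this)]
  have h : (((_root_.EXL.A k i, ((-1, 1) : Pt)) : Pt × Pt).2 = (-1, 1) ∧
      nn ((_root_.EXL.A k i, ((-1, 1) : Pt)) : Pt × Pt).1 = nn (fc r) + 1 ∧
      lv ((_root_.EXL.A k i, ((-1, 1) : Pt)) : Pt × Pt).1 < lv (fc r)) ↔ (k = 0 ∧ i < r) := by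
    unfold nn lv fc _root_.EXL.A
    simp only [true_and]
    constructor
    · rintro ⟨h1, h2⟩
      omega
    · rintro ⟨h1, h2⟩
      omega
  by_cases c : k = 0 ∧ i < r
  · rw [if_pos c, if_pos (h.2 c)]
  · rw [if_neg c, if_neg (fun h' => c (h.1 h'))]

theorem cr_o (f : Pt) {h : Pt × Pt} (h1 : h.2 ≠ (1, -1)) (h2 : h.2 ≠ (-1, 1)) : cr f h = 0 := by
  unfold cr
  rw [if_neg (fun h => h1 h.1), if_neg (fun h => h2 h.1)]

/-- the edges that do not cross the line have the label 0. -/
theorem lab_tot (n' : ℂ) (r N m : ℕ) : ∀ h, At.c h ∈ rtot N m ++ ltot N m →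
    (DF n' (fc r)).lab h = 0 ∧ h.2 ≠ 0 := by
  intro h hh
  have a1 : ((0, -1) : Pt) ≠ (1, -1) ∧ ((0, -1) : Pt) ≠ (-1, 1) ∧ ((0, -1) : Pt) ≠ 0 := by decide
  have a2 : ((1, 0) : Pt) ≠ (1, -1) ∧ ((1, 0) : Pt) ≠ (-1, 1) ∧ ((1, 0) : Pt) ≠ 0 := by decide
  have a3 : ((0, 1) : Pt) ≠ (1, -1) ∧ ((0, 1) : Pt) ≠ (-1, 1) ∧ ((0, 1) : Pt) ≠ 0 := by decide
  have a4 : ((-1, 0) : Pt) ≠ (1, -1) ∧ ((-1, 0) : Pt) ≠ (-1, 1) ∧ ((-1, 0) : Pt) ≠ 0 := by decide
  have a5 : ((-1, 1) : Pt) ≠ 0 := by decide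
  have key : cr (fc r) h = 0 ∧ h.2 ≠ 0 := by
    rw [List.mem_append, mem_rtot, mem_ltot] at hh
    rcases hh with ⟨k, -, hh⟩ | ⟨k, -, hh⟩
    · rw [mem_rcol] at hh
      rcases hh with ⟨i, -, hh⟩ | hh
      · rcases hh with hh | hh | hh | hh | hh
        · exact absurd hh (by simp)
        · exact absurd hh (by simp)
        · obtain rfl := At.c.inj hh
          exact ⟨cr_o _ a1.1 a1.2.1, a1.2.2⟩
        · obtain rfl := At.c.inj hh
          refine ⟨?_, a5⟩
          rw [cr_A, if_neg (by omega)]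
        · obtain rfl := At.c.inj hh
          exact ⟨cr_o _ a2.1 a2.2.1, a2.2.2⟩
      · obtain rfl := At.c.inj hh
        exact ⟨cr_o _ a1.1 a1.2.1, a1.2.2⟩
    · rw [mem_lcol] at hh
      rcases hh with ⟨i, -, hh⟩ | hh
      · rcases hh with hh | hh | hh | hh | hh
        · exact absurd hh (by simp)
        · exact absurd hh (by simp)
        · obtain rfl := At.c.inj hh
          exact ⟨cr_o _ a3.1 a3.2.1, a3.2.2⟩
        · obtain rfl := At.c.inj hh
          refine ⟨?_, a5⟩
          rw [cr_A, if_neg (by omega)]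
        · obtain rfl := At.c.inj hh
          exact ⟨cr_o _ a4.1 a4.2.1, a4.2.2⟩
      · obtain rfl := At.c.inj hh
        exact ⟨cr_o _ a1.1 a1.2.1, a1.2.2⟩
  refine ⟨?_, key.2⟩
  show ((cr (fc r) h : ℤ) : ZMod 2) = 0
  rw [key.1]
  rfl

/-! ### the gluing -/

/-- the lines below the face. -/
def La (N r : ℕ) : List (NUF.St N × NUF.St N) := ((List.finRange N).take r).map lk

/-- the lines above the face. -/
def Lb' (N r : ℕ) : List (NUF.St N × NUF.St N) := ((List.finRange N).drop r).map lk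

theorem La_Lb (N r : ℕ) : La N r ++ Lb' N r = (List.finRange N).map lk := by
  unfold La Lb'
  rw [← List.map_append, List.take_append_drop]

theorem mem_take_fin {N r : ℕ} {i : Fin N} : i ∈ (List.finRange N).take r ↔ (i : ℕ) < r := by
  rw [List.mem_take_iff_getElem]
  constructor
  · rintro ⟨j, hj, rfl⟩
    rw [List.getElem_finRange]
    simp only [Fin.val_cast]
    omega
  · intro h
    refine ⟨i, ?_, ?_⟩
    · rw [List.length_finRange]
      omega
    · rw [List.getElem_finRange]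
      rfl

theorem chi_La {N r : ℕ} (i : Fin N) :
    chi (La N r) (lk i).2 - chi (La N r) (lk i).1 = if (i : ℕ) < r then 1 else 0 := by
  have h1 : (lk i).1 ∉ (La N r).map Prod.snd := by
    unfold La
    rw [List.map_map]
    intro h
    obtain ⟨j, -, hj⟩ := List.mem_map.1 h
    simp [lk] at hj
  have h2 : (lk i).2 ∈ (La N r).map Prod.snd ↔ (i : ℕ) < r := by
    unfold La
    rw [List.map_map, List.mem_map, ← mem_take_fin (N := N) (r := r)]
    constructor
    · rintro ⟨j, hj, he⟩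
      have : j = i := by
        simpa [lk] using he
      rw [← this]
      exact hj
    · intro h
      exact ⟨i, h, rfl⟩
  rw [chi_notMem h1, sub_zero]
  by_cases c : (i : ℕ) < r
  · rw [if_pos c, chi_mem (h2.2 c)]
  · rw [if_neg c, chi_notMem (fun h => c (h2.1 h))]

theorem glu_ofP (n' x : ℂ) (N r : ℕ) (q : EXL.Pat (NUF.St N)) :
    ((glu N).map ((DF n' (fc r)).op x)).prod (dl (ZMod 2) Lab)
        (ofP (ZMod 2) (Fr (fun _ => 0) (fun _ => -1) false 0 0 q)) =
      Tw (chi (La N r)) (gm (nu2 n') (La N r ++ Lb' N r)) (ofP (ZMod 2) q) := by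
  set κ := fr N (fun _ => 0) (fun _ => -1) false 0 0 with hκ
  have e1 : (glu N).map ((DF n' (fc r)).op x) = (La N r ++ Lb' N r).map fun t =>
      lCo (nu2 n') (chi (La N r) t.2 - chi (La N r) t.1) (κ t.1) (κ t.2) := by
    rw [La_Lb, List.map_map]
    unfold glu
    rw [List.map_map, ← Tot.fin_range N]
    refine List.map_congr_left fun i _ => ?_
    show (DF n' (fc r)).cS (ed (_root_.EXL.A 0 ((i : ℕ) : ℤ), (-1, 1))) =
      lCo (nu2 n') (chi (La N r) (lk i).2 - chi (La N r) (lk i).1) (κ (lk i).1) (κ (lk i).2)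
    rw [chi_La, Lb.cS_ed]
    have e2 : (DF n' (fc r)).lab (_root_.EXL.A 0 ((i : ℕ) : ℤ), (-1, 1)) =
        if (i : ℕ) < r then 1 else 0 := by
      show ((cr (fc r) (_root_.EXL.A 0 ((i : ℕ) : ℤ), (-1, 1)) : ℤ) : ZMod 2) = _
      rw [cr_A]
      by_cases c : (i : ℕ) < r
      · rw [if_pos c, if_pos ⟨rfl, by exact_mod_cast c⟩]
        decide
      · rw [if_neg c, if_neg (fun h => c (by exact_mod_cast h.2))]
        rfl
    have e3 : (hf (rv (_root_.EXL.A 0 ((i : ℕ) : ℤ), (-1, 1))) : Lab) = EXL.Net.lE (-1) ((i : ℕ) : ℤ) := by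
      unfold rv EXL.Net.lE
      simp only [_root_.EXL.A_left]
      rfl
    rw [e2, e3]
    rfl
  have e4 : Tw (chi (La N r)) (gm (nu2 n') (La N r ++ Lb' N r)) =
      ((La N r ++ Lb' N r).map fun t => lCo (nu2 n') (chi (La N r) t.2 - chi (La N r) t.1) t.1
        t.2).prod (dl (ZMod 2) (NUF.St N)) := by
    refine lG_gm (nu2 n') (chi (La N r)) ?_
    intro t ht
    rw [La_Lb] at ht
    obtain ⟨i, -, rfl⟩ := List.mem_map.1 ht
    simp [lk]
  rw [e1, e4]
  unfold Fr
  rw [lftL_ofP]
  exact prod_lftL _ (nu2 n') _ _ _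

theorem ofP_empty {β : Type*} : ofP (ZMod 2) (EXL.Pat.empty : EXL.Pat β) = LPat.empty := by
  ext x
  · rfl
  · rfl

/-! ### the value -/

/-- **The iterated columns are the nested polygons of a parallelogram.** -/
theorem term_eq (n' : ℂ) {N r m : ℕ} (hN : 1 ≤ N) (hm : 1 ≤ m) :
    (NUF.colF (fun _ => EXL.hexW (xc : ℂ)) cc ((La N r ++ Lb' N r).map Prod.fst))^[m]
      ((NUF.colF (fun _ => EXL.hexW (xc : ℂ)) cc ((La N r ++ Lb' N r).map Prod.snd).reverse)^[m]
        (fun p => Tw (chi (La N r)) (gm (nu2 n') (La N r ++ Lb' N r)) (ofP (ZMod 2) p)))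
        EXL.Pat.empty = NF (xc : ℂ) (n' / 2) (fc r) (Om N m) := by
  set D := DF n' (fc r) with hD
  set F := ((glu N).map (D.op (xc : ℂ))).prod (dl (ZMod 2) Lab) with hF
  have t := tot_eq (xc : ℂ) N m (fun p => F (ofP (ZMod 2) p))
  have e1 : (fun q : EXL.Pat (NUF.St N) => (fun p => F (ofP (ZMod 2) p))
      (Fr (fun _ => 0) (fun _ => -1) false 0 0 q)) =
      fun p => Tw (chi (La N r)) (gm (nu2 n') (La N r ++ Lb' N r)) (ofP (ZMod 2) p) :=
    funext fun q => glu_ofP n' (xc : ℂ) N r q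
  rw [e1] at t
  have e2 : (La N r ++ Lb' N r).map Prod.fst = (List.finRange N).map Xr := by
    rw [La_Lb, List.map_map]
    rfl
  have e3 : (La N r ++ Lb' N r).map Prod.snd = (List.finRange N).map Xl := by
    rw [La_Lb, List.map_map]
    rfl
  rw [e2, e3, ← t, ← prod_rtot, ← prod_ltot, ← List.prod_append, ← List.map_append,
    ← prod_ofP D (nu2_zero n') (xc : ℂ) _ (lab_tot n' r N m) F, hF, ← Module.End.mul_apply,
    ← List.prod_append, ← List.map_append]
  have e4 := totl_eq D (xc : ℂ) hN hm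
  unfold totl at e4
  rw [e4, ofP_empty, Lb.main_empty (gas_NF n' (Fc_fc r) (xc : ℂ)) (fun a b h =>
    mul_left_cancel₀ (two_ne_zero) h) (fun w hw => Om_vt hw) _ (incl _)]
  have e5 : dl (ZMod 2) Lab LPat.empty = 1 := if_pos rfl
  rw [e5, mul_one]

/-- **The partition function of the strip is the limit of the nested polygons of the parallelograms.** -/
theorem ZV_tendsto (n' : ℂ) {N r : ℕ} (hN : 1 ≤ N) :
    Tendsto (fun m => NF (xc : ℂ) (n' / 2) (fc r) (Om N m)) atTop
      (𝓝 (ZV n' NUG.z0 (La N r) (Lb' N r))) := by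
  have hG : Gd (La N r ++ Lb' N r) := by
    unfold Gd
    rw [La_Lb, List.map_map, List.map_map, List.nodup_append]
    refine ⟨(List.nodup_finRange N).map (fun i j h => by simpa [lk] using h),
      (List.nodup_finRange N).map (fun i j h => by simpa [lk] using h), ?_⟩
    intro a ha b hb
    obtain ⟨i, -, rfl⟩ := List.mem_map.1 ha
    obtain ⟨j, -, rfl⟩ := List.mem_map.1 hb
    simp [lk]
  have h1 : ∀ l : Fin 4, (Sum.inr l : NUF.St N) ∉ (La N r ++ Lb' N r).map Prod.fst := by
    intro l h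
    rw [La_Lb, List.map_map] at h
    obtain ⟨i, -, hi⟩ := List.mem_map.1 h
    simp [lk] at hi
  have h2 : ∀ l : Fin 4, (Sum.inr l : NUF.St N) ∉ (La N r ++ Lb' N r).map Prod.snd := by
    intro l h
    rw [La_Lb, List.map_map] at h
    obtain ⟨i, -, hi⟩ := List.mem_map.1 h
    simp [lk] at hi
  have h := NUG.ZV_lim hG (c := cc) (d := Sum.inr 1) (by simp) (h1 0) (h2 0) (h2 1) n'
  refine h.congr' ?_
  filter_upwards [eventually_ge_atTop 1] with m hm
  exact term_eq n' hN hm

end Pool.Agent.NUN
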