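import Pool.Agent.NUN.LNet
import Pool.Agent.HexLoop.Clo

/-!
# Labelled networks of half edges: the value of the network of a domain (chain F of board NUL, module F1)

`main_empty`: the network of the domain `A`, evaluated at the empty state, is `z A` if `z` satisfies the
recursion `Gas` of the gas of disjoint polygons with the weights `x ^ length * ν (label)`.
-/

set_option autoImplicit false

namespace Pool.Agent.NUN

open Pool.Agent.NUF Pool.Agent.NUF.LPat Pool.Agent.EXL.Net HexObs HexObs.LP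

variable {Γ : Type*} {K : Type} [AddCommGroup Γ] [CommRing K]

namespace Lb

variable (D : Lb Γ K)

/-- the label of a polygon. -/
noncomputable def lE (E : Finset (Pt × Pt)) : Γ := ∑ q ∈ E, D.lab q

/-- the recursion of the gas of disjoint polygons (every polygon occurs twice, once for each orientation). -/
structure Gas (x : K) (z : Finset Pt → K) : Prop where
  emp : z ∅ = 1
  step : ∀ (A : Finset Pt) (v : Pt), (∀ w ∈ A, Vt w) → v ∈ A → 2 * z A = 2 * z (A.erase v) +
    ∑ E ∈ (polys A).filter (fun E => v ∈ VE E), x ^ E.card * (D.nu (D.lE E) * z (A \ VE E))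

theorem ls_clo {A : Finset Pt} {p : Pt × Pt} (hp : De p) {b : Bool} {s : List Bool}
    (ht : b :: s ∈ clo A p) : D.ls (p.1 + p.2, turn b p.2) s = D.lE (cl6_E p (b :: s)) := by
  have h1 := D.ls_cons p b s
  have h2 : D.ls p (b :: s) = (∑ i ∈ Finset.range (b :: s).length,
      D.lab (vx p.1 p.2 (b :: s) i, dx p.2 (b :: s) i)) + D.lab p := by
    unfold ls
    rw [Finset.sum_range_succ]
    congr 2
    exact (cl6_mem_clo.1 ht).2.2
  have h3 : D.lE (cl6_E p (b :: s)) = ∑ i ∈ Finset.range (b :: s).length,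
      D.lab (vx p.1 p.2 (b :: s) i, dx p.2 (b :: s) i) := by
    unfold lE cl6_E
    rw [Finset.sum_image]
    have h4 := (cl6_windclo hp ht).2
    unfold cl6_E at h4
    exact Finset.card_image_iff.1 (by rw [← h4, Finset.card_range])
  rw [h3]
  rw [h2, add_comm] at h1
  exact (add_left_cancel h1).symm

end Lb

theorem vt_clo {A : Finset Pt} {p : Pt × Pt} {t : List Bool} (ht : t ∈ clo A p) :
    vt p t = VE (cl6_E p t) := by
  obtain ⟨-, h2, h3⟩ := cl6_mem_clo.1 ht
  have hv : vx p.1 p.2 t t.length = p.1 := congrArg Prod.fst h3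
  have h0 : vx p.1 p.2 t 0 = p.1 := rfl
  unfold vt VE cl6_E
  ext v
  simp only [Finset.mem_image, Finset.mem_range]
  constructor
  · rintro ⟨i, hi, rfl⟩
    by_cases c : i + 1 = t.length
    · exact ⟨_, ⟨0, h2, rfl⟩, by rw [c, hv]; rfl⟩
    · exact ⟨_, ⟨i + 1, by omega, rfl⟩, rfl⟩
  · rintro ⟨_, ⟨i, hi, rfl⟩, rfl⟩
    rcases i with _ | i
    · exact ⟨t.length - 1, by omega, by rw [Nat.sub_add_cancel h2, hv]; rfl⟩
    · exact ⟨i, by omega, rfl⟩

namespace Lb

variable (D : Lb Γ K)

/-- the words from a vertex to itself are the polygons through the directed edge `p`. -/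
theorem Pw_clo (x : K) (z : Finset Pt → K) {A : Finset Pt} {p : Pt × Pt} (hp : De p)
    (h : p.1 + p.2 ∈ A) :
    x * (D.Pw x z (A.erase (p.1 + p.2)) (rv p) 0 (p.1 + p.2, rotL p.2) +
      D.Pw x z (A.erase (p.1 + p.2)) (rv p) 0 (p.1 + p.2, rotR p.2)) =
      ∑ E ∈ thr A p, x ^ E.card * (D.nu (D.lE E) * z (A \ VE E)) := by
  classical
  rw [← clo_bij hp (fun t => x ^ t.length * (D.nu (D.lE (cl6_E p t)) * z (A \ VE (cl6_E p t))))
    (fun E => x ^ E.card * (D.nu (D.lE E) * z (A \ VE E)))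
    (fun t ht => by rw [(cl6_windclo hp ht).2])]
  unfold Pw
  set A' := A.erase (p.1 + p.2) with hA'
  have hrv : ∀ k : Pt × Pt, rv k = rv p ↔ k = p :=
    fun k => ⟨fun e => by rw [← rv_rv k, e, rv_rv], fun e => by rw [e]⟩
  simp only [hrv]
  have e : clo A p =
      ((arr0 A' (p.1 + p.2, rotL p.2)).filter
        (fun t => le (p.1 + p.2, rotL p.2) t = p)).image (List.cons true) ∪
      ((arr0 A' (p.1 + p.2, rotR p.2)).filter
        (fun t => le (p.1 + p.2, rotR p.2) t = p)).image (List.cons false) := by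
    ext t
    rw [cl6_mem_clo]
    simp only [Finset.mem_union, Finset.mem_image, Finset.mem_filter, mem_arr0]
    constructor
    · rintro ⟨h1, h3, h2⟩
      rcases t with _ | ⟨b, s⟩
      · simp at h3
      · rw [arr0_cons] at h1
        rw [le_cons] at h2
        cases b
        · exact Or.inr ⟨s, ⟨h1.2, h2⟩, rfl⟩
        · exact Or.inl ⟨s, ⟨h1.2, h2⟩, rfl⟩
    · rintro (⟨s, ⟨h1, h2⟩, rfl⟩ | ⟨s, ⟨h1, h2⟩, rfl⟩)
      · rw [arr0_cons, le_cons]
        exact ⟨⟨h, h1⟩, by simp, h2⟩
      · rw [arr0_cons, le_cons]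
        exact ⟨⟨h, h1⟩, by simp, h2⟩
  have hd : Disjoint (((arr0 A' (p.1 + p.2, rotL p.2)).filter
        (fun t => le (p.1 + p.2, rotL p.2) t = p)).image (List.cons true))
      (((arr0 A' (p.1 + p.2, rotR p.2)).filter
        (fun t => le (p.1 + p.2, rotR p.2) t = p)).image (List.cons false)) := by
    rw [Finset.disjoint_left]
    intro t h1 h2
    obtain ⟨s, -, rfl⟩ := Finset.mem_image.1 h1
    obtain ⟨r, -, hr⟩ := Finset.mem_image.1 h2
    simp at hr
  have key : ∀ (b : Bool) (s : List Bool), b :: s ∈ clo A p →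
      x ^ (b :: s).length * (D.nu (D.lE (cl6_E p (b :: s))) * z (A \ VE (cl6_E p (b :: s)))) =
      x * (x ^ s.length * (D.nu (0 - D.ls (p.1 + p.2, turn b p.2) s) *
        z (A' \ vt (p.1 + p.2, turn b p.2) s))) := by
    intro b s ht
    have e1 : A \ VE (cl6_E p (b :: s)) = A' \ vt (p.1 + p.2, turn b p.2) s := by
      rw [← vt_clo ht, vt_cons, hA']
      ext v
      simp only [Finset.mem_sdiff, Finset.mem_insert, Finset.mem_erase]
      tauto
    rw [e1, D.ls_clo hp ht, zero_sub, D.even, List.length_cons, pow_succ']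
    ring
  have k1 : ∀ s ∈ (arr0 A' (p.1 + p.2, rotL p.2)).filter
      (fun t => le (p.1 + p.2, rotL p.2) t = p), true :: s ∈ clo A p := by
    intro s hs
    rw [e, Finset.mem_union]
    exact Or.inl (Finset.mem_image_of_mem _ hs)
  have k2 : ∀ s ∈ (arr0 A' (p.1 + p.2, rotR p.2)).filter
      (fun t => le (p.1 + p.2, rotR p.2) t = p), false :: s ∈ clo A p := by
    intro s hs
    rw [e, Finset.mem_union]
    exact Or.inr (Finset.mem_image_of_mem _ hs)
  rw [e, Finset.sum_union hd, Finset.sum_image (fun a _ b _ hab => List.cons_injective hab),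
    Finset.sum_image (fun a _ b _ hab => List.cons_injective hab), mul_add, Finset.mul_sum,
    Finset.mul_sum]
  exact congrArg₂ (· + ·) (Finset.sum_congr rfl fun s hs => (key true s (k1 s hs)).symm)
    (Finset.sum_congr rfl fun s hs => (key false s (k2 s hs)).symm)

end Lb

/-! ### the polygons through a vertex -/

theorem dv_De {v : Pt} (hv : Vt v) : De (v, dv v) ∧ De (v, rotL (rotL (dv v))) ∧
    De (v, rotR (rotR (dv v))) := by
  have key : ∀ c : ZMod 3, c ≠ 1 →
      ((if c = 0 then ((0, 1) : Pt) else (0, -1)) ∈ dirs ∧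
        c + cl (if c = 0 then ((0, 1) : Pt) else (0, -1)) ≠ 1) ∧
      (rotL (rotL (if c = 0 then ((0, 1) : Pt) else (0, -1))) ∈ dirs ∧
        c + cl (rotL (rotL (if c = 0 then ((0, 1) : Pt) else (0, -1)))) ≠ 1) ∧
      (rotR (rotR (if c = 0 then ((0, 1) : Pt) else (0, -1))) ∈ dirs ∧
        c + cl (rotR (rotR (if c = 0 then ((0, 1) : Pt) else (0, -1)))) ≠ 1) := by decide
  obtain ⟨⟨a1, a2⟩, ⟨b1, b2⟩, ⟨c1, c2⟩⟩ := key (cl v) hv
  refine ⟨⟨a1, hv, ?_⟩, ⟨b1, hv, ?_⟩, ⟨c1, hv, ?_⟩⟩
  · unfold Vt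
    rw [cl_add]
    exact a2
  · unfold Vt
    rw [cl_add]
    exact b2
  · unfold Vt
    rw [cl_add]
    exact c2

theorem dv_all {v d : Pt} (h : De (v, d)) : d = dv v ∨ d = rotL (rotL (dv v)) ∨
    d = rotR (rotR (dv v)) := by
  obtain ⟨h1, h2, h3⟩ := h
  have key : ∀ c : ZMod 3, ∀ e ∈ dirs, c ≠ 1 → c + cl e ≠ 1 →
      e = (if c = 0 then ((0, 1) : Pt) else (0, -1)) ∨
      e = rotL (rotL (if c = 0 then ((0, 1) : Pt) else (0, -1))) ∨
      e = rotR (rotR (if c = 0 then ((0, 1) : Pt) else (0, -1))) := by decide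
  exact key (cl v) d h1 h2 (by unfold Vt at h3; rw [cl_add] at h3; exact h3)

theorem thr_sum {M : Type*} [AddCommMonoid M] {A : Finset Pt} {v : Pt}
    (G : Finset (Pt × Pt) → M) :
    ∑ E ∈ thr A (rv (v, dv v)), G E + ∑ E ∈ thr A (rv (v, rotL (rotL (dv v)))), G E +
      ∑ E ∈ thr A (rv (v, rotR (rotR (dv v)))), G E =
      ∑ E ∈ (polys A).filter (fun E => v ∈ VE E), G E := by
  classical
  have hu : ∀ {E : Finset (Pt × Pt)}, IsPoly E → ∀ {d d' : Pt}, rv (v, d) ∈ E → rv (v, d') ∈ E →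
      d = d' := by
    intro E hE d d' h1 h2
    refine isPoly_fun (isPoly_rE hE) (v := v) ?_ ?_
    · exact mem_rE.2 h1
    · exact mem_rE.2 h2
  obtain ⟨n1, n2, n3⟩ := dv_ne v
  have hd1 : Disjoint (thr A (rv (v, dv v))) (thr A (rv (v, rotL (rotL (dv v))))) := by
    rw [Finset.disjoint_left]
    intro E h1 h2
    unfold thr at h1 h2
    rw [Finset.mem_filter] at h1 h2
    exact n1 (hu (mem_polys.1 h1.1).1 h2.2 h1.2)
  have hd2 : Disjoint (thr A (rv (v, dv v)) ∪ thr A (rv (v, rotL (rotL (dv v)))))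
      (thr A (rv (v, rotR (rotR (dv v))))) := by
    rw [Finset.disjoint_left]
    intro E h1 h2
    rw [Finset.mem_union] at h1
    unfold thr at h1 h2
    rw [Finset.mem_filter, Finset.mem_filter] at h1
    rw [Finset.mem_filter] at h2
    rcases h1 with h1 | h1
    · exact n2 (hu (mem_polys.1 h1.1).1 h2.2 h1.2)
    · exact n3 (hu (mem_polys.1 h1.1).1 h1.2 h2.2)
  rw [← Finset.sum_union hd1, ← Finset.sum_union hd2]
  refine Finset.sum_congr ?_ fun _ _ => rfl
  ext E
  simp only [Finset.mem_union, thr, Finset.mem_filter]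
  constructor
  · intro h
    have h1 : E ∈ polys A ∧ ∃ d, rv (v, d) ∈ E := by
      rcases h with (h | h) | h
      · exact ⟨h.1, _, h.2⟩
      · exact ⟨h.1, _, h.2⟩
      · exact ⟨h.1, _, h.2⟩
    obtain ⟨h1, d, h2⟩ := h1
    refine ⟨h1, ?_⟩
    rw [← VE_rE (mem_polys.1 h1).1]
    exact Finset.mem_image.2 ⟨(v, d), mem_rE.2 h2, rfl⟩
  · rintro ⟨h1, h2⟩
    obtain ⟨d, b, h3, -⟩ := isPoly_prev (mem_polys.1 h1).1 h2
    have h4 := isPoly_de (mem_polys.1 h1).1 h3
    have e1 : rv (v, -d) = (v - d, d) := by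
      unfold rv
      rw [neg_neg, ← sub_eq_add_neg]
    have e2 : rv (v - d, d) = (v, -d) := by
      rw [← e1, rv_rv]
    have h5 := De_rv h4
    rw [e2] at h5
    rw [← e1] at h3
    rcases dv_all h5 with h6 | h6 | h6
    · rw [h6] at h3
      exact Or.inl (Or.inl ⟨h1, h3⟩)
    · rw [h6] at h3
      exact Or.inl (Or.inr ⟨h1, h3⟩)
    · rw [h6] at h3
      exact Or.inr ⟨h1, h3⟩

/-! ### the exploration -/

/-- all edges that touch `A` belong to `E`. -/
def Incl (A : Finset Pt) (E : Finset (Sym2 Lab)) : Prop := ∀ w ∈ A, ∀ d, De (w, d) → ed (w, d) ∈ E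

theorem Incl.erase {A : Finset Pt} {E : Finset (Sym2 Lab)} (h : Incl A E) {p : Pt × Pt}
    (h1 : p.1 ∉ A) : Incl (A.erase (p.1 + p.2)) (E.erase (ed p)) := by
  intro u hu d hd
  rw [Finset.mem_erase] at hu ⊢
  refine ⟨?_, h u hu.2 d hd⟩
  rw [Ne, ed_eq, not_or]
  refine ⟨fun h => h1 ?_, fun h => hu.1 (congrArg Prod.fst h)⟩
  have := congrArg Prod.fst h
  simp only at this
  rw [← this]
  exact hu.2

theorem Incl.erase' {A : Finset Pt} {E : Finset (Sym2 Lab)} (h : Incl A E) {p : Pt × Pt}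
    (h1 : p.1 ∉ A) (h2 : p.1 + p.2 ∉ A) : Incl A (E.erase (ed p)) := by
  have h3 := h.erase h1
  rwa [Finset.erase_eq_of_notMem h2] at h3

theorem Incl.sub {A : Finset Pt} {E : Finset (Sym2 Lab)} (h : Incl A E) (v : Pt) :
    Incl (A.erase v) E := fun u hu d hd => h u (Finset.mem_of_mem_erase hu) d hd

namespace Lb

variable (D : Lb Γ K)

theorem cO_empty {E : Finset (Sym2 Lab)} (hE : Edg E) (F : LPat Γ Lab → K) :
    D.cO E hE F LPat.empty = F LPat.empty := by
  refine Finset.noncommProd_induction E _ _ (fun B : LOp Γ K => ∀ F, B F LPat.empty = F LPat.empty)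
    (fun a b ha hb F => (ha _).trans (hb F)) (fun F => rfl) (fun e he F => ?_) F
  obtain ⟨h, h1, rfl⟩ := hE e he
  rw [cS_ed]
  exact lCo_empty _ _ _ _ _

/-- the network with the vertices `A` and the edges `E`. -/
noncomputable def Nt (x : K) (A : Finset Pt) (E : Finset (Sym2 Lab)) (hE : Edg E) : LOp Γ K :=
  lCR Γ x A * D.cO E hE

theorem Nt_in (x : K) {A : Finset Pt} {E : Finset (Sym2 Lab)} (hE : Edg E) {p : Pt × Pt}
    (h1 : p.1 ∉ A) (h2 : ed p ∈ E) (hw : p.1 + p.2 ∈ A) :
    D.Nt x A E hE = lCrv Γ x (p.1 + p.2) * (D.cS (ed p) *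
      D.Nt x (A.erase (p.1 + p.2)) (E.erase (ed p)) (hE.erase _)) := by
  unfold Nt
  have c2 := D.cS_CR_comm (A := A.erase (p.1 + p.2)) x (fun h => h1 (Finset.mem_of_mem_erase h))
    (Finset.notMem_erase _ A)
  rw [lCR_erase x hw, D.cO_erase hE h2]
  calc _ = lCrv Γ x (p.1 + p.2) * (lCR Γ x (A.erase (p.1 + p.2)) * D.cS (ed p)) *
      D.cO (E.erase (ed p)) (hE.erase (ed p)) := by simp only [mul_assoc]
    _ = _ := by
      rw [← c2.eq]
      simp only [mul_assoc]

theorem Nt_out (x : K) {A : Finset Pt} {E : Finset (Sym2 Lab)} (hE : Edg E) {p : Pt × Pt}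
    (h1 : p.1 ∉ A) (h2 : ed p ∈ E) (hw : p.1 + p.2 ∉ A) :
    D.Nt x A E hE = D.cS (ed p) * D.Nt x A (E.erase (ed p)) (hE.erase _) := by
  unfold Nt
  have c2 := D.cS_CR_comm (A := A) x h1 hw
  rw [D.cO_erase hE h2]
  calc _ = (lCR Γ x A * D.cS (ed p)) * D.cO (E.erase (ed p)) (hE.erase (ed p)) := by
        simp only [mul_assoc]
    _ = _ := by
      rw [← c2.eq]
      simp only [mul_assoc]

variable {D}

theorem main {x : K} {z : Finset Pt → K} (hz : D.Gas x z) (h2 : ∀ a b : K, 2 * a = 2 * b → a = b)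
    (n : ℕ) : ∀ A : Finset Pt, A.card = n → (∀ w ∈ A, Vt w) →
    (∀ (E : Finset (Sym2 Lab)) (hE : Edg E), Incl A E → ∀ F : LPat Γ Lab → K,
      D.Nt x A E hE F LPat.empty = z A * F LPat.empty) ∧
    (∀ (E : Finset (Sym2 Lab)) (hE : Edg E), Incl A E → ∀ (p q : Pt × Pt) (g : Γ), De p →
      p.1 ∉ A → q.1 ∉ A → p ≠ q → ed p ∈ E → ∀ F : LPat Γ Lab → K,
      D.Nt x A E hE F (arc (hf p) (hf q) g) = D.Pw x z A q g p * F LPat.empty) := by
  induction n with
  | zero =>
    intro A hA hV
    have hA' : A = ∅ := Finset.card_eq_zero.1 hA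
    subst hA'
    have a0 : ∀ (E : Finset (Sym2 Lab)) (hE : Edg E) (F : LPat Γ Lab → K),
        D.Nt x ∅ E hE F LPat.empty = z ∅ * F LPat.empty := by
      intro E hE F
      rw [hz.emp, one_mul]
      have e1 : lCR Γ x ∅ = 1 := Finset.noncommProd_empty _ _
      unfold Nt
      rw [e1, one_mul]
      exact D.cO_empty hE F
    refine ⟨fun E hE _ F => a0 E hE F, ?_⟩
    intro E hE hI p q g hp h1 h3 h4 h5 F
    rw [D.Pw_out x z q g (Finset.notMem_empty _), D.Nt_out x hE h1 h5 (Finset.notMem_empty _),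
      Module.End.mul_apply, D.cS_ed]
    by_cases c : rv p = q
    · subst c
      rw [if_pos rfl, lCo_close _ _ _ (by simpa using h4), a0, mul_assoc]
    · rw [if_neg c, zero_mul]
      exact lCo_arc _ _ _ (by simpa using h4) (by simpa using (rv_ne hp).symm) (by simpa using c) _
  | succ n ih =>
    intro A hA hV
    have ih' : ∀ v ∈ A, _ := fun v hv => ih (A.erase v) (by rw [Finset.card_erase_of_mem hv]; omega)
      (fun w hw => hV w (Finset.mem_of_mem_erase hw))
    have a0 : ∀ (E : Finset (Sym2 Lab)) (hE : Edg E), Incl A E → ∀ F : LPat Γ Lab → K,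
        D.Nt x A E hE F LPat.empty = z A * F LPat.empty := by
      intro E hE hI F
      obtain ⟨v, hv⟩ : A.Nonempty := Finset.card_pos.1 (by omega)
      obtain ⟨ia, ib⟩ := ih' v hv
      obtain ⟨d1, d2, d3⟩ := dv_De (hV v hv)
      obtain ⟨n1, n2, n3⟩ := dv_ne v
      have hne := Finset.notMem_erase v A
      set a := dv v with ha
      have r1 : ∀ d : Pt, rotL (-d) = rotR (rotR d) := by
        intro d
        refine Prod.ext ?_ ?_ <;> simp only [rotL, rotR, Prod.fst_neg, Prod.snd_neg] <;> ring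
      have r2 : ∀ d : Pt, rotR (-d) = rotL (rotL d) := by
        intro d
        refine Prod.ext ?_ ?_ <;> simp only [rotL, rotR, Prod.fst_neg, Prod.snd_neg] <;> ring
      have s1 : rotL (rotL (rotL (rotL a))) = rotR (rotR a) := by
        refine Prod.ext ?_ ?_ <;> simp only [rotL, rotR] <;> ring
      have s2 : rotR (rotR (rotL (rotL a))) = a := by
        refine Prod.ext ?_ ?_ <;> simp only [rotL, rotR] <;> ring
      have s3 : rotL (rotL (rotR (rotR a))) = a := by
        refine Prod.ext ?_ ?_ <;> simp only [rotL, rotR] <;> ring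
      have s4 : rotR (rotR (rotR (rotR a))) = rotL (rotL a) := by
        refine Prod.ext ?_ ?_ <;> simp only [rotL, rotR] <;> ring
      have pc : ∀ d : Pt, De (v, d) → x * (D.Pw x z (A.erase v) (v, d) 0 (v, rotR (rotR d)) +
          D.Pw x z (A.erase v) (v, d) 0 (v, rotL (rotL d))) =
          ∑ E ∈ thr A (rv (v, d)), x ^ E.card * (D.nu (D.lE E) * z (A \ VE E)) := by
        intro d hd
        have h3 : (rv (v, d)).1 + (rv (v, d)).2 = v := by simp [rv]
        have h4 := D.Pw_clo x z (A := A) (De_rv hd) (by rw [h3]; exact hv)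
        rw [h3, rv_rv] at h4
        have h5 : (rv (v, d)).2 = -d := rfl
        rw [h5, r1, r2] at h4
        exact h4
      have p1 := pc _ d1
      have p2 := pc _ d2
      have p3 := pc _ d3
      rw [s1, s2] at p2
      rw [s3, s4] at p3
      have q12 : (v, a) ≠ (v, rotL (rotL a)) := fun h => n1 (congrArg Prod.snd h).symm
      have q13 : (v, a) ≠ (v, rotR (rotR a)) := fun h => n2 (congrArg Prod.snd h).symm
      have q23 : (v, rotL (rotL a)) ≠ (v, rotR (rotR a)) := fun h => n3 (congrArg Prod.snd h)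
      have hib := fun (p q : Pt × Pt) (hp : De p) (k1 : p.1 = v) (k2 : q.1 = v) (k3 : p ≠ q)
        (k4 : ed p ∈ E) => ib E hE (hI.sub v) p q 0 hp (by rw [k1]; exact hne)
          (by rw [k2]; exact hne) k3 k4 F
      have e1 := hI v hv _ d1
      have e2 := hI v hv _ d2
      have e3 := hI v hv _ d3
      have u12 := hib _ _ d1 rfl rfl q12 e1
      have u21 := hib _ _ d2 rfl rfl q12.symm e2
      have u13 := hib _ _ d1 rfl rfl q13 e1
      have u31 := hib _ _ d3 rfl rfl q13.symm e3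
      have u23 := hib _ _ d2 rfl rfl q23 e2
      have u32 := hib _ _ d3 rfl rfl q23.symm e3
      have l12 : (hf (v, a) : Lab) ≠ hf (v, rotL (rotL a)) := fun h => q12 (Sum.inl_injective h)
      have l13 : (hf (v, a) : Lab) ≠ hf (v, rotR (rotR a)) := fun h => q13 (Sum.inl_injective h)
      have l23 : (hf (v, rotL (rotL a)) : Lab) ≠ hf (v, rotR (rotR a)) :=
        fun h => q23 (Sum.inl_injective h)
      have v12 := u12
      have v13 := u13
      have v23 := u23
      rw [arc_symm l12] at v12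
      rw [arc_symm l13] at v13
      rw [arc_symm l23] at v23
      have u0 := ia E hE (hI.sub v) F
      have e : D.Nt x A E hE F LPat.empty = D.Nt x (A.erase v) E hE F LPat.empty + x *
          (D.Nt x (A.erase v) E hE F (arc (hf (v, a)) (hf (v, rotL (rotL a))) 0) +
          D.Nt x (A.erase v) E hE F (arc (hf (v, a)) (hf (v, rotR (rotR a))) 0) +
          D.Nt x (A.erase v) E hE F (arc (hf (v, rotL (rotL a))) (hf (v, rotR (rotR a))) 0)) := by
        have e0 : D.Nt x A E hE = lCrv Γ x v * D.Nt x (A.erase v) E hE := by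
          unfold Nt
          rw [lCR_erase x hv, mul_assoc]
        rw [e0, Module.End.mul_apply]
        exact lCr_empty x l12 l13 l23 _
      have hr := hz.step A v hV hv
      rw [← thr_sum (v := v)] at hr
      rw [← ha, ← p1, ← p2, ← p3] at hr
      apply h2
      rw [← mul_assoc, hr, e, u0, u12, u13, u23]
      have w12 := u21.symm.trans v12
      have w13 := u31.symm.trans v13
      have w23 := u32.symm.trans v23
      linear_combination (-x) * w12 + (-x) * w13 + (-x) * w23
    refine ⟨a0, ?_⟩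
    intro E hE hI p q g hp h1 h3 h4 h5 F
    by_cases hw : p.1 + p.2 ∈ A
    · have hq : rv p ≠ q := fun h => h3 (by rw [← h]; exact hw)
      have hwp : p.1 + p.2 ≠ p.1 := fun h => h1 (by rw [← h]; exact hw)
      obtain ⟨-, ib⟩ := ih' _ hw
      have hDw : De (p.1 + p.2, -p.2) := De_rv hp
      have hrv : rv p = (p.1 + p.2, -p.2) := rfl
      have r1 : rotL (rotL (-p.2)) = rotR p.2 := by
        refine Prod.ext ?_ ?_ <;> simp only [rotL, rotR, Prod.fst_neg, Prod.snd_neg] <;> ring
      have r2 : rotR (rotR (-p.2)) = rotL p.2 := by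
        refine Prod.ext ?_ ?_ <;> simp only [rotL, rotR, Prod.fst_neg, Prod.snd_neg] <;> ring
      have hne : ∀ b : Bool, turn b p.2 ≠ -p.2 := by
        have key : ∀ d ∈ dirs, ∀ b : Bool, turn b d ≠ -d := by decide
        exact key p.2 hp.1
      have hwq : ∀ d : Pt, (p.1 + p.2, d) ≠ q := fun d h => h3 (by rw [← h]; exact hw)
      have hwp' : ∀ d : Pt, (p.1 + p.2, d) ≠ p := fun d h => hwp (congrArg Prod.fst h)
      have hrec : ∀ b : Bool, D.Nt x (A.erase (p.1 + p.2)) (E.erase (ed p)) (hE.erase _) F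
          (arc (hf (p.1 + p.2, turn b p.2)) (hf q) (g - D.lab p)) =
          D.Pw x z (A.erase (p.1 + p.2)) q (g - D.lab p) (p.1 + p.2, turn b p.2) *
            F LPat.empty := by
        intro b
        refine ib _ _ (hI.erase h1) _ q _ (De_turn hp b) (Finset.notMem_erase _ _)
          (fun h => h3 (Finset.mem_of_mem_erase h)) (hwq _) ?_ F
        rw [Finset.mem_erase]
        refine ⟨?_, hI _ hw _ (De_turn hp b)⟩
        rw [Ne, ed_eq, not_or]
        exact ⟨hwp' _, fun h => hne b (congrArg Prod.snd h)⟩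
      rw [D.Nt_in x hE h1 h5 hw, D.Pw_in x z g hw hq]
      simp only [Module.End.mul_apply]
      rw [lCrv_eq x hDw, D.cS_ed, r1, r2, hrv]
      have i1 : ∀ d : Pt, (hf (p.1 + p.2, d) : Lab) ≠ hf p := fun d h => hwp' d (Sum.inl_injective h)
      have i2 : ∀ d : Pt, (hf (p.1 + p.2, d) : Lab) ≠ hf q := fun d h => hwq d (Sum.inl_injective h)
      have i3 : (hf (p.1 + p.2, -p.2) : Lab) ≠ hf (p.1 + p.2, rotR p.2) :=
        fun h => hne false (congrArg Prod.snd (Sum.inl_injective h)).symm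
      have i4 : (hf (p.1 + p.2, -p.2) : Lab) ≠ hf (p.1 + p.2, rotL p.2) :=
        fun h => hne true (congrArg Prod.snd (Sum.inl_injective h)).symm
      have m1 := hrec true
      have m2 := hrec false
      have i0 : (hf p : Lab) ≠ hf q := fun h => h4 (Sum.inl_injective h)
      refine (step_in (D.lab p) g D.nu x i0 (i1 _) (i2 _) (i1 _) (i2 _) (i1 _) (i2 _) i3 i4 _).trans ?_
      change x * (_ + D.Nt x (A.erase (p.1 + p.2)) (E.erase (ed p)) (hE.erase _) F
          (arc (hf (p.1 + p.2, turn true p.2)) (hf q) (g - D.lab p))) = _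
      rw [m1]
      change x * (D.Nt x (A.erase (p.1 + p.2)) (E.erase (ed p)) (hE.erase _) F
          (arc (hf (p.1 + p.2, turn false p.2)) (hf q) (g - D.lab p)) + _) = _
      rw [m2]
      have t1 : turn true p.2 = rotL p.2 := rfl
      have t2 : turn false p.2 = rotR p.2 := rfl
      rw [t1, t2]
      ring
    · rw [D.Pw_out x z q g hw, D.Nt_out x hE h1 h5 hw, Module.End.mul_apply, D.cS_ed]
      by_cases c : rv p = q
      · subst c
        rw [if_pos rfl, lCo_close _ _ _ (by simpa using h4),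
          a0 _ _ (hI.erase' h1 hw) F, mul_assoc]
      · rw [if_neg c, zero_mul]
        exact lCo_arc _ _ _ (by simpa using h4) (by simpa using (rv_ne hp).symm) (by simpa using c) _

/-- **The value of the network of a domain.** -/
theorem main_empty {x : K} {z : Finset Pt → K} (hz : D.Gas x z)
    (h2 : ∀ a b : K, 2 * a = 2 * b → a = b) {A : Finset Pt} (hA : ∀ w ∈ A, Vt w)
    {E : Finset (Sym2 Lab)} (hE : Edg E) (hI : Incl A E) (F : LPat Γ Lab → K) :
    D.Nt x A E hE F LPat.empty = z A * F LPat.empty := (main hz h2 _ A rfl hA).1 E hE hI F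

end Lb

end Pool.Agent.NUN
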