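import Pool.Agent.HexLoop.Meet

/-!
# Nested polygons around a face (chain F of board NUL, module F2)

`NF x y f Ω` = the sum over the families of disjoint oriented polygons in `Ω` around the face `f` of the
product of the weights `y * x ^ length`, defined by the recursion over the outermost polygon.  The case
`y = n' / 2` is the loop gas with the weight `n'` for every (unoriented) polygon around `f`.
-/

set_option autoImplicit false

namespace Pool.Agent.NUN

open HexObs HexObs.LP Finset

variable {K : Type*} [CommRing K]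

/-- the polygons in `Ω` around `f` (oriented). -/
noncomputable def pf (f : Pt) (Ω : Finset Pt) : Finset (Finset (Pt × Pt)) := by
  classical
  exact (polys Ω).filter (fun E => Nw E f ≠ 0)

theorem mem_pf {f : Pt} {Ω : Finset Pt} {E : Finset (Pt × Pt)} :
    E ∈ pf f Ω ↔ IsPoly E ∧ VE E ⊆ Ω ∧ Nw E f ≠ 0 := by
  classical
  unfold pf
  rw [Finset.mem_filter, mem_polys, and_assoc]

theorem pf_inn_card {f : Pt} {Ω : Finset Pt} {E : Finset (Pt × Pt)} (h : E ∈ pf f Ω) :
    (inn Ω E).card < Ω.card := by
  obtain ⟨h1, h2, -⟩ := mem_pf.1 h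
  exact inn_card (mem_polys.2 ⟨h1, h2⟩)

/-- **The sum over the families of disjoint polygons around `f`.** -/
noncomputable def NF (x y : K) (f : Pt) (Ω : Finset Pt) : K :=
  1 + ∑ E ∈ (pf f Ω).attach, y * x ^ E.1.card * NF x y f (inn Ω E.1)
termination_by Ω.card
decreasing_by exact pf_inn_card E.2

theorem NF_eq (x y : K) (f : Pt) (Ω : Finset Pt) :
    NF x y f Ω = 1 + ∑ E ∈ pf f Ω, y * x ^ E.card * NF x y f (inn Ω E) := by
  rw [NF]
  congr 1
  exact Finset.sum_attach (pf f Ω) (fun E => y * x ^ E.card * NF x y f (inn Ω E))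

end Pool.Agent.NUN
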