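import Pool.Agent.NUN.Ops
import Pool.Agent.EXL.Net1

/-!
# Labelled networks of half edges: the network of a domain (chain F of board NUL, module F1)

The edges carry labels in a group `Γ`; a closed loop has the weight `ν (sum of its labels)`.  `Pw` is the sum
over the self-avoiding words from the half edge `p` whose last edge is `rv q`, with the factor `z` of the
vertices that are not visited.
-/

set_option autoImplicit false

namespace Pool.Agent.NUN

open Pool.Agent.NUF Pool.Agent.NUF.LPat Pool.Agent.EXL.Net HexObs HexObs.LP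

variable {Γ K : Type*} [AddCommGroup Γ] [CommRing K]

/-- operators on functions of labelled states. -/
abbrev LOp (Γ K : Type*) [AddCommGroup Γ] [CommRing K] := Module.End K (LPat Γ Lab → K)

/-- the weights of the loops and the labels of the edges. -/
structure Lb (Γ K : Type*) [AddCommGroup Γ] [CommRing K] where
  nu : Γ → K
  even : ∀ g, nu (-g) = nu g
  lab : Pt × Pt → Γ
  anti : ∀ h, lab (rv h) = - lab h

namespace Lb

variable (D : Lb Γ K)

/-- the label of the edge with the half edges `a`, `b` (0 if there is none). -/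
def lb : Lab → Lab → Γ
  | Sum.inl h, Sum.inl k => if k = rv h then D.lab h else 0
  | _, _ => 0

theorem lb_anti (a b : Lab) : D.lb a b = - D.lb b a := by
  rcases a with h | b' <;> rcases b with k | b''
  · change (if k = rv h then D.lab h else 0) = - (if h = rv k then D.lab k else 0)
    by_cases c : k = rv h
    · have c' : h = rv k := by rw [c, rv_rv]
      rw [if_pos c, if_pos c', c, D.anti, neg_neg]
    · have c' : ¬ h = rv k := fun e => c (by rw [e, rv_rv])
      rw [if_neg c, if_neg c', neg_zero]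
  · simp [lb]
  · simp [lb]
  · simp [lb]

theorem lb_rv (h : Pt × Pt) : D.lb (hf h) (hf (rv h)) = D.lab h := if_pos rfl

/-- contraction of an edge. -/
def cS : Sym2 Lab → LOp Γ K :=
  Sym2.lift ⟨fun a b => lCo D.nu (D.lb a b) a b, fun a b => by
    by_cases h : a = b
    · subst h
      rfl
    · beta_reduce
      rw [lCo_symm D.even _ h, D.lb_anti a b, neg_neg]⟩

theorem cS_ed (h : Pt × Pt) : D.cS (ed h) = lCo D.nu (D.lab h) (hf h) (hf (rv h)) := by
  have e : D.cS (ed h) = lCo D.nu (D.lb (hf h) (hf (rv h))) (hf h) (hf (rv h)) := rfl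
  rw [e, D.lb_rv]

theorem cS_comm {h k : Pt × Pt} (h1 : ed h ≠ ed k) : Commute (D.cS (ed h)) (D.cS (ed k)) := by
  rw [cS_ed, cS_ed]
  rw [Ne, ed_eq, not_or] at h1
  have h2 : rv h ≠ rv k := fun e => h1.1 (by rw [← rv_rv h, e, rv_rv])
  have h3 : rv h ≠ k := fun e => h1.2 (by rw [← e, rv_rv])
  apply lCo_comm D.even
  · simp [h1.1]
  · simp [h1.2]
  · simp [h3]
  · simp [h2]

/-- all contractions of the edges in `E`. -/
noncomputable def cO (E : Finset (Sym2 Lab)) (hE : Edg E) : LOp Γ K :=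
  E.noncommProd D.cS (fun e he f hf' h => by
    obtain ⟨a, -, rfl⟩ := hE e he
    obtain ⟨b, -, rfl⟩ := hE f hf'
    exact D.cS_comm h)

theorem cO_erase {E : Finset (Sym2 Lab)} (hE : Edg E) {e : Sym2 Lab} (he : e ∈ E) :
    D.cO E hE = D.cS e * D.cO (E.erase e) (hE.erase e) :=
  (Finset.mul_noncommProd_erase E he _ _).symm

/-- the sum of the labels of the edges of a word (first and last edge included). -/
def ls (p : Pt × Pt) (t : List Bool) : Γ :=
  ∑ i ∈ Finset.range (t.length + 1), D.lab (vx p.1 p.2 t i, dx p.2 t i)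

theorem ls_nil (p : Pt × Pt) : D.ls p [] = D.lab p := by
  unfold ls
  simp [vx, dx, vs, ds]

theorem ls_cons (p : Pt × Pt) (b : Bool) (s : List Bool) :
    D.ls p (b :: s) = D.lab p + D.ls (p.1 + p.2, turn b p.2) s := by
  unfold ls
  rw [List.length_cons, Finset.sum_range_succ', add_comm]
  congr 1
  refine Finset.sum_congr rfl fun i _ => ?_
  rw [vx_cons, dx_cons]

end Lb

/-- the vertices of a word. -/
def vt (p : Pt × Pt) (t : List Bool) : Finset Pt :=
  (Finset.range t.length).image (fun i => vx p.1 p.2 t (i + 1))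

theorem vt_nil (p : Pt × Pt) : vt p [] = ∅ := by
  simp [vt]

theorem vt_cons (p : Pt × Pt) (b : Bool) (s : List Bool) :
    vt p (b :: s) = insert (p.1 + p.2) (vt (p.1 + p.2, turn b p.2) s) := by
  unfold vt
  ext v
  simp only [Finset.mem_image, Finset.mem_range, Finset.mem_insert, List.length_cons]
  constructor
  · rintro ⟨i, hi, rfl⟩
    rcases i with _ | i
    · exact Or.inl rfl
    · refine Or.inr ⟨i, by omega, ?_⟩
      rw [vx_cons p.1 p.2]
  · rintro (rfl | ⟨i, hi, rfl⟩)
    · exact ⟨0, by omega, rfl⟩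
    · refine ⟨i + 1, by omega, ?_⟩
      rw [vx_cons p.1 p.2]

/-! ### the vertex operators -/

/-- the vertex operator at `v`. -/
def lCrv (Γ : Type*) [AddCommGroup Γ] (x : K) (v : Pt) : LOp Γ K :=
  lCr Γ x (hf (v, dv v)) (hf (v, rotL (rotL (dv v)))) (hf (v, rotR (rotR (dv v))))

theorem lCrv_eq (x : K) {v e : Pt} (h : De (v, e)) :
    (lCrv Γ x v : LOp Γ K) = lCr Γ x (hf (v, e)) (hf (v, rotL (rotL e))) (hf (v, rotR (rotR e))) := by
  obtain ⟨h1, h2, h3⟩ := h
  unfold lCrv dv
  have key : ∀ c : ZMod 3, ∀ e ∈ dirs, c ≠ 1 → c + cl e ≠ 1 →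
      e = (if c = 0 then ((0, 1) : Pt) else (0, -1)) ∨
      e = rotL (rotL (if c = 0 then ((0, 1) : Pt) else (0, -1))) ∨
      e = rotR (rotR (if c = 0 then ((0, 1) : Pt) else (0, -1))) := by decide
  have k1 := key (cl v) e h1 h2 (by unfold Vt at h3; rw [cl_add] at h3; exact h3)
  have r1 : ∀ d : Pt, rotL (rotL (rotL (rotL d))) = rotR (rotR d) := by
    intro d
    refine Prod.ext ?_ ?_ <;> simp only [rotL, rotR] <;> ring
  have r2 : ∀ d : Pt, rotR (rotR (rotL (rotL d))) = d := by
    intro d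
    refine Prod.ext ?_ ?_ <;> simp only [rotL, rotR] <;> ring
  have r3 : ∀ d : Pt, rotL (rotL (rotR (rotR d))) = d := by
    intro d
    refine Prod.ext ?_ ?_ <;> simp only [rotL, rotR] <;> ring
  have r4 : ∀ d : Pt, rotR (rotR (rotR (rotR d))) = rotL (rotL d) := by
    intro d
    refine Prod.ext ?_ ?_ <;> simp only [rotL, rotR] <;> ring
  generalize (if cl v = 0 then ((0, 1) : Pt) else (0, -1)) = d at k1 ⊢
  rcases k1 with rfl | rfl | rfl
  · rfl
  · rw [r1, r2, lCr_rot]
  · rw [r3, r4, ← lCr_rot]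

theorem lCrv_comm (x : K) {v w : Pt} (h : v ≠ w) : Commute (lCrv Γ x v : LOp Γ K) (lCrv Γ x w) := by
  unfold lCrv
  apply lCr_comm <;> simp [h]

theorem lCrv_lCo_comm (x : K) (ν : Γ → K) (g : Γ) {v : Pt} {h k : Pt × Pt} (h1 : h.1 ≠ v)
    (h2 : k.1 ≠ v) : Commute (lCrv Γ x v : LOp Γ K) (lCo ν g (hf h) (hf k)) := by
  unfold lCrv
  have e : ∀ (l : Pt × Pt) (d : Pt), l.1 ≠ v → (hf (v, d) : Lab) ≠ hf l := by
    intro l d hl he
    apply hl
    rw [Sum.inl.injEq] at he
    rw [← he]
  apply lCr_lCo_comm <;> first | exact e _ _ h1 | exact e _ _ h2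

/-- all vertices of `Ω`. -/
noncomputable def lCR (Γ : Type*) [AddCommGroup Γ] (x : K) (Ω : Finset Pt) : LOp Γ K :=
  Ω.noncommProd (lCrv Γ x) (fun _ _ _ _ h => lCrv_comm x h)

theorem lCR_erase (x : K) {A : Finset Pt} {w : Pt} (hw : w ∈ A) :
    (lCR Γ x A : LOp Γ K) = lCrv Γ x w * lCR Γ x (A.erase w) :=
  (Finset.mul_noncommProd_erase A hw (lCrv Γ x) _).symm

namespace Lb

variable (D : Lb Γ K)

theorem cS_CR_comm (x : K) {A : Finset Pt} {p : Pt × Pt} (h1 : p.1 ∉ A) (h2 : p.1 + p.2 ∉ A) :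
    Commute (D.cS (ed p)) (lCR Γ x A) := by
  refine Finset.noncommProd_commute A _ _ _ (fun u hu => ?_)
  rw [cS_ed]
  refine (lCrv_lCo_comm x _ _ ?_ ?_).symm
  · rintro rfl
    exact h1 hu
  · rintro rfl
    exact h2 hu

/-! ### the sum over the words -/

/-- the sum over the words from `p` with the last edge `rv q`; `g` = the label before the first edge. -/
noncomputable def Pw (x : K) (z : Finset Pt → K) (A : Finset Pt) (q : Pt × Pt) (g : Γ) (p : Pt × Pt) : K :=
  ∑ t ∈ (arr0 A p).filter (fun t => rv (le p t) = q), x ^ t.length * (D.nu (g - D.ls p t) * z (A \ vt p t))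

theorem Pw_out (x : K) (z : Finset Pt → K) {A : Finset Pt} (q : Pt × Pt) (g : Γ) {p : Pt × Pt}
    (h : p.1 + p.2 ∉ A) :
    D.Pw x z A q g p = if rv p = q then D.nu (g - D.lab p) * z A else 0 := by
  unfold Pw
  have e : arr0 A p = {[]} := by
    ext t
    rw [mem_arr0, Finset.mem_singleton]
    constructor
    · intro ht
      rcases t with _ | ⟨b, s⟩
      · rfl
      · exact absurd (arr0_cons.1 ht).1 h
    · rintro rfl
      exact ⟨fun i h1 h2 => by simp at h2; omega, fun i k h1 h2 h3 => by simp at h3; omega⟩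
  rw [e, Finset.filter_singleton, le_nil]
  split_ifs
  · rw [Finset.sum_singleton, D.ls_nil, vt_nil, Finset.sdiff_empty]
    simp
  · simp

theorem Pw_in (x : K) (z : Finset Pt → K) {A : Finset Pt} {q : Pt × Pt} (g : Γ) {p : Pt × Pt}
    (h : p.1 + p.2 ∈ A) (h' : rv p ≠ q) :
    D.Pw x z A q g p = x * (D.Pw x z (A.erase (p.1 + p.2)) q (g - D.lab p) (p.1 + p.2, rotL p.2) +
      D.Pw x z (A.erase (p.1 + p.2)) q (g - D.lab p) (p.1 + p.2, rotR p.2)) := by
  classical
  unfold Pw
  set A' := A.erase (p.1 + p.2) with hA'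
  have e : (arr0 A p).filter (fun t => rv (le p t) = q) =
      ((arr0 A' (p.1 + p.2, rotL p.2)).filter
        (fun t => rv (le (p.1 + p.2, rotL p.2) t) = q)).image (List.cons true) ∪
      ((arr0 A' (p.1 + p.2, rotR p.2)).filter
        (fun t => rv (le (p.1 + p.2, rotR p.2) t) = q)).image (List.cons false) := by
    ext t
    simp only [Finset.mem_union, Finset.mem_image, Finset.mem_filter, mem_arr0]
    constructor
    · rintro ⟨h1, h2⟩
      rcases t with _ | ⟨b, s⟩
      · exact absurd h2 h'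
      · rw [arr0_cons] at h1
        rw [le_cons] at h2
        cases b
        · exact Or.inr ⟨s, ⟨h1.2, h2⟩, rfl⟩
        · exact Or.inl ⟨s, ⟨h1.2, h2⟩, rfl⟩
    · rintro (⟨s, ⟨h1, h2⟩, rfl⟩ | ⟨s, ⟨h1, h2⟩, rfl⟩)
      · rw [arr0_cons, le_cons]
        exact ⟨⟨h, h1⟩, h2⟩
      · rw [arr0_cons, le_cons]
        exact ⟨⟨h, h1⟩, h2⟩
  have hd : Disjoint (((arr0 A' (p.1 + p.2, rotL p.2)).filter
        (fun t => rv (le (p.1 + p.2, rotL p.2) t) = q)).image (List.cons true))
      (((arr0 A' (p.1 + p.2, rotR p.2)).filter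
        (fun t => rv (le (p.1 + p.2, rotR p.2) t) = q)).image (List.cons false)) := by
    rw [Finset.disjoint_left]
    intro t h1 h2
    obtain ⟨s, -, rfl⟩ := Finset.mem_image.1 h1
    obtain ⟨r, -, hr⟩ := Finset.mem_image.1 h2
    simp at hr
  have hs : ∀ (b : Bool) (s : List Bool), A \ vt p (b :: s) = A' \ vt (p.1 + p.2, turn b p.2) s := by
    intro b s
    rw [vt_cons, hA']
    ext v
    simp only [Finset.mem_sdiff, Finset.mem_insert, Finset.mem_erase]
    tauto
  rw [e, Finset.sum_union hd, Finset.sum_image (fun a _ b _ hab => List.cons_injective hab),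
    Finset.sum_image (fun a _ b _ hab => List.cons_injective hab), mul_add, Finset.mul_sum,
    Finset.mul_sum]
  refine congrArg₂ (· + ·) (Finset.sum_congr rfl fun s _ => ?_) (Finset.sum_congr rfl fun s _ => ?_)
  · rw [hs, D.ls_cons, List.length_cons, pow_succ', ← sub_sub]
    simp only [turn, mul_assoc]
    rfl
  · rw [hs, D.ls_cons, List.length_cons, pow_succ', ← sub_sub]
    simp only [turn, mul_assoc]
    rfl

end Lb

end Pool.Agent.NUN
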