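import Pool.Agent.NUN.Ops
import Pool.Agent.NUF.PRel
import Pool.Agent.EXL.Front

/-!
# Labelled states: relabelling of the sites, unlabelled states, the gauge (chain F of board NUL)
-/

set_option autoImplicit false

namespace Pool.Agent.NUN

open Pool.Agent.NUF Pool.Agent.NUF.LPat

/-! ### relabelling -/

section lftL

variable {Γ α β : Type*} [AddCommGroup Γ] {κ : β → α}

open Classical in
/-- The labelled state on `α` that corresponds to the state `p` on `β`. -/
noncomputable def lftL (κ : β → α) (hκ : Function.Injective κ) (p : LPat Γ β) : LPat Γ α where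
  f x := if h : ∃ b, κ b = x then κ (p h.choose) else x
  s x := if h : ∃ b, κ b = x then p.s h.choose else 0
  inv x := by
    by_cases h : ∃ b, κ b = x
    · simp only [dif_pos h]
      have h' : ∃ b, κ b = κ (p h.choose) := ⟨_, rfl⟩
      rw [dif_pos h', hκ h'.choose_spec, p.inv]
      exact h.choose_spec
    · simp only [dif_neg h]
  anti x := by
    by_cases h : ∃ b, κ b = x
    · simp only [dif_pos h]
      have h' : ∃ b, κ b = κ (p h.choose) := ⟨_, rfl⟩
      rw [dif_pos h', hκ h'.choose_spec, p.anti]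
    · simp only [dif_neg h, neg_zero]
  fix x hx := by
    by_cases h : ∃ b, κ b = x
    · simp only [dif_pos h] at hx ⊢
      apply p.fix
      apply hκ
      rw [hx, h.choose_spec]
    · simp only [dif_neg h]

variable (hκ : Function.Injective κ)

theorem lftL_f (p : LPat Γ β) (b : β) : lftL κ hκ p (κ b) = κ (p b) := by
  have h : ∃ b', κ b' = κ b := ⟨b, rfl⟩
  have e : lftL κ hκ p (κ b) = κ (p h.choose) := dif_pos h
  rw [e, hκ h.choose_spec]

theorem lftL_s (p : LPat Γ β) (b : β) : (lftL κ hκ p).s (κ b) = p.s b := by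
  have h : ∃ b', κ b' = κ b := ⟨b, rfl⟩
  have e : (lftL κ hκ p).s (κ b) = p.s h.choose := dif_pos h
  rw [e, hκ h.choose_spec]

theorem lftL_fo (p : LPat Γ β) {x : α} (h : ¬ ∃ b, κ b = x) : lftL κ hκ p x = x := dif_neg h

theorem lftL_so (p : LPat Γ β) {x : α} (h : ¬ ∃ b, κ b = x) : (lftL κ hκ p).s x = 0 := dif_neg h

theorem lftL_ext {p : LPat Γ β} {q : LPat Γ α} (h1 : ∀ b, q (κ b) = κ (p b))
    (h2 : ∀ b, q.s (κ b) = p.s b) (h3 : ∀ x, (¬ ∃ b, κ b = x) → q x = x) : q = lftL κ hκ p := by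
  ext x
  · by_cases h : ∃ b, κ b = x
    · obtain ⟨b, rfl⟩ := h
      rw [h1, lftL_f]
    · rw [h3 x h, lftL_fo hκ p h]
  · by_cases h : ∃ b, κ b = x
    · obtain ⟨b, rfl⟩ := h
      rw [h2, lftL_s]
    · rw [q.fix x (h3 x h), lftL_so hκ p h]

theorem lftL_empty : lftL κ hκ (LPat.empty : LPat Γ β) = LPat.empty :=
  (lftL_ext hκ (fun _ => rfl) (fun _ => rfl) (fun _ _ => rfl)).symm

theorem lftL_inj {p q : LPat Γ β} (h : lftL κ hκ p = lftL κ hκ q) : p = q := by
  ext b
  · have := lftL_f hκ p b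
    rw [h, lftL_f] at this
    exact (hκ this).symm
  · have := lftL_s hκ p b
    rw [h, lftL_s] at this
    exact this.symm

theorem lftL_ofP (q : EXL.Pat β) : ofP Γ (EXL.lft κ hκ q) = lftL κ hκ (ofP Γ q) := by
  refine lftL_ext hκ (fun b => ?_) (fun _ => rfl) (fun x hx => ?_)
  · exact EXL.lft_apply κ hκ q b
  · exact EXL.lft_of_notMem κ hκ q hx

variable [DecidableEq α] [DecidableEq β] {K : Type*} [CommRing K]

theorem tw_lftL (i : β) (g : Γ) (p : LPat Γ β) : tw (κ i) g (lftL κ hκ p) = lftL κ hκ (tw i g p) := by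
  refine lftL_ext hκ (fun b => ?_) (fun b => ?_) (fun x hx => ?_)
  · rw [tw_f, tw_f, lftL_f]
  · by_cases h : p i = i
    · rw [tw_neg (by rw [lftL_f, h]), tw_neg h, lftL_s]
    · rw [tw_s (by rw [lftL_f]; exact fun e => h (hκ e)), tw_s h, lftL_f]
      simp only [hκ.eq_iff, lftL_s]
  · rw [tw_f, lftL_fo hκ p hx]

theorem rem_lftL {i j : β} (p : LPat Γ β) (h : p i = j) :
    rem (κ i) (κ j) (lftL κ hκ p) = lftL κ hκ (rem i j p) := by
  have h' : lftL κ hκ p (κ i) = κ j := by rw [lftL_f, h]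
  refine lftL_ext hκ (fun b => ?_) (fun b => ?_) (fun x hx => ?_)
  · rw [rem_f h', rem_f h, lftL_f]
    simp only [hκ.eq_iff]
    split_ifs <;> rfl
  · rw [rem_s h', rem_s h, lftL_s]
    simp only [hκ.eq_iff]
  · rw [rem_f h', if_neg (fun e => hx ⟨i, e.symm⟩), if_neg (fun e => hx ⟨j, e.symm⟩),
      lftL_fo hκ p hx]

omit [DecidableEq α] [DecidableEq β] in
theorem ctOK_lftL {i j : β} (p : LPat Γ β) (h : CtOK i j p) : CtOK (κ i) (κ j) (lftL κ hκ p) := by
  obtain ⟨h1, h2, h3, h4⟩ := h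
  unfold CtOK
  rw [lftL_f, lftL_f]
  exact ⟨fun e => h1 (hκ e), fun e => h2 (hκ e), fun e => h3 (hκ e), fun e => h4 (hκ e)⟩

theorem cut_lftL {i j : β} (p : LPat Γ β) (h : CtOK i j p) :
    cut (κ i) (κ j) (lftL κ hκ p) = lftL κ hκ (cut i j p) := by
  have h' := ctOK_lftL hκ p h
  refine lftL_ext hκ (fun b => ?_) (fun b => ?_) (fun x hx => ?_)
  · rw [cut_f h', cut_f h]
    simp only [lftL_f, hκ.eq_iff]
    split_ifs <;> rfl
  · rw [cut_s h', cut_s h]
    simp only [lftL_f, lftL_s, hκ.eq_iff]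
  · rw [cut_f h', if_neg (fun e => hx ⟨i, e.symm⟩), if_neg (fun e => hx ⟨j, e.symm⟩), lftL_f,
      if_neg (fun e => hx ⟨_, e.symm⟩), lftL_f, if_neg (fun e => hx ⟨_, e.symm⟩),
      lftL_fo hκ p hx]

omit [DecidableEq α] [DecidableEq β] in
theorem ocOK_lftL {i j : β} (p : LPat Γ β) : OcOK (κ i) (κ j) (lftL κ hκ p) ↔ OcOK i j p := by
  unfold OcOK
  rw [lftL_f, lftL_f, hκ.ne_iff, hκ.ne_iff, hκ.ne_iff]

/-- contractions of relabelled sites. -/
theorem lCo_lftL (ν : Γ → K) (g : Γ) (i j : β) (F : LPat Γ α → K) (p : LPat Γ β) :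
    lCo ν g (κ i) (κ j) F (lftL κ hκ p) = lCo ν g i j (fun q => F (lftL κ hκ q)) p := by
  rw [lCo_apply, lCo_apply]
  simp only [lftL_f, hκ.eq_iff, ocOK_lftL, tw_lftL]
  congr 1
  split_ifs with h
  · have h0 : OcOK i j (tw i (-g) p) := h
    by_cases c : tw i (-g) p i = j
    · have c' : lftL κ hκ (tw i (-g) p) (κ i) = κ j := by rw [lftL_f, c]
      rw [lw_pos _ ν c, lw_pos _ ν c', jo_pos _ c, jo_pos _ c', lftL_s, rem_lftL hκ _ c]
    · have c' : lftL κ hκ (tw i (-g) p) (κ i) ≠ κ j := by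
        rw [lftL_f]
        exact fun e => c (hκ e)
      rw [lw_neg _ ν c, lw_neg _ ν c', jo_neg _ c, jo_neg _ c',
        cut_lftL hκ _ ⟨h0.1, h0.2.1, h0.2.2, c⟩]
  · rfl

end lftL

/-! ### unlabelled states -/

section ofP

variable {Γ α K : Type*} [AddCommGroup Γ] [DecidableEq α] [CommRing K]

theorem lCr_ofP (x : K) (a b c : α) (F : LPat Γ α → K) (p : EXL.Pat α) :
    lCr Γ x a b c F (ofP Γ p) = EXL.Net.Cr x a b c (fun q => F (ofP Γ q)) p := by
  have h : ∀ i j : α, (if CuOK i j (ofP Γ p) then F (cup i j (ofP Γ p)) else 0) =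
      EXL.Net.cupO i j (fun q => F (ofP Γ q)) p := by
    intro i j
    rw [EXL.Net.cupO_apply, ofP_cup]
    rfl
  rw [lCr_apply, h, h, h]
  rfl

theorem tw_zero (a : α) (p : LPat Γ α) : tw a 0 p = p := by
  ext x
  · rfl
  · by_cases h : p a = a
    · rw [tw_neg h]
    · rw [tw_s h]
      simp

theorem lCo_ofP {ν : Γ → K} (h0 : ν 0 = 0) {a b : α} (hab : a ≠ b) (F : LPat Γ α → K)
    (p : EXL.Pat α) :
    lCo ν 0 a b F (ofP Γ p) = EXL.Net.Co a b (fun q => F (ofP Γ q)) p := by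
  rw [lCo_apply, EXL.Net.Co_apply, neg_zero, tw_zero]
  by_cases c1 : p a = a
  · rw [if_pos (show ofP Γ p a = a from c1), if_neg (fun h : OcOK a b (ofP Γ p) => h.2.1 c1),
      add_zero]
    by_cases c2 : p b = b
    · rw [if_pos (show ofP Γ p b = b from c2), if_pos ⟨c1, c2⟩]
    · rw [if_neg (show ¬ ofP Γ p b = b from c2), if_neg (fun h => c2 h.2), if_pos (Or.inl c1)]
  · rw [if_neg (show ¬ ofP Γ p a = a from c1), zero_add,
      if_neg (show ¬ (p a = a ∧ p b = b) from fun h => c1 h.1)]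
    by_cases c2 : p b = b
    · rw [if_neg (fun h : OcOK a b (ofP Γ p) => h.2.2 c2), if_pos (Or.inr (Or.inl c2))]
    · rw [if_pos (show OcOK a b (ofP Γ p) from ⟨hab, c1, c2⟩)]
      by_cases c3 : p a = b
      · have c4 : ofP Γ p a = b := c3
        rw [if_pos (Or.inr (Or.inr c3)), lw_pos _ ν c4, ofP_s, h0, zero_mul]
      · have c4 : ofP Γ p a ≠ b := c3
        rw [if_neg (by tauto), lw_neg _ ν c4, jo_neg _ c4, ofP_cut, one_mul]

end ofP

/-! ### the gauge -/

section gauge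

variable {Γ α K : Type*} [AddCommGroup Γ] [DecidableEq α] [CommRing K]

theorem lTw_lG (a : α) (g : Γ) : (lTw K a g : Module.End K (LPat Γ α → K)) = lG K (Pi.single a g) := by
  refine LinearMap.ext fun F => ?_
  funext p
  rw [lTw_apply, lG_apply, gau_single]

/-- a gauge transformation of a gluing. -/
theorem lG_glue (ν : Γ → K) (χ : α → Γ) {a b : α} (hab : a ≠ b) :
    lG K χ * (lE Γ K a * lE Γ K b + lCt ν a b) = lCo ν (χ b - χ a) a b * lG K χ := by
  set d := χ a - χ b with hd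
  set χ0 : α → Γ := χ - Pi.single a d with h0
  have e1 : χ = Pi.single a d + χ0 := by rw [h0]; abel
  have e2 : χ0 a = χ0 b := by
    rw [h0, Pi.sub_apply, Pi.sub_apply, Pi.single_eq_same, Pi.single_eq_of_ne hab.symm, hd]
    abel
  have e3 : lG K χ = lTw K a d * lG K χ0 := by
    conv_lhs => rw [e1]
    rw [lTw_lG, lG_mul]
  have e4 : -(χ b - χ a) = d := by rw [hd]; abel
  have c1 : Commute (lG K χ0) (lE Γ K a) := lG_comm_e χ0 a
  have c2 : Commute (lG K χ0) (lE Γ K b) := lG_comm_e χ0 b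
  have c3 : Commute (lG K χ0) (lCt ν a b) := lG_comm_ct e2
  have c4 : Commute (lG K χ0) (lE Γ K a * lE Γ K b + lCt ν a b) := (c1.mul_right c2).add_right c3
  have f1 : (lTw K a d * (lE Γ K a * lE Γ K b) : Module.End K (LPat Γ α → K)) =
      lE Γ K a * lE Γ K b := by
    refine LinearMap.ext fun F => ?_
    funext p
    simp only [Module.End.mul_apply, lTw_apply, lE_apply]
    by_cases h : p a = a
    · rw [tw_neg h]
    · rw [if_neg (show ¬ tw a d p a = a from h), if_neg h]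
  have f2 : (lE Γ K a * lE Γ K b * lTw K a d : Module.End K (LPat Γ α → K)) =
      lE Γ K a * lE Γ K b := by
    refine LinearMap.ext fun F => ?_
    funext p
    simp only [Module.End.mul_apply, lTw_apply, lE_apply]
    by_cases h : p a = a
    · rw [tw_neg h]
    · rw [if_neg h, if_neg h]
  have f3 : (lCt ν a b * lTw K a d : Module.End K (LPat Γ α → K)) = lCt ν a b := by
    refine LinearMap.ext fun F => ?_
    funext p
    simp only [Module.End.mul_apply, lTw_apply, lCt_apply]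
    split_ifs with h
    · have e : jo a b p a = a := by
        by_cases c : p a = b
        · rw [jo_pos _ c, rem_f c, if_pos rfl]
        · rw [jo_neg _ c, cut_f ⟨h.1, h.2.1, h.2.2, c⟩, if_pos rfl]
      rw [tw_neg e]
    · rfl
  unfold lCo
  rw [e3, e4]
  calc lTw K a d * lG K χ0 * (lE Γ K a * lE Γ K b + lCt ν a b)
      = lTw K a d * (lG K χ0 * (lE Γ K a * lE Γ K b + lCt ν a b)) := by rw [mul_assoc]
    _ = (lTw K a d * (lE Γ K a * lE Γ K b) + lTw K a d * lCt ν a b) * lG K χ0 := by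
        rw [c4.eq, ← mul_assoc, mul_add]
    _ = (lE Γ K a * lE Γ K b * lTw K a d + lTw K a d * (lCt ν a b * lTw K a d)) * lG K χ0 := by
        rw [f1, f2, f3]
    _ = _ := by
        rw [← mul_assoc, ← mul_assoc, ← add_mul]

/-- the gluing with labels. -/
theorem lG_gm (ν : Γ → ℂ) (χ : α → Γ) {L : List (α × α)} (hL : ∀ t ∈ L, t.1 ≠ t.2) :
    lG ℂ χ (gm ν L) = (L.map fun t => lCo ν (χ t.2 - χ t.1) t.1 t.2).prod (dl Γ α) := by
  induction L with
  | nil => exact Tw_dl χ
  | cons t L ih =>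
    have h1 := hL t (by simp)
    rw [gm_cons, glueL, if_neg h1, ← Module.End.mul_apply, lG_glue ν χ h1, Module.End.mul_apply,
      ih (fun s hs => hL s (by simp [hs])), List.map_cons, List.prod_cons, Module.End.mul_apply]

omit [DecidableEq α] in
theorem dl_lftL {β : Type*} {κ : β → α} (hκ : Function.Injective κ) (p : LPat Γ β) :
    dl Γ α (lftL κ hκ p) = dl Γ β p := by
  unfold dl
  by_cases h : p = LPat.empty
  · rw [if_pos h, if_pos (by rw [h, lftL_empty])]
  · rw [if_neg h, if_neg (fun e => h (lftL_inj hκ (by rw [e, lftL_empty])))]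

theorem prod_lftL {β : Type*} [DecidableEq β] {κ : β → α} (hκ : Function.Injective κ) (ν : Γ → ℂ)
    (L : List (β × β)) (g : β × β → Γ) (p : LPat Γ β) :
    (L.map fun t => lCo ν (g t) (κ t.1) (κ t.2)).prod (dl Γ α) (lftL κ hκ p) =
      (L.map fun t => lCo ν (g t) t.1 t.2).prod (dl Γ β) p := by
  induction L generalizing p with
  | nil => exact dl_lftL hκ p
  | cons t L ih =>
    rw [List.map_cons, List.prod_cons, List.map_cons, List.prod_cons, Module.End.mul_apply,
      Module.End.mul_apply, lCo_lftL]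
    exact congrFun (congrArg (lCo ν (g t) t.1 t.2) (funext ih)) p

end gauge

end Pool.Agent.NUN
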