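import Pool.Agent.NUF.LGen

/-!
# Labelled networks of half edges: local operators (chain F of board NUL, module F1)

`(A * B) F = A (B F)`: the operator `A` acts first on the state.
-/

set_option autoImplicit false

namespace Pool.Agent.NUN

open Pool.Agent.NUF Pool.Agent.NUF.LPat

variable {Γ α K : Type*} [AddCommGroup Γ] [DecidableEq α] [CommRing K]

/-- contraction of the half edges `a`, `b`; `g` = the label of the step from `a` to `b`. -/
def lCo (ν : Γ → K) (g : Γ) (a b : α) : Module.End K (LPat Γ α → K) :=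
  lE Γ K a * lE Γ K b + lTw K a (-g) * lCt ν a b

/-- the vertex with the half edges `a`, `b`, `c`. -/
def lCr (Γ : Type*) [AddCommGroup Γ] (x : K) (a b c : α) : Module.End K (LPat Γ α → K) :=
  1 + x • (lCu Γ K a b + lCu Γ K a c + lCu Γ K b c)

theorem lCo_apply (ν : Γ → K) (g : Γ) (a b : α) (F : LPat Γ α → K) (p : LPat Γ α) :
    lCo ν g a b F p = (if p a = a then (if p b = b then F p else 0) else 0) +
      (if OcOK a b p then lw ν a b (tw a (-g) p) * F (jo a b (tw a (-g) p)) else 0) := rfl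

theorem lCr_apply (x : K) (a b c : α) (F : LPat Γ α → K) (p : LPat Γ α) :
    lCr Γ x a b c F p = F p + x * ((if CuOK a b p then F (cup a b p) else 0) +
      (if CuOK a c p then F (cup a c p) else 0) + (if CuOK b c p then F (cup b c p) else 0)) := rfl

/-! ### symmetry -/

theorem cup_symm (i j : α) (p : LPat Γ α) : cup i j p = cup j i p := by
  ext x
  · simp only [cup]
    grind
  · rfl

theorem lCu_symm (i j : α) : lCu Γ K i j = lCu Γ K j i := by
  refine LinearMap.ext fun F => ?_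
  funext p
  rw [lCu_apply, lCu_apply, cup_symm i j]
  simp only [CuOK, and_comm]

theorem lCr_swap12 (x : K) (a b c : α) : lCr Γ x a b c = lCr Γ x b a c := by
  unfold lCr
  rw [lCu_symm a b, add_right_comm]

theorem lCr_swap23 (x : K) (a b c : α) : lCr Γ x a b c = lCr Γ x a c b := by
  unfold lCr
  rw [lCu_symm b c, add_comm (lCu Γ K a b) (lCu Γ K a c)]

theorem lCr_rot (x : K) (a b c : α) : lCr Γ x a b c = lCr Γ x b c a := by
  rw [lCr_swap12, lCr_swap23]

theorem lCo_symm {ν : Γ → K} (hν : ∀ g, ν (-g) = ν g) (g : Γ) {a b : α} (hab : a ≠ b) :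
    lCo ν g a b = lCo ν (-g) b a := by
  refine LinearMap.ext fun F => ?_
  funext p
  rw [lCo_apply, lCo_apply, neg_neg]
  have hi := p.inv_apply
  have ha : ∀ x, p.s (p x) = - p.s x := p.anti
  congr 1
  · split_ifs <;> rfl
  · by_cases h : OcOK a b p
    · have h' : OcOK b a p := ⟨h.1.symm, h.2.2, h.2.1⟩
      rw [if_pos h, if_pos h']
      obtain ⟨h1, h2, h3⟩ := h
      by_cases c : p a = b
      · have c' : p b = a := by rw [← c, hi]
        have c1 : tw a (-g) p a = b := c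
        have c2 : tw b g p b = a := c'
        rw [lw_pos _ ν c1, lw_pos _ ν c2, jo_pos _ c1, jo_pos _ c2, tw_s h2, tw_s h3, if_pos rfl,
          if_pos rfl]
        have e1 : p.s b = - p.s a := by rw [← c, ha]
        have e2 : ν (p.s a + -g) = ν (p.s b + g) := by
          rw [← hν, e1]
          congr 1
          abel
        rw [e2]
        congr 2
        ext x
        · rw [rem_f c1, rem_f c2]
          simp only [tw_f]
          grind
        · rw [rem_s c1, rem_s c2]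
          simp only [tw_s h2, tw_s h3]
          grind
      · have c' : p b ≠ a := fun h => c (by rw [← h, hi])
        have c1 : tw a (-g) p a ≠ b := c
        have c2 : tw b g p b ≠ a := c'
        rw [lw_neg _ ν c1, lw_neg _ ν c2, jo_neg _ c1, jo_neg _ c2, one_mul, one_mul]
        congr 1
        have d1 : CtOK a b (tw a (-g) p) := ⟨h1, h2, h3, c1⟩
        have d2 : CtOK b a (tw b g p) := ⟨h1.symm, h3, h2, c2⟩
        ext x
        · rw [cut_f d1, cut_f d2]
          simp only [tw_f]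
          grind
        · rw [cut_s d1, cut_s d2]
          simp only [tw_s h2, tw_s h3, tw_f]
          grind (splits := 30)
    · have h' : ¬ OcOK b a p := fun h' => h ⟨h'.1.symm, h'.2.2, h'.2.1⟩
      rw [if_neg h, if_neg h']

/-! ### commutation -/

theorem lCu_lCo_comm (ν : Γ → K) (g : Γ) {i j a b : α} (h1 : i ≠ a) (h2 : i ≠ b) (h3 : j ≠ a)
    (h4 : j ≠ b) : Commute (lCu Γ K i j) (lCo ν g a b) := by
  unfold lCo
  exact ((comm_E_Cu h1.symm h3.symm).symm.mul_right (comm_E_Cu h2.symm h4.symm).symm).add_right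
    ((comm_Cu_Tw _ h1.symm h3.symm).mul_right (comm_Cu_Ct h1.symm h3.symm h2.symm h4.symm))

theorem lCr_lCo_comm (ν : Γ → K) (g : Γ) (x : K) {a b c i j : α} (h1 : a ≠ i) (h2 : a ≠ j)
    (h3 : b ≠ i) (h4 : b ≠ j) (h5 : c ≠ i) (h6 : c ≠ j) :
    Commute (lCr Γ x a b c) (lCo ν g i j) := by
  unfold lCr
  exact (Commute.one_left _).add_left ((((lCu_lCo_comm ν g h1 h2 h3 h4).add_left
    (lCu_lCo_comm ν g h1 h2 h5 h6)).add_left (lCu_lCo_comm ν g h3 h4 h5 h6)).smul_left x)

theorem lCr_lCu_comm (x : K) {a b c i j : α} (h1 : a ≠ i) (h2 : a ≠ j)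
    (h3 : b ≠ i) (h4 : b ≠ j) (h5 : c ≠ i) (h6 : c ≠ j) :
    Commute (lCr Γ x a b c) (lCu Γ K i j) := by
  unfold lCr
  exact (Commute.one_left _).add_left ((((comm_Cu_Cu h1.symm h3.symm h2.symm h4.symm).add_left
    (comm_Cu_Cu h1.symm h5.symm h2.symm h6.symm)).add_left
    (comm_Cu_Cu h3.symm h5.symm h4.symm h6.symm)).smul_left x)

theorem lCr_comm (x : K) {a b c i j k : α} (h1 : a ≠ i) (h2 : a ≠ j) (h3 : b ≠ i) (h4 : b ≠ j)
    (h5 : c ≠ i) (h6 : c ≠ j) (h7 : a ≠ k) (h8 : b ≠ k) (h9 : c ≠ k) :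
    Commute (lCr Γ x a b c) (lCr Γ x i j k) := by
  have e : lCr Γ x i j k = 1 + x • (lCu Γ K i j + lCu Γ K i k + lCu Γ K j k) := rfl
  rw [e]
  exact (Commute.one_right _).add_right ((((lCr_lCu_comm x h1 h2 h3 h4 h5 h6).add_right
    (lCr_lCu_comm x h1 h7 h3 h8 h5 h9)).add_right (lCr_lCu_comm x h2 h7 h4 h8 h6 h9)).smul_right x)

theorem lCo_comm {ν : Γ → K} (hν : ∀ g, ν (-g) = ν g) (g g' : Γ) {a b c d : α} (h1 : a ≠ c)
    (h2 : a ≠ d) (h3 : b ≠ c) (h4 : b ≠ d) : Commute (lCo ν g a b) (lCo ν g' c d) := by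
  unfold lCo
  have k1 : Commute (lE Γ K a * lE Γ K b) (lE Γ K c * lE Γ K d) :=
    ((comm_E_E _ _).mul_right (comm_E_E _ _)).mul_left ((comm_E_E _ _).mul_right (comm_E_E _ _))
  have k2 : Commute (lE Γ K a * lE Γ K b) (lTw K c (-g') * lCt ν c d) :=
    ((comm_E_Tw _ _ _).mul_right (comm_E_Ct h1 h2)).mul_left
      ((comm_E_Tw _ _ _).mul_right (comm_E_Ct h3 h4))
  have k3 : Commute (lTw K a (-g) * lCt ν a b) (lE Γ K c * lE Γ K d) :=
    (((comm_E_Tw _ _ _).symm.mul_right (comm_E_Tw _ _ _).symm)).mul_left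
      ((comm_E_Ct h1.symm h3.symm).symm.mul_right (comm_E_Ct h2.symm h4.symm).symm)
  have k4 : Commute (lTw K a (-g) * lCt ν a b) (lTw K c (-g') * lCt ν c d) :=
    ((comm_Tw_Tw _ _ _ _).mul_right (comm_Ct_Tw _ h1 h2).symm).mul_left
      ((comm_Ct_Tw _ h1.symm h3.symm).mul_right (comm_Ct_Ct hν h1.symm h3.symm h2.symm h4.symm))
  exact (k1.add_right k2).add_left (k3.add_right k4)

/-! ### the empty state and the states with one arc -/

/-- the state with the single arc `a`, `b`; `g` = the label from `a` to `b`. -/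
def arc (a b : α) (g : Γ) : LPat Γ α := tw a g (cup a b LPat.empty)

theorem arc_f {a b : α} (_ : a ≠ b) (g : Γ) (x : α) :
    arc a b g x = if x = a then b else if x = b then a else x := by
  unfold arc
  rw [tw_f, cup_f ⟨rfl, rfl⟩]
  rfl

theorem arc_s {a b : α} (hab : a ≠ b) (g : Γ) (x : α) :
    (arc a b g).s x = if x = a then g else if x = b then -g else 0 := by
  unfold arc
  have h : cup a b (LPat.empty : LPat Γ α) a ≠ a := by
    rw [cup_f ⟨rfl, rfl⟩, if_pos rfl]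
    exact hab.symm
  rw [tw_s h, cup_s, cup_f ⟨rfl, rfl⟩, if_pos rfl]
  simp only [LPat.empty, zero_add, zero_sub]

theorem arc_zero {a b : α} (hab : a ≠ b) : arc a b (0 : Γ) = cup a b LPat.empty := by
  ext x
  · rfl
  · rw [arc_s hab, cup_s]
    simp [LPat.empty]

theorem arc_symm {a b : α} (hab : a ≠ b) : arc a b (0 : Γ) = arc b a 0 := by
  ext x
  · rw [arc_f hab, arc_f hab.symm]
    grind
  · rw [arc_s hab, arc_s hab.symm]
    simp

theorem lCo_empty (ν : Γ → K) (g : Γ) (a b : α) (F : LPat Γ α → K) :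
    lCo ν g a b F LPat.empty = F LPat.empty := by
  have e : ∀ x, (LPat.empty : LPat Γ α) x = x := fun _ => rfl
  rw [lCo_apply, if_pos (e a), if_pos (e b), if_neg, add_zero]
  intro h
  exact h.2.1 rfl

theorem lCr_empty (x : K) {a b c : α} (h1 : a ≠ b) (h2 : a ≠ c) (h3 : b ≠ c) (F : LPat Γ α → K) :
    lCr Γ x a b c F LPat.empty =
      F LPat.empty + x * (F (arc a b 0) + F (arc a c 0) + F (arc b c 0)) := by
  rw [lCr_apply, if_pos ⟨rfl, rfl⟩, if_pos ⟨rfl, rfl⟩, if_pos ⟨rfl, rfl⟩, arc_zero h1, arc_zero h2,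
    arc_zero h3]

section one

variable {h q a b c : α} (g g0 : Γ) (ν : Γ → K)

theorem arc_out (hq : h ≠ q) (h1 : a ≠ h) (h2 : a ≠ q) : arc h q g0 a = a := by
  rw [arc_f hq, if_neg h1, if_neg h2]

/-- the other half edge is empty. -/
theorem lCo_arc (hq : h ≠ q) (h1 : a ≠ h) (h2 : a ≠ q) (G : LPat Γ α → K) :
    lCo ν g h a G (arc h q g0) = 0 := by
  have e1 : arc h q g0 h = q := by rw [arc_f hq, if_pos rfl]
  rw [lCo_apply, if_neg (by rw [e1]; exact hq.symm), if_neg, add_zero]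
  intro h
  exact h.2.2 (arc_out g0 hq h1 h2)

/-- the strand is closed. -/
theorem lCo_close (hq : h ≠ q) (G : LPat Γ α → K) :
    lCo ν g h q G (arc h q g0) = ν (g0 - g) * G LPat.empty := by
  have e1 : arc h q g0 h = q := by rw [arc_f hq, if_pos rfl]
  have e2 : arc h q g0 q = h := by rw [arc_f hq, if_neg hq.symm, if_pos rfl]
  have e3 : arc h q g0 h ≠ h := by rw [e1]; exact hq.symm
  have e4 : tw h (-g) (arc h q g0) h = q := e1
  rw [lCo_apply, if_neg e3, if_pos ⟨hq, e3, by rw [e2]; exact hq⟩, zero_add, lw_pos _ ν e4,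
    jo_pos _ e4]
  have e5 : (tw h (-g) (arc h q g0)).s h = g0 - g := by
    rw [tw_s e3, if_pos rfl, arc_s hq, if_pos rfl]
    abel
  rw [e5]
  congr 2
  ext x
  · rw [rem_f e4, tw_f, arc_f hq]
    simp only [LPat.empty, id]
    grind
  · rw [rem_s e4, tw_s e3, arc_s hq, e1]
    simp only [LPat.empty]
    grind

theorem lCo_cup (hq : h ≠ q) (h1 : a ≠ h) (h2 : a ≠ q) (h3 : b ≠ h) (h4 : b ≠ q) (h5 : a ≠ b)
    (G : LPat Γ α → K) :
    lCo ν g h a G (cup a b (arc h q g0)) = G (arc b q (g0 - g)) := by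
  have c0 : CuOK a b (arc h q g0) := ⟨arc_out g0 hq h1 h2, arc_out g0 hq h3 h4⟩
  have f0 : ∀ x, cup a b (arc h q g0) x = if x = a then b else if x = b then a else
      if x = h then q else if x = q then h else x := by
    intro x
    rw [cup_f c0, arc_f hq]
  have s0 : ∀ x, (cup a b (arc h q g0)).s x = if x = h then g0 else if x = q then -g0 else 0 := by
    intro x
    rw [cup_s, arc_s hq]
  have e1 : cup a b (arc h q g0) h = q := by
    rw [f0, if_neg h1.symm, if_neg h3.symm, if_pos rfl]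
  have e2 : cup a b (arc h q g0) a = b := by
    rw [f0, if_pos rfl]
  have e3 : cup a b (arc h q g0) h ≠ h := by rw [e1]; exact hq.symm
  have e4 : tw h (-g) (cup a b (arc h q g0)) h ≠ a := by
    rw [tw_f, e1]
    exact h2.symm
  have e5 : CtOK h a (tw h (-g) (cup a b (arc h q g0))) := by
    refine ⟨h1.symm, e3, ?_, e4⟩
    rw [tw_f, e2]
    exact h5.symm
  rw [lCo_apply, if_neg e3, if_pos ⟨h1.symm, e3, by rw [e2]; exact h5.symm⟩, zero_add,
    lw_neg _ ν e4, jo_neg _ e4, one_mul]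
  congr 1
  ext x
  · rw [cut_f e5, tw_f, tw_f, tw_f, e1, e2, f0, arc_f h4]
    grind
  · rw [cut_s e5]
    simp only [tw_s e3, tw_f, e1, e2, s0, arc_s h4]
    grind (splits := 30)

theorem lCo_cup' (hq : h ≠ q) (h1 : a ≠ h) (h2 : a ≠ q) (h3 : b ≠ h) (h4 : b ≠ q) (h5 : c ≠ h)
    (h6 : c ≠ q) (h7 : a ≠ b) (h8 : a ≠ c) (G : LPat Γ α → K) :
    lCo ν g h a G (cup b c (arc h q g0)) = 0 := by
  have c0 : CuOK b c (arc h q g0) := ⟨arc_out g0 hq h3 h4, arc_out g0 hq h5 h6⟩
  have e1 : cup b c (arc h q g0) h = q := by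
    rw [cup_f c0, if_neg h3.symm, if_neg h5.symm, arc_f hq, if_pos rfl]
  have e2 : cup b c (arc h q g0) a = a := by
    rw [cup_f c0, if_neg h7, if_neg h8, arc_out g0 hq h1 h2]
  rw [lCo_apply, if_neg (by rw [e1]; exact hq.symm), if_neg, add_zero]
  intro h
  exact h.2.2 e2

/-- **one step of the exploration.** -/
theorem step_in (x : K) (hq : h ≠ q) (h1 : a ≠ h) (h2 : a ≠ q) (h3 : b ≠ h) (h4 : b ≠ q)
    (h5 : c ≠ h) (h6 : c ≠ q) (h7 : a ≠ b) (h8 : a ≠ c) (G : LPat Γ α → K) :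
    lCr Γ x a b c (lCo ν g h a G) (arc h q g0) =
      x * (G (arc b q (g0 - g)) + G (arc c q (g0 - g))) := by
  rw [lCr_apply, if_pos ⟨arc_out g0 hq h1 h2, arc_out g0 hq h3 h4⟩,
    if_pos ⟨arc_out g0 hq h1 h2, arc_out g0 hq h5 h6⟩,
    if_pos ⟨arc_out g0 hq h3 h4, arc_out g0 hq h5 h6⟩, lCo_arc g g0 ν hq h1 h2,
    lCo_cup g g0 ν hq h1 h2 h3 h4 h7, lCo_cup g g0 ν hq h1 h2 h5 h6 h8,
    lCo_cup' g g0 ν hq h1 h2 h3 h4 h5 h6 h7 h8]
  ring

end one

end Pool.Agent.NUN
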