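import Pool.Agent.NUN.Strip
import Pool.Agent.NUG.FarZ

/-!
# The nested polygons of a parallelogram and the partition function of the ring

`(NF n' (PP T M) f0) ^ 2 ≤ ZD n' (T rows | T rows | T rows | T rows)`.
-/

set_option autoImplicit false

namespace Pool.Agent.NUN

open Pool.Agent.NUF Pool.Agent.NUF.LPat HexObs HexObs.LP
open Filter Topology

variable {ι : Type*} [DecidableEq ι] [Finite ι] {A B C D L1 L2 : List (ι × ι)} {s : Fin 4 → ι}

/-- the partition function of the strip is real. -/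
theorem ZV_real (hG : Gd (L1 ++ L2)) (hi : Function.Injective s)
    (h : ∀ k, ∀ t ∈ L1 ++ L2, s k ≠ t.1 ∧ s k ≠ t.2) (hN : 1 ≤ L1.length + L2.length) (n' : ℝ) :
    ZV n' NUG.z0 L1 L2 = ((ZV n' NUG.z0 L1 L2).re : ℂ) := by
  have h1 := (Complex.continuous_im.tendsto _).comp (ZV_strip hG hi h hN (n' : ℂ))
  have h2 : (ZV n' NUG.z0 L1 L2).im = 0 := by
    refine tendsto_nhds_unique h1 ?_
    have h3 : (Complex.im ∘ fun m => NF (xc : ℂ) ((n' : ℂ) / 2) (fc L1.length) (Om (L1.length + L2.length) m)) =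
        fun _ => 0 := by
      funext m
      simp only [Function.comp_apply]
      rw [NF_cast, Complex.ofReal_im]
    rw [h3]
    exact tendsto_const_nhds
  apply Complex.ext
  · rw [Complex.ofReal_re]
  · rw [Complex.ofReal_im, h2]

/-- **The squared nested polygons are dominated by the partition function of the ring.** -/
theorem NF_sq_le_ZD (hG : Gd ((A ++ B) ++ (C ++ D))) (hi : Function.Injective s)
    (h : ∀ k, ∀ t ∈ (A ++ B) ++ (C ++ D), s k ≠ t.1 ∧ s k ≠ t.2) {T : ℕ} (hT : 1 ≤ T)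
    (hA : A.length = T) (hB : B.length = T) (hC : C.length = T) (hD : D.length = T) {n' : ℝ}
    (hn' : 0 ≤ n') (M : ℕ) :
    ∃ R : ℝ, NUG.ZD n' (s 0) (s 1) (A ++ B) (C ++ D) = (R : ℂ) ∧ (LP.NF n' (PP T M) f0) ^ 2 ≤ R := by
  have hne : ∀ i j, i ≠ j → s i ≠ s j := fun i j hij e => hij (hi e)
  have h1 : ∀ k, s k ∉ ((A ++ B) ++ (C ++ D)).map Prod.fst := by
    intro k hk
    obtain ⟨t, ht, he⟩ := List.mem_map.1 hk
    exact (h k t ht).1 he.symm
  have h2 : ∀ k, s k ∉ ((A ++ B) ++ (C ++ D)).map Prod.snd := by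
    intro k hk
    obtain ⟨t, ht, he⟩ := List.mem_map.1 hk
    exact (h k t ht).2 he.symm
  have hs : NUG.Spare (s 0) (s 1) (s 2) ((A ++ B) ++ (C ++ D)) :=
    { cd := hne _ _ (by decide)
      ce := hne _ _ (by decide)
      de := hne _ _ (by decide)
      c1 := h1 0
      d1 := h1 1
      e1 := h1 2
      c2 := h2 0
      d2 := h2 1
      e2 := h2 2 }
  obtain ⟨r, hr, e⟩ := NUG.ZD_ge hG hs hn'
  have hp : ((A ++ B) ++ (C ++ D)).Perm ((B ++ C) ++ (D ++ A)) := by
    rw [List.append_assoc A B, ← List.append_assoc B C D]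
    refine List.perm_append_comm.trans ?_
    rw [List.append_assoc (B ++ C) D A]
  have hG2 : Gd ((B ++ C) ++ (D ++ A)) := hG.perm hp
  have hsubl : ∀ L' L : List (ι × ι), L'.Sublist L → Gd L → Gd L' := fun L' L h1 h2 =>
    List.Nodup.sublist ((h1.map Prod.fst).append (h1.map Prod.snd)) h2
  have hG3 : Gd (B ++ C) := hsubl _ _ (List.sublist_append_left _ _) hG2
  have hG4 : Gd (D ++ A) := hsubl _ _ (List.sublist_append_right _ _) hG2
  have g3 : ∀ k, ∀ t ∈ B ++ C, s k ≠ t.1 ∧ s k ≠ t.2 := fun k t ht => h k t (hp.mem_iff.2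
    (List.mem_append_left _ ht))
  have g4 : ∀ k, ∀ t ∈ D ++ A, s k ≠ t.1 ∧ s k ≠ t.2 := fun k t ht => h k t (hp.mem_iff.2
    (List.mem_append_right _ ht))
  have r3 := ZV_real hG3 hi g3 (by omega) n'
  have r4 := ZV_real hG4 hi g4 (by omega) n'
  refine ⟨(ZV n' NUG.z0 B C).re * (ZV n' NUG.z0 D A).re + r, ?_, ?_⟩
  · rw [e, r3, r4]
    push_cast
    simp only [Complex.ofReal_re]
  · have l3 := NF_PP_le_ZV hG3 hi g3 hT hB hC hn' M
    have l4 := NF_PP_le_ZV hG4 hi g4 hT hD hA hn' M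
    have l0 : 0 ≤ LP.NF n' (PP T M) f0 := le_trans zero_le_one (one_le_NF hn' _ _)
    nlinarith [mul_le_mul l3 l4 l0 (l0.trans l3)]

end Pool.Agent.NUN
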